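import Pool.Agent.H401R3.SD.YMain

set_option autoImplicit false

namespace Pool.Agent.H401R3.SD.Wd
open Finset
open scoped Classical
open Pool.Agent.H409R3.Sub (win Leg join GoodEdge WordLemma)
open Pool.Agent.H378R3.ND hiding inj_bound

noncomputable section

lemma leg_congr {α : ℕ} {P P' : ℕ → ℕ} {T : ℕ} (h : ∀ i, 1 ≤ i → i ≤ 2 * T + 5 → P' i = P i)
    (hL : Leg α P T) (hT : 1 ≤ T) : Leg α P' T := by
  refine ⟨?_, ?_, ?_, ?_, ?_⟩
  · rw [h 1 (by omega) (by omega), h 2 (by omega) (by omega), h 3 (by omega) (by omega),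
      h 4 (by omega) (by omega), h 5 (by omega) (by omega)]
    exact hL.l0
  · intro t h1 h2 h3 h4
    rw [h t h1 (by omega)] at h3
    obtain ⟨d, hd, hdt, heq⟩ := hL.l1 t h1 h2 h3 (fun r hr hr' => by
      rw [← h r hr (by omega)]; exact h4 r hr hr')
    refine ⟨d, ?_, hdt, ?_⟩
    · rcases hd with hd | hd | ⟨hd, hd'⟩
      · exact Or.inl hd
      · exact Or.inr (Or.inl hd)
      · refine Or.inr (Or.inr ⟨hd, ?_⟩)
        rw [h (t - 2) (by omega) (by omega), h (t - 4) (by omega) (by omega)]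
        exact hd'
    · have : 2 ≤ d := by omega
      rw [h (t - 1) (by omega) (by omega), h (t - 1 - d) (by omega) (by omega)]
      exact heq
  · intro q h1 h2 h3 d hd hr
    rw [h q h1 (by omega)] at h3
    have hd4 : d ≤ 4 := by omega
    have := hL.l3 q h1 h2 h3 d (by
      rcases hd with hd | hd | ⟨hd, hd'⟩
      · exact Or.inl hd
      · exact Or.inr (Or.inl hd)
      · refine Or.inr (Or.inr ⟨hd, ?_⟩)
        rw [h (q + 2) (by omega) (by omega), h (q + 4) (by omega) (by omega)] at hd'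
        exact hd') (fun r hr1 hr2 => by
        rw [← h (q + r) (by omega) (by omega)]; exact hr r hr1 hr2)
    rw [h (q + 1) (by omega) (by omega), h (q + 1 + d) (by omega) (by omega)]
    exact this
  · intro t h1 h2 h3 h4
    rw [h t h1 (by omega)] at h3
    obtain ⟨r, hr1, hr2, hne⟩ := hL.l2i t h1 h2 h3 (fun r hr hr' => by
      rw [← h r hr (by omega)]; exact h4 r hr hr')
    exact ⟨r, hr1, hr2, by rw [h (t + r) (by omega) (by omega), h r hr1 (by omega)]; exact hne⟩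
  · intro u t h1 h2 h3 h4 h5 h6
    rw [h u h1 (by omega)] at h4
    rw [h t (by omega) (by omega)] at h6
    obtain ⟨r, hr1, hr2, hne⟩ := hL.l2ii u t h1 h2 h3 h4 (fun r hr hr' => by
      rw [← h r hr (by omega)]; exact h5 r hr hr') h6
    exact ⟨r, hr1, hr2, by rw [h (t + r) (by omega) (by omega), h r hr1 (by omega)]; exact hne⟩

/-- the provider of left families (no forbidden factor) -/
def ProvX (al : ℕ) (ℒ : ℕ → Finset ℕ) (s Kc : ℕ) : Prop := ∀ F : Finset (List ℕ), F.card ≤ Kc →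
  ∃ ok : ℕ → (ℕ → ℕ) → Prop, (∀ p c, ok p c → val ⟨12 * s, s, F, []⟩ p c) ∧
    (∀ c ∈ W ok ℒ (40 * s), Leg al (fun i => c (i - 1)) (12 * s)) ∧
    EndFacts ok ℒ (61 / 25) (1 / 10000) (40 * s) (12 * s)

/-- the provider of right families (with a forbidden factor of length five) -/
def ProvY (al : ℕ) (ℒ : ℕ → Finset ℕ) (s Kc : ℕ) : Prop := ∀ F : Finset (List ℕ), F.card ≤ Kc →
  ∀ G : List ℕ, G.length = 5 →
  ∃ ok : ℕ → (ℕ → ℕ) → Prop, (∀ p c, ok p c → val ⟨12 * s, s, F, []⟩ p c) ∧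
    (∀ p c, ok p c → 16 * s ≤ p → ∀ a, a + 5 = p + 1 → win c 5 a ≠ G) ∧
    (∀ c ∈ W ok ℒ (40 * s - 10), Leg al (fun i => c (i - 1)) (12 * s)) ∧
    EndFacts ok ℒ (477 / 200) (1 / 10000) (40 * s - 10) (12 * s)

/-- what the leg people provide -/
def Provider : Prop := ∀ K : ℕ, ∃ s0 : ℕ, ∀ s ≥ s0, ∀ (ℒ : ℕ → Finset ℕ) (al : ℕ),
  (∀ k, (ℒ k).card = 4) → ProvX al ℒ s (K * s) ∧ ProvY al ℒ s (K * s)

/-- properties of the right word -/
structure YW (al : ℕ) (ℒ : ℕ → Finset ℕ) (s : ℕ) (F : Finset (List ℕ)) (p : ℕ) (Y : ℕ → ℕ) : Prop where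
  mem : ∀ k < 40 * s, Y k ∈ ℒ k
  ok : ∀ q < 40 * s, val ⟨12 * s, s, F, []⟩ q Y
  leg : Leg al (fun i => Y (i - 1)) (12 * s)
  last : Y (40 * s - 1) = p
  zx : ZX (fun j => Y (40 * s - 1 - j)) (12 * s)

lemma exists_YW {al : ℕ} {ℒ : ℕ → Finset ℕ} {s Kc : ℕ} {F : Finset (List ℕ)} (hs : 11 ≤ s)
    (hL : ∀ k, (ℒ k).card = 4) (hP : ProvY al ℒ s Kc) (hF : F.card ≤ Kc)
    (hw : (10 * F.card + 20 * (40 * s : ℕ)) * (1 + 3 / (11 * (477 / 200 : ℚ))) ≤
      1 / 1000 * (477 / 200) ^ (s - 10)) {p : ℕ} (hp : p ∈ ℒ (40 * s - 1)) :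
    ∃ Y, YW al ℒ s F p Y := by
  obtain ⟨w2, m2, w3, m3, w4, m4, w5, m5, h5⟩ := exists_five (ℒ (40 * s - 2)) (ℒ (40 * s - 3))
    (ℒ (40 * s - 4)) (ℒ (40 * s - 5)) (hL _).ge (hL _).ge (hL _).ge (hL _).ge p
  obtain ⟨ok, hval, hG, hleg, hE⟩ := hP F hF [w5, w4, w3, w2, p] rfl
  obtain ⟨c, hc, w6, m6, w7, m7, w8, m8, w9, m9, w10, m10, hTen, hY, hrec⟩ :=
    ySide (T := 12 * s) (s := s) (M := 40 * s) (F := F) (D := 12 * s) h5 (fun k _ => (hL k).ge) hG hE
      (by omega) (by omega) hs (by omega) (by omega) (by norm_num) (by exact_mod_cast hw)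
  obtain ⟨z, hz⟩ : ∃ z, z = zf p w2 w3 w4 w5 w6 w7 w8 w9 w10 := ⟨_, rfl⟩
  have z0 : z 0 = w10 := by rw [hz]; rfl
  have z1 : z 1 = w9 := by rw [hz]; rfl
  have z2 : z 2 = w8 := by rw [hz]; rfl
  have z3 : z 3 = w7 := by rw [hz]; rfl
  have z4 : z 4 = w6 := by rw [hz]; rfl
  have z5 : z 5 = w5 := by rw [hz]; rfl
  have z6 : z 6 = w4 := by rw [hz]; rfl
  have z7 : z 7 = w3 := by rw [hz]; rfl
  have z8 : z 8 = w2 := by rw [hz]; rfl
  have z9 : z 9 = p := by rw [hz]; rfl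
  rw [← hz] at hY hrec
  obtain ⟨Y, hYd⟩ : ∃ Y, Y = cat (40 * s - 10) c z := ⟨_, rfl⟩
  rw [← hYd] at hY hrec
  have hcY : ∀ i < 40 * s - 10, Y i = c i := fun i hi => by rw [hYd]; exact cat_lt hi
  have hzY : ∀ i, Y (40 * s - 10 + i) = z i := fun i => by
    rw [hYd, cat_ge (by omega)]; congr 1; omega
  have hval' : ∀ q < 40 * s, val ⟨12 * s, s, F, []⟩ q Y := by
    intro q hq
    rcases Nat.lt_or_ge q (40 * s - 10) with h | h
    · exact val_congr (fun i hi => (hcY i (by omega)).symm) (hval _ _ ((mem_W.1 hc).2 q h))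
    · exact hY q h hq
  have y1 : Y (40 * s - 1) = p := by rw [← z9, ← hzY 9]; congr 1; omega
  have y2 : Y (40 * s - 2) = w2 := by rw [← z8, ← hzY 8]; congr 1; omega
  have y3 : Y (40 * s - 3) = w3 := by rw [← z7, ← hzY 7]; congr 1; omega
  have y4 : Y (40 * s - 4) = w4 := by rw [← z6, ← hzY 6]; congr 1; omega
  have y5 : Y (40 * s - 5) = w5 := by rw [← z5, ← hzY 5]; congr 1; omega
  have y6 : Y (40 * s - 6) = w6 := by rw [← z4, ← hzY 4]; congr 1; omega
  have y7 : Y (40 * s - 7) = w7 := by rw [← z3, ← hzY 3]; congr 1; omega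
  have y8 : Y (40 * s - 8) = w8 := by rw [← z2, ← hzY 2]; congr 1; omega
  have y9 : Y (40 * s - 9) = w9 := by rw [← z1, ← hzY 1]; congr 1; omega
  have y10 : Y (40 * s - 10) = w10 := by rw [← z0, ← hzY 0]; congr 1
  have g := h5
  refine ⟨Y, ⟨?_, hval', ?_, y1, ?_⟩⟩
  · intro k hk
    rcases Nat.lt_or_ge k (40 * s - 10) with h | h
    · rw [hcY k h]
      exact (mem_W.1 hc).1.1 k h
    · have hcase : k = 40 * s - 1 ∨ k = 40 * s - 2 ∨ k = 40 * s - 3 ∨ k = 40 * s - 4 ∨ k = 40 * s - 5 ∨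
        k = 40 * s - 6 ∨ k = 40 * s - 7 ∨ k = 40 * s - 8 ∨ k = 40 * s - 9 ∨ k = 40 * s - 10 := by omega
      rcases hcase with rfl | rfl | rfl | rfl | rfl | rfl | rfl | rfl | rfl | rfl
      · rw [y1]; exact hp
      · rw [y2]; exact m2
      · rw [y3]; exact m3
      · rw [y4]; exact m4
      · rw [y5]; exact m5
      · rw [y6]; exact m6
      · rw [y7]; exact m7
      · rw [y8]; exact m8
      · rw [y9]; exact m9
      · rw [y10]; exact m10
  · refine leg_congr (P := fun i => c (i - 1)) ?_ (hleg c hc) (by omega)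
    intro i h1 h2
    exact hcY (i - 1) (by omega)
  · refine ⟨?_, ?_, ?_, ?_, ?_, ?_⟩
    · intro t h1 h2
      show Y (40 * s - 1 - 0) ≠ Y (40 * s - 1 - t)
      rw [Nat.sub_zero, y1]
      interval_cases t
      · rw [show 40 * s - 1 - 1 = 40 * s - 2 by omega, y2]; exact g.h12
      · rw [show 40 * s - 1 - 2 = 40 * s - 3 by omega, y3]; exact g.h13
      · rw [show 40 * s - 1 - 3 = 40 * s - 4 by omega, y4]; exact g.h14
      · rw [show 40 * s - 1 - 4 = 40 * s - 5 by omega, y5]; exact g.h15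
    · intro hp'
      have e0 : Y (40 * s - 1) = Y (40 * s - 6) := hp' 0 (by norm_num)
      have e1 : Y (40 * s - 1 - 1) = Y (40 * s - 1 - 6) := hp' 1 (by norm_num)
      rw [show 40 * s - 1 - 1 = 40 * s - 2 by omega, show 40 * s - 1 - 6 = 40 * s - 7 by omega, y2, y7] at e1
      rw [y1, y6] at e0
      exact hTen.h7.2.2.1 e0.symm e1.symm
    · intro hp'
      have e0 : Y (40 * s - 1) = Y (40 * s - 7) := hp' 0 (by norm_num)
      have e1 : Y (40 * s - 1 - 1) = Y (40 * s - 1 - 7) := hp' 1 (by norm_num)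
      have e2 : Y (40 * s - 1 - 2) = Y (40 * s - 1 - 8) := hp' 2 (by norm_num)
      have e3 : Y (40 * s - 1 - 3) = Y (40 * s - 1 - 9) := hp' 3 (by norm_num)
      rw [show 40 * s - 1 - 1 = 40 * s - 2 by omega, show 40 * s - 1 - 7 = 40 * s - 8 by omega, y2, y8] at e1
      rw [show 40 * s - 1 - 2 = 40 * s - 3 by omega, show 40 * s - 1 - 8 = 40 * s - 9 by omega, y3, y9] at e2
      rw [show 40 * s - 1 - 3 = 40 * s - 4 by omega, show 40 * s - 1 - 9 = 40 * s - 10 by omega, y4, y10] at e3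
      rw [y1, y7] at e0
      exact hTen.d4 ⟨e0.symm, e1.symm, e2.symm, e3.symm⟩
    · intro hp'
      have e0 : Y (40 * s - 1) = Y (40 * s - 8) := hp' 0 (by norm_num)
      have e1 : Y (40 * s - 1 - 1) = Y (40 * s - 1 - 8) := hp' 1 (by norm_num)
      have e2 : Y (40 * s - 1 - 2) = Y (40 * s - 1 - 9) := hp' 2 (by norm_num)
      rw [show 40 * s - 1 - 1 = 40 * s - 2 by omega, show 40 * s - 1 - 8 = 40 * s - 9 by omega, y2, y9] at e1
      rw [show 40 * s - 1 - 2 = 40 * s - 3 by omega, show 40 * s - 1 - 9 = 40 * s - 10 by omega, y3, y10] at e2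
      rw [y1, y8] at e0
      exact hTen.l7 ⟨e0.symm, e1.symm, e2.symm⟩
    · show Y (40 * s - 1 - 5) ≠ Y (40 * s - 1 - 6)
      rw [show 40 * s - 1 - 5 = 40 * s - 6 by omega, show 40 * s - 1 - 6 = 40 * s - 7 by omega, y6, y7]
      exact hTen.h7.2.1.symm
    · intro t h1 h2 hp'
      have e0 : Y (40 * s - 1 - 0) = Y (40 * s - 1 - (t + 0)) := hp' 0 (by norm_num)
      have e1 : Y (40 * s - 1 - 1) = Y (40 * s - 1 - (t + 1)) := hp' 1 (by norm_num)
      have e2 : Y (40 * s - 1 - 2) = Y (40 * s - 1 - (t + 2)) := hp' 2 (by norm_num)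
      have e3 : Y (40 * s - 1 - 3) = Y (40 * s - 1 - (t + 3)) := hp' 3 (by norm_num)
      have e4 : Y (40 * s - 1 - 4) = Y (40 * s - 1 - (t + 4)) := hp' 4 (by norm_num)
      rw [Nat.sub_zero, y1] at e0
      rw [show 40 * s - 1 - 1 = 40 * s - 2 by omega, y2] at e1
      rw [show 40 * s - 1 - 2 = 40 * s - 3 by omega, y3] at e2
      rw [show 40 * s - 1 - 3 = 40 * s - 4 by omega, y4] at e3
      rw [show 40 * s - 1 - 4 = 40 * s - 5 by omega, y5] at e4
      refine hrec (40 * s - 5 - t) (by omega) (by omega) (by omega) ?_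
      have e : win Y 5 (40 * s - 5 - t) = [Y (40 * s - 5 - t + 0), Y (40 * s - 5 - t + 1),
          Y (40 * s - 5 - t + 2), Y (40 * s - 5 - t + 3), Y (40 * s - 5 - t + 4)] := by
        simp [win, List.range_succ]
      rw [e, e0, e1, e2, e3, e4]
      rw [show 40 * s - 5 - t + 0 = 40 * s - 1 - (t + 4) by omega,
        show 40 * s - 5 - t + 1 = 40 * s - 1 - (t + 3) by omega,
        show 40 * s - 5 - t + 2 = 40 * s - 1 - (t + 2) by omega,
        show 40 * s - 5 - t + 3 = 40 * s - 1 - (t + 1) by omega,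
        show 40 * s - 5 - t + 4 = 40 * s - 1 - (t + 0) by omega]

end
end Pool.Agent.H401R3.SD.Wd
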