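import Pool.Agent.H401R3.SD.Growth

set_option autoImplicit false

namespace Pool.Agent.H401R3.SD.Wd
open Finset
open scoped Classical
open Pool.Agent.H409R3.Sub (win)
open Pool.Agent.H378R3.ND hiding inj_bound

noncomputable section

variable {ok : ℕ → (ℕ → ℕ) → Prop} {ℒ : ℕ → Finset ℕ} {P : Par}

/-- number of words with last letter `p` -/
def PL (ok : ℕ → (ℕ → ℕ) → Prop) (ℒ : ℕ → Finset ℕ) (m p : ℕ) : ℚ :=
  ∑ c ∈ W ok ℒ m, (if c (m - 1) = p then (1 : ℚ) else 0)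

lemma PL_nonneg (m p : ℕ) : 0 ≤ PL ok ℒ m p :=
  sum_nonneg fun _ _ => by split_ifs <;> norm_num

lemma sum_PL (A : Finset ℕ) (m : ℕ) : ∑ p ∈ A, PL ok ℒ m p ≤ N ok ℒ m := by
  unfold PL
  rw [sum_comm, N_eq]
  refine sum_le_sum fun c _ => ?_
  have := sum_ind_le A (c (m - 1))
  refine le_trans (le_of_eq (sum_congr rfl fun p _ => ?_)) this
  by_cases h : p = c (m - 1)
  · rw [if_pos h, if_pos h.symm]
  · rw [if_neg h, if_neg (fun h' => h h'.symm)]

/-- cost of the letter `p` next to the words -/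
def Fc (ok : ℕ → (ℕ → ℕ) → Prop) (ℒ : ℕ → Finset ℕ) (m p : ℕ) : ℚ := ∑ t ∈ Ico 1 (m + 1), (t : ℚ) * PL ok ℒ (m + 1 - t) p

lemma Fc_nonneg (m p : ℕ) : 0 ≤ Fc ok ℒ m p :=
  sum_nonneg fun t _ => mul_nonneg (by positivity) (PL_nonneg _ _)

lemma exists_letter (A : Finset ℕ) (hA : 4 ≤ A.card) (m : ℕ) :
    ∃ p ∈ A, 4 * Fc ok ℒ m p ≤ ∑ t ∈ Ico 1 (m + 1), (t : ℚ) * N ok ℒ (m + 1 - t) := by
  by_contra hcon
  push Not at hcon
  set X := ∑ t ∈ Ico 1 (m + 1), (t : ℚ) * N ok ℒ (m + 1 - t) with hX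
  have hX0 : 0 ≤ X := sum_nonneg fun t _ => mul_nonneg (by positivity) (N_nonneg _)
  have h1 : ∑ p ∈ A, Fc ok ℒ m p ≤ X := by
    unfold Fc
    rw [sum_comm]
    refine sum_le_sum fun t _ => ?_
    rw [← mul_sum]
    exact mul_le_mul_of_nonneg_left (sum_PL A _) (by positivity)
  have hne : A.Nonempty := card_pos.1 (by omega)
  have h2 : ∑ p ∈ A, X < ∑ p ∈ A, 4 * Fc ok ℒ m p := sum_lt_sum_of_nonempty hne hcon
  rw [sum_const, nsmul_eq_mul, ← mul_sum] at h2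
  have h3 : (4 : ℚ) ≤ A.card := by exact_mod_cast hA
  nlinarith

lemma sum_tN (hloc : Local ok) (hval : ∀ p c, ok p c → val P p c) {β : ℚ} {M : ℕ} (hβ : 1 < β) (hT : 3 ≤ P.T) (h : ∀ k < M, β * S ok ℒ k ≤ S ok ℒ (k + 1))
    {m : ℕ} (hm : 1 ≤ m) (hmM : m ≤ M) :
    ∑ t ∈ Ico 1 (m + 1), (t : ℚ) * N ok ℒ (m + 1 - t) ≤
      N ok ℒ m + (1 + 3 / (11 * β)) * (β ^ 2 / (β - 1) ^ 2 - 1) * S ok ℒ m := by
  rw [sum_eq_sum_Ico_succ_bot (by omega)]
  have e1 : m + 1 - 1 = m := by omega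
  rw [e1]
  have hκ : 0 < 1 + 3 / (11 * β) := by positivity
  have h1 : ∑ t ∈ Ico (1 + 1) (m + 1), (t : ℚ) * N ok ℒ (m + 1 - t) ≤
      (1 + 3 / (11 * β)) * ∑ t ∈ Ico (1 + 1) (m + 1), (t : ℚ) * S ok ℒ (m + 1 - t) := by
    rw [mul_sum]
    refine sum_le_sum fun t ht => ?_
    rw [mem_Ico] at ht
    have := N_kap hloc hval hβ hT h (j := m + 1 - t) (by omega)
    have h2 : (0 : ℚ) ≤ t := by positivity
    nlinarith
  have h2 : ∑ t ∈ Ico (1 + 1) (m + 1), (t : ℚ) * S ok ℒ (m + 1 - t) ≤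
      ∑ j ∈ range m, ((m : ℚ) - j + 1) * S ok ℒ j := by
    have e2 : ∑ t ∈ Ico (1 + 1) (m + 1), (t : ℚ) * S ok ℒ (m + 1 - t) =
        ∑ j ∈ (Ico (1 + 1) (m + 1)).image (fun t => m + 1 - t), ((m : ℚ) - j + 1) * S ok ℒ j := by
      rw [sum_image]
      · refine sum_congr rfl fun t ht => ?_
        rw [mem_Ico] at ht
        have : ((m + 1 - t : ℕ) : ℚ) = (m : ℚ) + 1 - t := by
          rw [Nat.cast_sub (by omega)]; push_cast; ring
        rw [this]
        ring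
      · intro a ha b hb hab
        rw [mem_coe, mem_Ico] at ha hb
        simp only at hab
        omega
    rw [e2]
    refine sum_le_sum_of_subset_of_nonneg ?_ ?_
    · intro j hj
      obtain ⟨t, ht, rfl⟩ := mem_image.1 hj
      rw [mem_Ico] at ht
      rw [mem_range]; omega
    · intro j hj _
      rw [mem_range] at hj
      have : (j : ℚ) ≤ m := by exact_mod_cast hj.le
      have h3 := S_nonneg (ℒ := ℒ) (ok := ok) j
      nlinarith
  have h3 := sumA hβ h m hmM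
  rw [sum_range_succ] at h3
  have h4 : ∑ j ∈ range m, ((m : ℚ) - j + 1) * S ok ℒ j ≤ (β ^ 2 / (β - 1) ^ 2 - 1) * S ok ℒ m := by
    have hb : 0 < (β - 1) ^ 2 := by
      have : 0 < β - 1 := by linarith
      positivity
    have h5 : ∑ j ∈ range m, ((m : ℚ) - j + 1) * S ok ℒ j + ((m : ℚ) - m + 1) * S ok ℒ m ≤
        β ^ 2 * S ok ℒ m / (β - 1) ^ 2 := by
      rw [le_div_iff₀ hb]; linarith
    have e3 : (β ^ 2 / (β - 1) ^ 2 - 1) * S ok ℒ m = β ^ 2 * S ok ℒ m / (β - 1) ^ 2 - S ok ℒ m := by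
      ring
    rw [e3]
    linarith
  have h6 : (1 + 3 / (11 * β)) * ∑ t ∈ Ico (1 + 1) (m + 1), (t : ℚ) * S ok ℒ (m + 1 - t) ≤
      (1 + 3 / (11 * β)) * ((β ^ 2 / (β - 1) ^ 2 - 1) * S ok ℒ m) :=
    mul_le_mul_of_nonneg_left (h2.trans h4) hκ.le
  push_cast
  linarith

/-- concatenation -/
def cat (m : ℕ) (c z : ℕ → ℕ) (i : ℕ) : ℕ := if i < m then c i else z (i - m)

/-- the prefix of length `l` of `z` recurs at distance `t` -/
def Pre (z : ℕ → ℕ) (t l : ℕ) : Prop := ∀ i < l, z i = z (t + i)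

def E1 (m : ℕ) (z : ℕ → ℕ) (t i : ℕ) (c : ℕ → ℕ) : Prop :=
  i < t ∧ t + i ≤ m ∧ ∀ r < t, cat m c z (m - t - i + r) = cat m c z (m - t - i + t + r)

def E2 (m Λ : ℕ) (z : ℕ → ℕ) (t l : ℕ) (c : ℕ → ℕ) : Prop :=
  1 ≤ l ∧ l < t ∧ t - l ≤ m ∧ t + l ≤ Λ ∧
    ∀ r < t, cat m c z (m - (t - l) + r) = cat m c z (m - (t - l) + t + r)

lemma E1_bound (hloc : Local ok) {m : ℕ} {z : ℕ → ℕ} {t i : ℕ} :
    ∑ c ∈ W ok ℒ m, (if E1 m z t i c then (1 : ℚ) else 0) ≤ PL ok ℒ (m + 1 - t) (z 0) := by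
  rw [← sum_filter]
  by_cases hh : i < t ∧ t + i ≤ m
  swap
  · rw [filter_false_of_mem (fun c _ hc => hh ⟨hc.1, hc.2.1⟩), sum_empty]
    exact PL_nonneg _ _
  obtain ⟨hit, htm⟩ := hh
  unfold PL
  rw [← sum_filter]
  refine inj_bound (m := m) (j := m + 1 - t) _ ?_ ?_ ?_ _ _ (fun _ _ => le_rfl) (fun _ _ => zero_le_one)
  · intro c hc k hk
    rw [mem_filter, mem_W] at hc
    exact hc.1.1.2 k hk
  · intro c hc
    rw [mem_filter] at hc ⊢
    refine ⟨trunc_W hloc hc.1 (by omega), ?_⟩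
    have h1 := hc.2.2.2 i hit
    unfold cat at h1
    rw [if_pos (by omega), if_neg (by omega), show m - t - i + i = m - t by omega,
      show m - t - i + t + i - m = 0 by omega] at h1
    unfold trunc
    rw [if_pos (by omega), show m + 1 - t - 1 = m - t by omega]
    exact h1
  · intro c hc c' hc' heq k h1 h2
    rw [mem_filter] at hc hc'
    rcases Nat.lt_or_ge k (m - i) with h3 | h3
    · have g1 := hc.2.2.2 (k - (m - t - i)) (by omega)
      have g2 := hc'.2.2.2 (k - (m - t - i)) (by omega)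
      unfold cat at g1 g2
      rw [if_pos (by omega), if_neg (by omega), show m - t - i + (k - (m - t - i)) = k by omega] at g1 g2
      rw [g1, g2]
    · have g1 := hc.2.2.2 (k - t - (m - t - i)) (by omega)
      have g2 := hc'.2.2.2 (k - t - (m - t - i)) (by omega)
      unfold cat at g1 g2
      rw [if_pos (by omega), if_pos (by omega), show m - t - i + (k - t - (m - t - i)) = k - t by omega,
        show m - t - i + t + (k - t - (m - t - i)) = k by omega] at g1 g2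
      rw [← g1, ← g2]
      exact heq _ (by omega)

lemma E2_bound (hloc : Local ok) {m Λ : ℕ} {z : ℕ → ℕ} {t l : ℕ} :
    ∑ c ∈ W ok ℒ m, (if E2 m Λ z t l c then (1 : ℚ) else 0) ≤
      if 1 ≤ l ∧ l < t ∧ t - l ≤ m ∧ t + l ≤ Λ ∧ Pre z t l then N ok ℒ (m - (t - l)) else 0 := by
  rw [← sum_filter]
  split_ifs with hh
  · obtain ⟨hl, hlt, htm, hΛ, hpre⟩ := hh
    rw [N_eq]
    refine inj_bound (m := m) (j := m - (t - l)) _ ?_ ?_ ?_ _ _ (fun _ _ => le_rfl)
      (fun _ _ => zero_le_one)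
    · intro c hc k hk
      rw [mem_filter, mem_W] at hc
      exact hc.1.1.2 k hk
    · intro c hc
      rw [mem_filter] at hc
      exact trunc_W hloc hc.1 (by omega)
    · intro c hc c' hc' heq k h1 h2
      rw [mem_filter] at hc hc'
      have g1 := hc.2.2.2.2.2 (k - (m - (t - l))) (by omega)
      have g2 := hc'.2.2.2.2.2 (k - (m - (t - l))) (by omega)
      unfold cat at g1 g2
      rw [if_pos (by omega), if_neg (by omega), show m - (t - l) + (k - (m - (t - l))) = k by omega] at g1 g2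
      rw [g1, g2]
  · rw [filter_false_of_mem, sum_empty]
    intro c _ hc
    apply hh
    obtain ⟨hl, hlt, htm, hΛ, h⟩ := hc
    refine ⟨hl, hlt, htm, hΛ, ?_⟩
    intro i hi
    have g := h (t - l + i) (by omega)
    unfold cat at g
    rw [if_neg (by omega), if_neg (by omega)] at g
    rw [show m - (t - l) + (t - l + i) - m = i by omega,
      show m - (t - l) + t + (t - l + i) - m = t + i by omega] at g
    exact g

/-- cost of the recurrences of prefixes of `z` -/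
def Bc (ok : ℕ → (ℕ → ℕ) → Prop) (ℒ : ℕ → Finset ℕ) (T m Λ : ℕ) (z : ℕ → ℕ) : ℚ :=
  ∑ t ∈ Ico 1 T, ∑ l ∈ Ico 1 t,
    if 1 ≤ l ∧ l < t ∧ t - l ≤ m ∧ t + l ≤ Λ ∧ Pre z t l then N ok ℒ (m - (t - l)) else 0

theorem close_exists (hloc : Local ok) {T m Λ : ℕ} {z : ℕ → ℕ} {E : (ℕ → ℕ) → Prop} {X : ℚ}
    (hX : ∑ c ∈ W ok ℒ m, (if ¬ E c then (1 : ℚ) else 0) ≤ X)
    (hlt : Fc ok ℒ m (z 0) + Bc ok ℒ T m Λ z + X < N ok ℒ m) :
    ∃ c ∈ W ok ℒ m, E c ∧ ∀ t a, 1 ≤ t → t < T → a < m → m < a + 2 * t → a + 2 * t ≤ m + Λ →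
      ∃ i < t, cat m c z (a + i) ≠ cat m c z (a + t + i) := by
  by_contra hcon
  push Not at hcon
  have key : ∀ c ∈ W ok ℒ m, (1 : ℚ) ≤ (if ¬ E c then (1 : ℚ) else 0) +
      ∑ t ∈ Ico 1 (m + 1), ∑ i ∈ range t, (if E1 m z t i c then (1 : ℚ) else 0) +
      ∑ t ∈ Ico 1 T, ∑ l ∈ Ico 1 t, (if E2 m Λ z t l c then (1 : ℚ) else 0) := by
    intro c hc
    have nn : ∀ Q : Prop, 0 ≤ (if Q then (1 : ℚ) else 0) := fun Q => by split_ifs <;> norm_num
    have n1 : (0 : ℚ) ≤ (if ¬ E c then (1 : ℚ) else 0) := by split_ifs <;> norm_num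
    have n2 : 0 ≤ ∑ t ∈ Ico 1 (m + 1), ∑ i ∈ range t, (if E1 m z t i c then (1 : ℚ) else 0) :=
      sum_nonneg fun _ _ => sum_nonneg fun _ _ => nn _
    have n3 : 0 ≤ ∑ t ∈ Ico 1 T, ∑ l ∈ Ico 1 t, (if E2 m Λ z t l c then (1 : ℚ) else 0) :=
      sum_nonneg fun _ _ => sum_nonneg fun _ _ => nn _
    by_cases hE : E c
    · obtain ⟨t, a, ht, htT, ham, hma, hΛ, hsq⟩ := hcon c hc hE
      rcases Nat.lt_or_ge m (a + t) with h | h
      · have hE2 : E2 m Λ z t (a + t - m) c := by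
          refine ⟨by omega, by omega, by omega, by omega, ?_⟩
          intro r hr
          rw [show m - (t - (a + t - m)) = a by omega]
          exact hsq r hr
        have h1 : (1 : ℚ) ≤ ∑ t ∈ Ico 1 T, ∑ l ∈ Ico 1 t, (if E2 m Λ z t l c then (1 : ℚ) else 0) := by
          refine le_trans ?_ (single_le_sum (f := fun t => ∑ l ∈ Ico 1 t,
            (if E2 m Λ z t l c then (1 : ℚ) else 0)) (fun t _ => sum_nonneg fun _ _ => nn _)
            (mem_Ico.2 ⟨ht, htT⟩))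
          refine le_trans ?_ (single_le_sum (f := fun l => (if E2 m Λ z t l c then (1 : ℚ) else 0))
            (fun l _ => nn _) (mem_Ico.2 ⟨show 1 ≤ a + t - m by omega, by omega⟩))
          rw [if_pos hE2]
        linarith
      · have hE1 : E1 m z t (m - t - a) c := by
          refine ⟨by omega, by omega, ?_⟩
          intro r hr
          rw [show m - t - (m - t - a) = a by omega]
          exact hsq r hr
        have h1 : (1 : ℚ) ≤ ∑ t ∈ Ico 1 (m + 1), ∑ i ∈ range t, (if E1 m z t i c then (1 : ℚ) else 0) := by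
          refine le_trans ?_ (single_le_sum (f := fun t => ∑ i ∈ range t,
            (if E1 m z t i c then (1 : ℚ) else 0)) (fun t _ => sum_nonneg fun _ _ => nn _)
            (mem_Ico.2 ⟨ht, show t < m + 1 by omega⟩))
          refine le_trans ?_ (single_le_sum (f := fun i => (if E1 m z t i c then (1 : ℚ) else 0))
            (fun i _ => nn _) (mem_range.2 (show m - t - a < t by omega)))
          rw [if_pos hE1]
        linarith
    · rw [if_pos hE]; linarith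
  have hsum := sum_le_sum key
  rw [← N_eq, sum_add_distrib, sum_add_distrib] at hsum
  have s1 : ∑ c ∈ W ok ℒ m, ∑ t ∈ Ico 1 (m + 1), ∑ i ∈ range t, (if E1 m z t i c then (1 : ℚ) else 0) ≤
      Fc ok ℒ m (z 0) := by
    rw [sum_comm]
    unfold Fc
    refine sum_le_sum fun t _ => ?_
    rw [sum_comm]
    refine (sum_le_sum fun i _ => E1_bound hloc).trans ?_
    rw [sum_const, card_range, nsmul_eq_mul]
  have s2 : ∑ c ∈ W ok ℒ m, ∑ t ∈ Ico 1 T, ∑ l ∈ Ico 1 t, (if E2 m Λ z t l c then (1 : ℚ) else 0) ≤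
      Bc ok ℒ T m Λ z := by
    rw [sum_comm]
    unfold Bc
    refine sum_le_sum fun t _ => ?_
    rw [sum_comm]
    exact sum_le_sum fun i _ => E2_bound hloc
  linarith

end
end Pool.Agent.H401R3.SD.Wd
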