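import Pool.Agent.H401R3.SD.Close

set_option autoImplicit false

namespace Pool.Agent.H401R3.SD.Wd
open Finset
open scoped Classical
open Pool.Agent.H409R3.Sub (win)
open Pool.Agent.H378R3.ND hiding inj_bound

noncomputable section

variable {ok : ℕ → (ℕ → ℕ) → Prop} {ℒ : ℕ → Finset ℕ} {P : Par}

/-- facts about a family of words near its end -/
structure EndFacts (ok : ℕ → (ℕ → ℕ) → Prop) (ℒ : ℕ → Finset ℕ) (β ε : ℚ) (m D : ℕ) : Prop where
  loc : Local ok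
  pos : 0 < S ok ℒ m
  hN : ∀ d ≤ D, β ^ d * N ok ℒ (m - d) ≤ (1 + 3 / (11 * β)) * S ok ℒ m
  hA : ∑ t ∈ Ico 1 (m + 1), (t : ℚ) * N ok ℒ (m + 1 - t) ≤
    N ok ℒ m + ((1 + 3 / (11 * β)) * (β ^ 2 / (β - 1) ^ 2 - 1) + ε) * S ok ℒ m

/-- the plain families -/
theorem endFacts_val {β ε : ℚ} {M m D : ℕ} (hloc : Local ok) (hval : ∀ p c, ok p c → val P p c)
    (hβ : 1 < β) (hε : 0 ≤ ε) (hT : 3 ≤ P.T) (hm : 1 ≤ m) (hmM : m ≤ M) (hD : D ≤ m)
    (h : ∀ k < M, β * S ok ℒ k ≤ S ok ℒ (k + 1)) : EndFacts ok ℒ β ε m D where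
  loc := hloc
  pos := S_pos hβ h hmM
  hN := by
    intro d hd
    have h' : ∀ j < m, β * S ok ℒ j ≤ S ok ℒ (j + 1) := fun j hj => h j (by omega)
    have h1 := N_kap hloc hval hβ hT h' (j := m - d) (by omega)
    have h2 := pow_le hβ h' d (m - d) (by omega)
    rw [show m - d + d = m by omega] at h2
    have hβ0 : 0 < β := by linarith
    have h3 : 0 ≤ β ^ d := by positivity
    have h4 : 0 ≤ 1 + 3 / (11 * β) := by positivity
    calc β ^ d * N ok ℒ (m - d) ≤ β ^ d * ((1 + 3 / (11 * β)) * S ok ℒ (m - d)) :=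
          mul_le_mul_of_nonneg_left h1 h3
      _ = (1 + 3 / (11 * β)) * (β ^ d * S ok ℒ (m - d)) := by ring
      _ ≤ (1 + 3 / (11 * β)) * S ok ℒ m := mul_le_mul_of_nonneg_left h2 h4
  hA := by
    have h1 := sum_tN hloc hval hβ hT h hm hmM
    have h2 := S_nonneg (ok := ok) (ℒ := ℒ) m
    nlinarith

/-- cost of the recurrences at distance `t` -/
def gq (q : ℚ) (Λ : ℕ) (z : ℕ → ℕ) (t : ℕ) : ℚ :=
  ∑ l ∈ Ico 1 t, if t + l ≤ Λ ∧ Pre z t l then q ^ (t - l) else 0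

lemma Bc_le {β ε : ℚ} {m D T Λ : ℕ} {z : ℕ → ℕ} (hE : EndFacts ok ℒ β ε m D) (hβ : 0 < β) (hT : T ≤ D + 1) :
    Bc ok ℒ T m Λ z ≤ (1 + 3 / (11 * β)) * S ok ℒ m * ∑ t ∈ Ico 1 T, gq (1 / β) Λ z t := by
  unfold Bc gq
  rw [mul_sum]
  refine sum_le_sum fun t ht => ?_
  rw [mul_sum]
  refine sum_le_sum fun l hl => ?_
  rw [mem_Ico] at ht hl
  have hS := hE.pos
  have hκ : 0 ≤ (1 + 3 / (11 * β)) * S ok ℒ m := by positivity
  by_cases h : t + l ≤ Λ ∧ Pre z t l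
  · rw [if_pos h]
    have h1 := hE.hN (t - l) (by omega)
    have h2 : N ok ℒ (m - (t - l)) ≤ (1 + 3 / (11 * β)) * S ok ℒ m * (1 / β) ^ (t - l) := by
      rw [one_div, inv_pow, ← div_eq_mul_inv, le_div_iff₀ (by positivity)]
      linarith
    split_ifs
    · exact h2
    · positivity
  · rw [if_neg h, if_neg (fun hh => h ⟨hh.2.2.2.1, hh.2.2.2.2⟩), mul_zero]

lemma gq_nonneg {q : ℚ} (hq : 0 ≤ q) (Λ : ℕ) (z : ℕ → ℕ) (t : ℕ) : 0 ≤ gq q Λ z t :=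
  sum_nonneg fun _ _ => by split_ifs <;> positivity

lemma gq_le {q : ℚ} (hq : 0 ≤ q) {Λ : ℕ} {z : ℕ → ℕ} {t : ℕ} (K : ℕ) (hK1 : 1 ≤ K) (hKt : K ≤ t)
    (hK : ∀ l, K ≤ l → l < t → t + l ≤ Λ → ¬ Pre z t l) :
    gq q Λ z t ≤ ∑ l ∈ Ico 1 K, q ^ (t - l) := by
  unfold gq
  rw [← sum_Ico_consecutive _ hK1 hKt]
  have h2 : ∑ l ∈ Ico K t, (if t + l ≤ Λ ∧ Pre z t l then q ^ (t - l) else 0) = 0 := by
    apply sum_eq_zero
    intro l hl
    rw [mem_Ico] at hl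
    rw [if_neg]
    rintro ⟨h3, h4⟩
    exact hK l hl.1 hl.2 h3 h4
  rw [h2, add_zero]
  refine sum_le_sum fun l _ => ?_
  split_ifs
  · exact le_rfl
  · positivity

lemma geo {q : ℚ} (hq : 0 ≤ q) (hq1 : q < 1) (n : ℕ) : ∀ T, (1 - q) * ∑ t ∈ Ico n T, q ^ t ≤ q ^ n := by
  intro T
  rcases Nat.lt_or_ge T n with h | h
  · rw [Ico_eq_empty (by omega), sum_empty, mul_zero]; positivity
  · have : (1 - q) * ∑ t ∈ Ico n T, q ^ t = q ^ n - q ^ T := by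
      induction T, h using Nat.le_induction with
      | base => rw [Ico_self, sum_empty]; ring
      | succ T hT ih => rw [sum_Ico_succ_top hT, mul_add, ih]; ring
    rw [this]
    have : 0 ≤ q ^ T := by positivity
    linarith

lemma Pre.mono {z : ℕ → ℕ} {t l l' : ℕ} (h : Pre z t l) (hl : l' ≤ l) : Pre z t l' :=
  fun i hi => h i (by omega)

/-- conditions on the word on the other side (for the last closing) -/
structure ZX (z : ℕ → ℕ) (T : ℕ) : Prop where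
  a : ∀ t, 1 ≤ t → t ≤ 4 → z 0 ≠ z t
  b5 : ¬ Pre z 5 2
  b6 : ¬ Pre z 6 4
  b7 : ¬ Pre z 7 3
  ex : z 5 ≠ z 6
  c : ∀ t, 8 ≤ t → t < T → ¬ Pre z t 5

lemma sum_head (f : ℕ → ℚ) {T : ℕ} (hT : 8 ≤ T) : ∑ t ∈ Ico 1 T, f t =
    f 1 + f 2 + f 3 + f 4 + f 5 + f 6 + f 7 + ∑ t ∈ Ico 8 T, f t := by
  rw [← sum_Ico_consecutive f (show 1 ≤ 8 by norm_num) hT]
  simp [sum_Ico_succ_top]

lemma gx {q : ℚ} (hq : q = 25 / 61) {z : ℕ → ℕ} {Λ T : ℕ} (hz : ZX z T) (hT : 8 ≤ T) :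
    ∑ t ∈ Ico 1 T, gq q Λ z t ≤ 2037 / 10000 := by
  have hq0 : 0 ≤ q := by rw [hq]; norm_num
  have hq1 : q < 1 := by rw [hq]; norm_num
  rw [sum_head _ hT]
  have small : ∀ t, 1 ≤ t → (t ≤ 4 ∨ z 0 ≠ z t) → gq q Λ z t ≤ 0 := by
    intro t ht h
    refine (gq_le hq0 1 le_rfl ht ?_).trans (by simp)
    intro l hl hlt _ hp
    have h0 := hp 0 (by omega)
    rcases h with h | h
    · exact hz.a t ht h (by simpa using h0)
    · exact h (by simpa using h0)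
  have g1 := small 1 (by norm_num) (Or.inl (by norm_num))
  have g2 := small 2 (by norm_num) (Or.inl (by norm_num))
  have g3 := small 3 (by norm_num) (Or.inl (by norm_num))
  have g4 := small 4 (by norm_num) (Or.inl (by norm_num))
  have g5 : gq q Λ z 5 ≤ q ^ 4 := by
    refine (gq_le hq0 2 (by norm_num) (by norm_num) ?_).trans (by simp [sum_Ico_succ_top])
    intro l hl _ _ hp
    exact hz.b5 (hp.mono hl)
  have g6 : gq q Λ z 6 ≤ q ^ 5 + q ^ 4 + q ^ 3 := by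
    refine (gq_le hq0 4 (by norm_num) (by norm_num) ?_).trans (by simp [sum_Ico_succ_top])
    intro l hl _ _ hp
    exact hz.b6 (hp.mono hl)
  have g7 : gq q Λ z 7 ≤ q ^ 6 + q ^ 5 := by
    refine (gq_le hq0 3 (by norm_num) (by norm_num) ?_).trans (by simp [sum_Ico_succ_top])
    intro l hl _ _ hp
    exact hz.b7 (hp.mono hl)
  have g56 : gq q Λ z 5 + gq q Λ z 6 ≤ q ^ 5 + q ^ 4 + q ^ 3 := by
    by_cases h5 : z 0 = z 5
    · have h6 : z 0 ≠ z 6 := fun h => hz.ex (h5.symm.trans h)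
      have := small 6 (by norm_num) (Or.inr h6)
      have h7 : 0 ≤ q ^ 5 := by positivity
      have h8 : 0 ≤ q ^ 3 := by positivity
      linarith
    · have := small 5 (by norm_num) (Or.inr h5)
      linarith
  have g8 : ∑ t ∈ Ico 8 T, gq q Λ z t ≤ ∑ t ∈ Ico 8 T, (q ^ t * (1 / q + 1 / q ^ 2 + 1 / q ^ 3 + 1 / q ^ 4)) := by
    refine sum_le_sum fun t ht => ?_
    rw [mem_Ico] at ht
    refine (gq_le hq0 5 (by norm_num) (by omega) ?_).trans ?_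
    · intro l hl _ _ hp
      exact hz.c t ht.1 ht.2 (hp.mono hl)
    · have hqne : q ≠ 0 := by rw [hq]; norm_num
      obtain ⟨u, rfl⟩ : ∃ u, t = u + 4 := ⟨t - 4, by omega⟩
      have e : ∑ l ∈ Ico 1 5, q ^ (u + 4 - l) = q ^ (u + 3) + q ^ (u + 2) + q ^ (u + 1) + q ^ u := by
        simp [sum_Ico_succ_top, show u + 4 - 1 = u + 3 by omega, show u + 4 - 2 = u + 2 by omega,
          show u + 4 - 3 = u + 1 by omega]
      rw [e]
      apply le_of_eq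
      field_simp
      ring
  rw [← sum_mul] at g8
  have g9 := geo hq0 hq1 8 T
  have g10 : ∑ t ∈ Ico 8 T, q ^ t ≤ q ^ 8 / (1 - q) := by
    rw [le_div_iff₀ (by linarith)]; linarith
  have g11 : (∑ t ∈ Ico 8 T, q ^ t) * (1 / q + 1 / q ^ 2 + 1 / q ^ 3 + 1 / q ^ 4) ≤
      q ^ 8 / (1 - q) * (1 / q + 1 / q ^ 2 + 1 / q ^ 3 + 1 / q ^ 4) :=
    mul_le_mul_of_nonneg_right g10 (by positivity)
  have g12 : q ^ 5 + q ^ 4 + q ^ 3 + (q ^ 6 + q ^ 5) +
      q ^ 8 / (1 - q) * (1 / q + 1 / q ^ 2 + 1 / q ^ 3 + 1 / q ^ 4) ≤ 2037 / 10000 := by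
    rw [hq]; norm_num
  linarith

/-- conditions on the ten letters seen from the right -/
structure ZY (z : ℕ → ℕ) : Prop where
  a : ∀ t, 1 ≤ t → t ≤ 4 → z 0 ≠ z t
  b5 : ¬ Pre z 5 2
  b6 : ¬ Pre z 6 3
  e5 : z 5 ≠ z 6
  e7 : z 7 ≠ z 8

lemma gy {q : ℚ} (hq : q = 200 / 477) {z : ℕ → ℕ} {T : ℕ} (hz : ZY z) (hT : 10 ≤ T) :
    ∑ t ∈ Ico 1 T, gq q 10 z t ≤ 942 / 10000 := by
  have hq0 : 0 ≤ q := by rw [hq]; norm_num
  rw [sum_head _ (by omega)]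
  have small : ∀ t, 1 ≤ t → (t ≤ 4 ∨ z 0 ≠ z t ∨ 10 ≤ t) → gq q 10 z t ≤ 0 := by
    intro t ht h
    refine (gq_le hq0 1 le_rfl ht ?_).trans (by simp)
    intro l hl hlt hΛ hp
    have h0 := hp 0 (by omega)
    rcases h with h | h | h
    · exact hz.a t ht h (by simpa using h0)
    · exact h (by simpa using h0)
    · omega
  have g1 := small 1 (by norm_num) (Or.inl (by norm_num))
  have g2 := small 2 (by norm_num) (Or.inl (by norm_num))
  have g3 := small 3 (by norm_num) (Or.inl (by norm_num))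
  have g4 := small 4 (by norm_num) (Or.inl (by norm_num))
  have g5 : gq q 10 z 5 ≤ q ^ 4 := by
    refine (gq_le hq0 2 (by norm_num) (by norm_num) ?_).trans (by simp [sum_Ico_succ_top])
    intro l hl _ _ hp
    exact hz.b5 (hp.mono hl)
  have g6 : gq q 10 z 6 ≤ q ^ 5 + q ^ 4 := by
    refine (gq_le hq0 3 (by norm_num) (by norm_num) ?_).trans (by simp [sum_Ico_succ_top])
    intro l hl _ _ hp
    exact hz.b6 (hp.mono hl)
  have g7 : gq q 10 z 7 ≤ q ^ 6 + q ^ 5 + q ^ 4 := by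
    refine (gq_le hq0 4 (by norm_num) (by norm_num) ?_).trans (by simp [sum_Ico_succ_top])
    intro l hl _ hΛ hp
    omega
  have g8 : gq q 10 z 8 ≤ q ^ 7 + q ^ 6 := by
    refine (gq_le hq0 3 (by norm_num) (by norm_num) ?_).trans (by simp [sum_Ico_succ_top])
    intro l hl _ hΛ hp
    omega
  have g9 : gq q 10 z 9 ≤ q ^ 8 := by
    refine (gq_le hq0 2 (by norm_num) (by norm_num) ?_).trans (by simp [sum_Ico_succ_top])
    intro l hl _ hΛ hp
    omega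
  have g56 : gq q 10 z 5 + gq q 10 z 6 ≤ q ^ 5 + q ^ 4 := by
    by_cases h5 : z 0 = z 5
    · have h6 : z 0 ≠ z 6 := fun h => hz.e5 (h5.symm.trans h)
      have := small 6 (by norm_num) (Or.inr (Or.inl h6))
      have h7 : 0 ≤ q ^ 5 := by positivity
      linarith
    · have := small 5 (by norm_num) (Or.inr (Or.inl h5))
      linarith
  have g78 : gq q 10 z 7 + gq q 10 z 8 ≤ q ^ 6 + q ^ 5 + q ^ 4 := by
    by_cases h5 : z 0 = z 7
    · have h6 : z 0 ≠ z 8 := fun h => hz.e7 (h5.symm.trans h)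
      have := small 8 (by norm_num) (Or.inr (Or.inl h6))
      linarith
    · have h9 := small 7 (by norm_num) (Or.inr (Or.inl h5))
      have h7 : q ^ 7 ≤ q ^ 5 := by rw [hq]; norm_num
      have h8 : 0 ≤ q ^ 4 := by positivity
      linarith
  have g10 : ∑ t ∈ Ico 8 T, gq q 10 z t ≤ gq q 10 z 8 + gq q 10 z 9 := by
    rw [← sum_Ico_consecutive _ (show 8 ≤ 10 by norm_num) hT]
    have h1 : ∑ t ∈ Ico 10 T, gq q 10 z t ≤ 0 := by
      refine sum_nonpos fun t ht => ?_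
      rw [mem_Ico] at ht
      exact small t (by omega) (Or.inr (Or.inr ht.1))
    have h2 : ∑ t ∈ Ico 8 10, gq q 10 z t = gq q 10 z 8 + gq q 10 z 9 := by
      simp [sum_Ico_succ_top]
    linarith
  have g11 : q ^ 5 + q ^ 4 + (q ^ 6 + q ^ 5 + q ^ 4) + q ^ 8 ≤ 942 / 10000 := by
    rw [hq]; norm_num
  linarith

end
end Pool.Agent.H401R3.SD.Wd
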