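import Mathlib

set_option autoImplicit false

/-! The graph part of S12077: from a statement about words to nonrepetitively 4-choosable subdivisions. -/

namespace Pool.Agent.H401R3.SD

/-- leg words: `b = false` from the left end, `b = true` from the right end; positions `1, 2, ...` -/
def leg (N : ℕ) (w : ℕ → ℕ) (b : Bool) (s : ℕ) : ℕ := if b then w (N - s) else w (s - 1)

/-- the colour at the end of the edge where the leg starts -/
def ctr {m : ℕ} (al be : Fin m → ℕ) (e : Fin m) (b : Bool) : ℕ := if b then be e else al e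

/-- The four conditions on the edge words. -/
structure Good {m : ℕ} (N t1 s0 : ℕ) (al be : Fin m → ℕ) (w : Fin m → ℕ → ℕ) : Prop where
  sq : ∀ e k t, 0 < t → t < t1 → k + 2 * t ≤ N → ∃ i < t, w e (k + i) ≠ w e (k + t + i)
  uf : ∀ e e' k k', k + s0 ≤ N → k' + s0 ≤ N → (e ≠ e' ∨ k + s0 ≤ k' ∨ k' + s0 ≤ k) →
      ∃ i < s0, w e (k + i) ≠ w e' (k' + i)
  ub : ∀ e e' k k', k + s0 ≤ N → k' + s0 ≤ N → (e ≠ e' ∨ k + s0 ≤ k' ∨ k' + s0 ≤ k) →
      ∃ i < s0, w e (k + i) ≠ w e' (k' + (s0 - 1 - i))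
  star : ∀ e b e' b' t a, 1 ≤ a → a ≤ t → t < t1 →
      (a = 1 ∨ ((e, b) ≠ (e', b') ∧ ctr al be e b = ctr al be e' b')) →
      leg N (w e') b' t = ctr al be e' b' →
      (∀ s, 1 ≤ s → s < a → leg N (w e) b s = leg N (w e') b' (t - s)) →
      (∀ s, 1 ≤ s → s ≤ t - a → leg N (w e') b' s = leg N (w e') b' (t + s)) → False

/-- The word part. -/
def WordPart : Prop := ∀ m : ℕ, ∃ N t1 s0 : ℕ, 0 < s0 ∧ 4 * s0 ≤ t1 ∧ 2 * t1 ≤ N ∧
  ∀ (L : Fin m → ℕ → Finset ℕ), (∀ e k, 4 ≤ (L e k).card) → ∀ (al be : Fin m → ℕ),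
  ∃ w : Fin m → ℕ → ℕ, (∀ e k, k < N → w e k ∈ L e k) ∧ Good N t1 s0 al be w

section graph
variable {V : Type} {m N : ℕ}

/-- the generating relation of the subdivision -/
def rel (lft rgt : Fin m → V) : V ⊕ (Fin m × Fin N) → V ⊕ (Fin m × Fin N) → Prop
  | Sum.inl u, Sum.inr (e, k) => (lft e = u ∧ k.1 = 0) ∨ (rgt e = u ∧ k.1 + 1 = N)
  | Sum.inr (e, k), Sum.inr (e', k') => e = e' ∧ k.1 + 1 = k'.1
  | _, _ => False

/-- the subdivision -/
def HH (lft rgt : Fin m → V) : SimpleGraph (V ⊕ (Fin m × Fin N)) := SimpleGraph.fromRel (rel lft rgt)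

variable {lft rgt : Fin m → V}

theorem adj_ll {u v : V} : ¬ (HH (N := N) lft rgt).Adj (Sum.inl u) (Sum.inl v) := by
  simp [HH, SimpleGraph.fromRel_adj, rel]

theorem adj_lr {v : V} {e : Fin m} {k : Fin N} :
    (HH (N := N) lft rgt).Adj (Sum.inl v) (Sum.inr (e, k)) ↔
      (lft e = v ∧ k.1 = 0) ∨ (rgt e = v ∧ k.1 + 1 = N) := by
  simp [HH, SimpleGraph.fromRel_adj, rel]

theorem adj_rr {e e' : Fin m} {k k' : Fin N} :
    (HH (N := N) lft rgt).Adj (Sum.inr (e, k)) (Sum.inr (e', k')) ↔
      e = e' ∧ (k.1 + 1 = k'.1 ∨ k'.1 + 1 = k.1) := by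
  simp only [HH, SimpleGraph.fromRel_adj, rel]
  constructor
  · rintro ⟨_, ⟨h1, h2⟩ | ⟨h1, h2⟩⟩
    · exact ⟨h1, Or.inl h2⟩
    · exact ⟨h1.symm, Or.inr h2⟩
  · rintro ⟨rfl, h | h⟩
    · refine ⟨?_, Or.inl ⟨rfl, h⟩⟩
      intro hh
      simp only [Sum.inr.injEq, Prod.mk.injEq, true_and] at hh
      subst hh; omega
    · refine ⟨?_, Or.inr ⟨rfl, h⟩⟩
      intro hh
      simp only [Sum.inr.injEq, Prod.mk.injEq, true_and] at hh
      subst hh; omega

/-- `x` is the interior vertex number `k` of the edge `e` -/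
def At (x : V ⊕ (Fin m × Fin N)) (e : Fin m) (k : ℕ) : Prop := ∃ h : k < N, x = Sum.inr (e, ⟨k, h⟩)

theorem At.inj {x : V ⊕ (Fin m × Fin N)} {e e' : Fin m} {k k' : ℕ} (h : At x e k) (h' : At x e' k') :
    e = e' ∧ k = k' := by
  obtain ⟨h1, rfl⟩ := h
  obtain ⟨h2, h3⟩ := h'
  simp only [Sum.inr.injEq, Prod.mk.injEq, Fin.mk.injEq] at h3
  exact h3

theorem At.eq {x y : V ⊕ (Fin m × Fin N)} {e : Fin m} {k : ℕ} (h : At x e k) (h' : At y e k) :
    x = y := by
  obtain ⟨h1, rfl⟩ := h
  obtain ⟨h2, rfl⟩ := h'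
  rfl

theorem At.lt {x : V ⊕ (Fin m × Fin N)} {e : Fin m} {k : ℕ} (h : At x e k) : k < N := h.1

theorem At.adj {x y : V ⊕ (Fin m × Fin N)} {e e' : Fin m} {k k' : ℕ} (h : At x e k) (h' : At y e' k')
    (ha : (HH (N := N) lft rgt).Adj x y) : e = e' ∧ (k + 1 = k' ∨ k' + 1 = k) := by
  obtain ⟨h1, rfl⟩ := h
  obtain ⟨h2, rfl⟩ := h'
  exact adj_rr.1 ha

theorem At.adj_l {v : V} {y : V ⊕ (Fin m × Fin N)} {e' : Fin m} {k' : ℕ} (h' : At y e' k')
    (ha : (HH (N := N) lft rgt).Adj (Sum.inl v) y) :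
    (lft e' = v ∧ k' = 0) ∨ (rgt e' = v ∧ k' + 1 = N) := by
  obtain ⟨h2, rfl⟩ := h'
  exact adj_lr.1 ha

theorem exists_at {x : V ⊕ (Fin m × Fin N)} (h : ∀ v, x ≠ Sum.inl v) : ∃ e k, At x e k := by
  rcases x with v | ⟨e, k⟩
  · exact absurd rfl (h v)
  · exact ⟨e, k.1, k.2, rfl⟩

/-- straight segments: interior vertices `x a, ..., x (a + r)` of a path lie on one edge,
in order or in reversed order -/
theorem straight {x : ℕ → V ⊕ (Fin m × Fin N)} {M : ℕ}
    (hadj : ∀ i, i + 1 < M → (HH (N := N) lft rgt).Adj (x i) (x (i + 1)))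
    (hinj : ∀ i j, i < M → j < M → x i = x j → i = j) (a : ℕ) : ∀ r : ℕ, a + r < M →
    (∀ i, i ≤ r → ∀ v, x (a + i) ≠ Sum.inl v) →
    ∃ e k0, (∀ i, i ≤ r → At (x (a + i)) e (k0 + i)) ∨ (∀ i, i ≤ r → At (x (a + i)) e (k0 + (r - i))) := by
  intro r
  induction r with
  | zero =>
    intro _ h
    obtain ⟨e, k, hk⟩ := exists_at (h 0 le_rfl)
    refine ⟨e, k, Or.inl ?_⟩
    intro i hi
    obtain rfl : i = 0 := by omega
    simpa using hk
  | succ r ih =>
    intro hr h
    obtain ⟨e, k0, h1⟩ := ih (by omega) (fun i hi v => h i (by omega) v)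
    obtain ⟨e', k', hk'⟩ := exists_at (h (r + 1) le_rfl)
    have hA := hadj (a + r) (by omega)
    rcases h1 with h1 | h1
    · -- increasing so far
      obtain ⟨h2, h3⟩ := (h1 r le_rfl).adj hk' hA
      subst h2
      rcases h3 with h3 | h3
      · refine ⟨e, k0, Or.inl ?_⟩
        intro i hi
        rcases Nat.lt_or_ge i (r + 1) with hlt | hge
        · exact h1 i (by omega)
        · obtain rfl : i = r + 1 := by omega
          have : k0 + (r + 1) = k' := by omega
          rw [this]; exact hk'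
      · -- turning back: only possible if r = 0
        rcases Nat.eq_zero_or_pos r with rfl | hpos
        · refine ⟨e, k', Or.inr ?_⟩
          intro i hi
          rcases Nat.lt_or_ge i 1 with hlt | hge
          · obtain rfl : i = 0 := by omega
            have : k' + (0 + 1 - 0) = k0 + 0 := by omega
            rw [this]; exact h1 0 le_rfl
          · obtain rfl : i = 1 := by omega
            simpa using hk'
        · exfalso
          have h4 := h1 (r - 1) (by omega)
          have h5 : k0 + (r - 1) = k' := by omega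
          rw [h5] at h4
          have h6 := h4.eq hk'
          have := hinj _ _ (by omega) (by omega) h6
          omega
    · obtain ⟨h2, h3⟩ := (h1 r le_rfl).adj hk' hA
      subst h2
      rcases h3 with h3 | h3
      · -- turning
        rcases Nat.eq_zero_or_pos r with rfl | hpos
        · refine ⟨e, k0, Or.inl ?_⟩
          intro i hi
          rcases Nat.lt_or_ge i 1 with hlt | hge
          · obtain rfl : i = 0 := by omega
            simpa using h1 0 le_rfl
          · obtain rfl : i = 1 := by omega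
            have : k0 + 1 = k' := by omega
            rw [this]; simpa using hk'
        · exfalso
          have h4 := h1 (r - 1) (by omega)
          have h5 : k0 + (r - (r - 1)) = k' := by omega
          rw [h5] at h4
          have h6 := h4.eq hk'
          have := hinj _ _ (by omega) (by omega) h6
          omega
      · refine ⟨e, k', Or.inr ?_⟩
        intro i hi
        rcases Nat.lt_or_ge i (r + 1) with hlt | hge
        · have h4 := h1 i (by omega)
          have : k' + (r + 1 - i) = k0 + (r - i) := by omega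
          rw [this]; exact h4
        · obtain rfl : i = r + 1 := by omega
          simpa using hk'

/-- the endpoint of a leg -/
def ctV (lft rgt : Fin m → V) (e : Fin m) (b : Bool) : V := if b then rgt e else lft e

/-- position `s` of the leg `(e, b)` -/
def pos (N : ℕ) (b : Bool) (s : ℕ) : ℕ := if b then N - s else s - 1

/-- the vertices following a branch vertex form a leg -/
theorem leg_right {x : ℕ → V ⊕ (Fin m × Fin N)} {M : ℕ} (hN : 2 ≤ N)
    (hadj : ∀ i, i + 1 < M → (HH (N := N) lft rgt).Adj (x i) (x (i + 1)))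
    (hinj : ∀ i j, i < M → j < M → x i = x j → i = j) {a : ℕ} {v : V} (hv : x a = Sum.inl v)
    {r : ℕ} (hr : 1 ≤ r) (har : a + r < M)
    (h : ∀ i, 1 ≤ i → i ≤ r → ∀ u, x (a + i) ≠ Sum.inl u) :
    ∃ e b, ctV lft rgt e b = v ∧ r ≤ N ∧ ∀ s, 1 ≤ s → s ≤ r → At (x (a + s)) e (pos N b s) := by
  obtain ⟨e, k0, h1⟩ := straight hadj hinj (a + 1) (r - 1) (by omega)
    (fun i hi u => by
      have := h (i + 1) (by omega) (by omega) u
      rwa [show a + (i + 1) = a + 1 + i by ring] at this)
  have hA := hadj a (by omega)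
  rw [hv] at hA
  rcases h1 with h1 | h1
  · have h2 := h1 0 (by omega)
    rw [show a + 1 + 0 = a + 1 by ring] at h2
    have hlast := (h1 (r - 1) le_rfl).lt
    rcases h2.adj_l hA with ⟨h3, h4⟩ | ⟨h3, h4⟩
    · refine ⟨e, false, by simpa [ctV] using h3, by omega, ?_⟩
      intro s hs hs'
      have h5 := h1 (s - 1) (by omega)
      rw [show a + 1 + (s - 1) = a + s by omega, show k0 + (s - 1) = s - 1 by omega] at h5
      simpa [pos] using h5
    · have hr1 : r = 1 := by omega
      refine ⟨e, true, by simpa [ctV] using h3, by omega, ?_⟩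
      intro s hs hs'
      have h5 := h1 (s - 1) (by omega)
      rw [show a + 1 + (s - 1) = a + s by omega, show k0 + (s - 1) = N - s by omega] at h5
      simpa [pos] using h5
  · have h2 := h1 0 (by omega)
    rw [show a + 1 + 0 = a + 1 by ring] at h2
    have h2lt := h2.lt
    rcases h2.adj_l hA with ⟨h3, h4⟩ | ⟨h3, h4⟩
    · have hr1 : r = 1 := by omega
      refine ⟨e, false, by simpa [ctV] using h3, by omega, ?_⟩
      intro s hs hs'
      have h5 := h1 (s - 1) (by omega)
      rw [show a + 1 + (s - 1) = a + s by omega, show k0 + (r - 1 - (s - 1)) = s - 1 by omega] at h5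
      simpa [pos] using h5
    · refine ⟨e, true, by simpa [ctV] using h3, by omega, ?_⟩
      intro s hs hs'
      have h5 := h1 (s - 1) (by omega)
      rw [show a + 1 + (s - 1) = a + s by omega, show k0 + (r - 1 - (s - 1)) = N - s by omega] at h5
      simpa [pos] using h5

/-- branch vertices on a path are far apart -/
theorem branch_far {x : ℕ → V ⊕ (Fin m × Fin N)} {M : ℕ} (hN : 2 ≤ N)
    (hadj : ∀ i, i + 1 < M → (HH (N := N) lft rgt).Adj (x i) (x (i + 1)))
    (hinj : ∀ i j, i < M → j < M → x i = x j → i = j) {a : ℕ} {v : V} (hv : x a = Sum.inl v) :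
    ∀ d : ℕ, 1 ≤ d → d ≤ N → a + d < M → ∀ u, x (a + d) ≠ Sum.inl u := by
  intro d
  induction d using Nat.strong_induction_on with
  | _ d ih =>
    intro hd hdN hM u hu
    have hbefore : ∀ i, 1 ≤ i → i ≤ d - 1 → ∀ u, x (a + i) ≠ Sum.inl u :=
      fun i hi hi' u => ih i (by omega) hi (by omega) (by omega) u
    rcases Nat.lt_or_ge d 2 with h2 | h2
    · obtain rfl : d = 1 := by omega
      have hA := hadj a (by omega)
      rw [hv, hu] at hA
      exact adj_ll hA
    · obtain ⟨e, b, hb, hle, hAt⟩ := leg_right hN hadj hinj hv (r := d - 1) (by omega) (by omega) hbefore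
      have h3 := hAt (d - 1) (by omega) le_rfl
      have hA := (hadj (a + (d - 1)) (by omega)).symm
      rw [show a + (d - 1) + 1 = a + d by omega, hu] at hA
      have hne : u ≠ v := by
        intro h
        rw [h, ← hv] at hu
        have := hinj _ _ hM (by omega) hu
        omega
      rcases h3.adj_l hA with ⟨h4, h5⟩ | ⟨h4, h5⟩
      · cases b with
        | false => simp [ctV] at hb; exact hne (h4 ▸ hb ▸ rfl)
        | true => simp [pos] at h5; omega
      · cases b with
        | false => simp [pos] at h5; omega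
        | true => simp [ctV] at hb; exact hne (h4 ▸ hb ▸ rfl)

/-- the colouring -/
def colr (col : V → ℕ) (w : Fin m → ℕ → ℕ) : V ⊕ (Fin m × Fin N) → ℕ :=
  Sum.elim col (fun p => w p.1 p.2.1)

theorem colr_at {col : V → ℕ} {w : Fin m → ℕ → ℕ} {x : V ⊕ (Fin m × Fin N)} {e : Fin m} {k : ℕ}
    (h : At x e k) : colr col w x = w e k := by
  obtain ⟨h1, rfl⟩ := h
  rfl

theorem colr_inl {col : V → ℕ} {w : Fin m → ℕ → ℕ} {v : V} :
    colr (m := m) (N := N) col w (Sum.inl v) = col v := rfl

theorem leg_pos {w : ℕ → ℕ} {b : Bool} {s : ℕ} : leg N w b s = w (pos N b s) := by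
  cases b <;> simp [leg, pos]

theorem ctr_ctV {col : V → ℕ} {e : Fin m} {b : Bool} :
    ctr (fun e => col (lft e)) (fun e => col (rgt e)) e b = col (ctV lft rgt e b) := by
  cases b <;> simp [ctr, ctV]

/-- reversing a path -/
theorem rev_adj {x : ℕ → V ⊕ (Fin m × Fin N)} {M : ℕ}
    (hadj : ∀ i, i + 1 < M → (HH (N := N) lft rgt).Adj (x i) (x (i + 1))) :
    ∀ i, i + 1 < M → (HH (N := N) lft rgt).Adj (x (M - 1 - i)) (x (M - 1 - (i + 1))) := by
  intro i hi
  have := (hadj (M - 1 - (i + 1)) (by omega)).symm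
  rwa [show M - 1 - (i + 1) + 1 = M - 1 - i by omega] at this

theorem rev_inj {x : ℕ → V ⊕ (Fin m × Fin N)} {M : ℕ}
    (hinj : ∀ i j, i < M → j < M → x i = x j → i = j) :
    ∀ i j, i < M → j < M → x (M - 1 - i) = x (M - 1 - j) → i = j := by
  intro i j hi hj h
  have := hinj _ _ (by omega) (by omega) h
  omega

/-- no short square with a branch vertex in its first half -/
theorem short_left {t1 s0 : ℕ} {col : V → ℕ} {w : Fin m → ℕ → ℕ}
    (hg : Good N t1 s0 (fun e => col (lft e)) (fun e => col (rgt e)) w) (hN : 2 * t1 ≤ N)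
    {x : ℕ → V ⊕ (Fin m × Fin N)} {t : ℕ} (ht : 0 < t) (ht1 : t < t1)
    (hadj : ∀ i, i + 1 < 2 * t → (HH (N := N) lft rgt).Adj (x i) (x (i + 1)))
    (hinj : ∀ i j, i < 2 * t → j < 2 * t → x i = x j → i = j)
    {b0 : ℕ} (hb0 : b0 < t) {v : V} (hv : x b0 = Sum.inl v)
    (heq : ∀ i, i < t → colr col w (x i) = colr col w (x (i + t))) : False := by
  have hN2 : 2 ≤ N := by omega
  have hnb : ∀ i, b0 < i → i < 2 * t → ∀ u, x i ≠ Sum.inl u := by
    intro i hi hi' u
    have := branch_far hN2 hadj hinj hv (i - b0) (by omega) (by omega) (by omega) u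
    rwa [show b0 + (i - b0) = i by omega] at this
  have hnb' : ∀ i, i < b0 → ∀ u, x i ≠ Sum.inl u := by
    intro i hi u hu
    have := branch_far hN2 hadj hinj hu (b0 - i) (by omega) (by omega) (by omega) v
    rw [show i + (b0 - i) = b0 by omega] at this
    exact this hv
  obtain ⟨e', b', hb', _, hQ⟩ := leg_right hN2 hadj hinj hv (r := 2 * t - 1 - b0) (by omega) (by omega)
    (fun i hi hi' u => hnb (b0 + i) (by omega) (by omega) u)
  have hcv : ctr (fun e => col (lft e)) (fun e => col (rgt e)) e' b' = col v := by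
    rw [ctr_ctV, hb']
  have hQc : ∀ s, 1 ≤ s → s ≤ 2 * t - 1 - b0 → colr col w (x (b0 + s)) = leg N (w e') b' s := by
    intro s hs hs'
    rw [colr_at (hQ s hs hs'), leg_pos]
  have hc1 : leg N (w e') b' t = ctr (fun e => col (lft e)) (fun e => col (rgt e)) e' b' := by
    rw [hcv, ← hQc t (by omega) (by omega), ← heq b0 hb0, hv, colr_inl]
  have hc3 : ∀ s, 1 ≤ s → s ≤ t - (b0 + 1) → leg N (w e') b' s = leg N (w e') b' (t + s) := by
    intro s hs hs'
    rw [← hQc s hs (by omega), ← hQc (t + s) (by omega) (by omega), heq (b0 + s) (by omega)]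
    congr 2
    ring
  rcases Nat.eq_zero_or_pos b0 with h0 | hpos
  · refine hg.star e' b' e' b' t (b0 + 1) (by omega) (by omega) ht1 (Or.inl (by omega)) hc1 ?_ hc3
    intro s hs hs'
    omega
  · obtain ⟨e, b, hb, _, hP⟩ := leg_right (x := fun i => x (2 * t - 1 - i)) (M := 2 * t) hN2
      (rev_adj hadj) (rev_inj hinj) (a := 2 * t - 1 - b0) (v := v)
      (by
        show x (2 * t - 1 - (2 * t - 1 - b0)) = _
        rw [show 2 * t - 1 - (2 * t - 1 - b0) = b0 by omega]; exact hv) (r := b0) hpos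
      (by omega)
      (fun i hi hi' u => by
        show x (2 * t - 1 - (2 * t - 1 - b0 + i)) ≠ _
        rw [show 2 * t - 1 - (2 * t - 1 - b0 + i) = b0 - i by omega]
        exact hnb' (b0 - i) (by omega) u)
    have hP' : ∀ s, 1 ≤ s → s ≤ b0 → At (x (b0 - s)) e (pos N b s) := by
      intro s hs hs'
      have := hP s hs hs'
      change At (x (2 * t - 1 - (2 * t - 1 - b0 + s))) e (pos N b s) at this
      rwa [show 2 * t - 1 - (2 * t - 1 - b0 + s) = b0 - s by omega] at this
    have hPc : ∀ s, 1 ≤ s → s ≤ b0 → colr col w (x (b0 - s)) = leg N (w e) b s := by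
      intro s hs hs'
      rw [colr_at (hP' s hs hs'), leg_pos]
    refine hg.star e b e' b' t (b0 + 1) (by omega) (by omega) ht1 (Or.inr ⟨?_, ?_⟩) hc1 ?_ hc3
    · intro h
      simp only [Prod.mk.injEq] at h
      obtain ⟨rfl, rfl⟩ := h
      have h1 := (hP' 1 le_rfl hpos).eq (hQ 1 le_rfl (by omega))
      have := hinj _ _ (by omega) (by omega) h1
      omega
    · rw [hcv, ctr_ctV, hb]
    · intro s hs hs'
      rw [← hPc s hs (by omega), ← hQc (t - s) (by omega) (by omega), heq (b0 - s) (by omega)]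
      congr 2
      omega

/-- no short square -/
theorem short {t1 s0 : ℕ} {col : V → ℕ} {w : Fin m → ℕ → ℕ}
    (hg : Good N t1 s0 (fun e => col (lft e)) (fun e => col (rgt e)) w) (hN : 2 * t1 ≤ N)
    {x : ℕ → V ⊕ (Fin m × Fin N)} {t : ℕ} (ht : 0 < t) (ht1 : t < t1)
    (hadj : ∀ i, i + 1 < 2 * t → (HH (N := N) lft rgt).Adj (x i) (x (i + 1)))
    (hinj : ∀ i j, i < 2 * t → j < 2 * t → x i = x j → i = j)
    (heq : ∀ i, i < t → colr col w (x i) = colr col w (x (i + t))) : False := by
  by_cases hbr : ∃ b0, b0 < 2 * t ∧ ∃ v, x b0 = Sum.inl v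
  · obtain ⟨b0, hb0, v, hv⟩ := hbr
    rcases Nat.lt_or_ge b0 t with h | h
    · exact short_left hg hN ht ht1 hadj hinj h hv heq
    · refine short_left hg hN ht ht1 (x := fun i => x (2 * t - 1 - i)) (rev_adj hadj) (rev_inj hinj)
        (b0 := 2 * t - 1 - b0) (by omega) (v := v) ?_ ?_
      · show x (2 * t - 1 - (2 * t - 1 - b0)) = _
        rw [show 2 * t - 1 - (2 * t - 1 - b0) = b0 by omega]; exact hv
      · intro i hi
        show colr col w (x (2 * t - 1 - i)) = colr col w (x (2 * t - 1 - (i + t)))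
        have := heq (t - 1 - i) (by omega)
        rw [show t - 1 - i + t = 2 * t - 1 - i by omega] at this
        rw [show 2 * t - 1 - (i + t) = t - 1 - i by omega]
        exact this.symm
  · push Not at hbr
    obtain ⟨e, k0, h1 | h1⟩ := straight hadj hinj 0 (2 * t - 1) (by omega)
      (fun i hi v => by rw [Nat.zero_add]; exact hbr i (by omega) v)
    · have hlt := (h1 (2 * t - 1) le_rfl).lt
      obtain ⟨i, hi, hne⟩ := hg.sq e k0 t ht ht1 (by omega)
      apply hne
      have h2 := colr_at (col := col) (w := w) (h1 i (by omega))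
      have h3 := colr_at (col := col) (w := w) (h1 (i + t) (by omega))
      rw [Nat.zero_add] at h2 h3
      rw [← h2, heq i hi, h3]
      congr 1
      ring
    · have hlt := (h1 0 (by omega)).lt
      obtain ⟨i, hi, hne⟩ := hg.sq e k0 t ht ht1 (by omega)
      apply hne
      have h2 := colr_at (col := col) (w := w) (h1 (t - 1 - i) (by omega))
      have h3 := colr_at (col := col) (w := w) (h1 (t - 1 - i + t) (by omega))
      rw [Nat.zero_add] at h2 h3
      have h4 := heq (t - 1 - i) (by omega)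
      rw [h2, h3] at h4
      rw [show k0 + (2 * t - 1 - (t - 1 - i)) = k0 + t + i by omega,
        show k0 + (2 * t - 1 - (t - 1 - i + t)) = k0 + i by omega] at h4
      exact h4.symm

/-- no long square -/
theorem long {t1 s0 : ℕ} {col : V → ℕ} {w : Fin m → ℕ → ℕ}
    (hg : Good N t1 s0 (fun e => col (lft e)) (fun e => col (rgt e)) w) (hN : 2 * t1 ≤ N)
    (hs0 : 0 < s0) (hst : 4 * s0 ≤ t1)
    {x : ℕ → V ⊕ (Fin m × Fin N)} {t : ℕ} (ht1 : t1 ≤ t)
    (hadj : ∀ i, i + 1 < 2 * t → (HH (N := N) lft rgt).Adj (x i) (x (i + 1)))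
    (hinj : ∀ i j, i < 2 * t → j < 2 * t → x i = x j → i = j)
    (heq : ∀ i, i < t → colr col w (x i) = colr col w (x (i + t))) : False := by
  have hN2 : 2 ≤ N := by omega
  -- at most one hit in a stretch
  have hone : ∀ a, a + 3 * s0 ≤ 2 * t → ∀ i j, i < j → j < 3 * s0 → ∀ u v, x (a + i) = Sum.inl u →
      x (a + j) = Sum.inl v → False := by
    intro a ha i j hij hj u v hu hv
    have := branch_far hN2 hadj hinj hu (j - i) (by omega) (by omega) (by omega) v
    rw [show a + i + (j - i) = a + j by omega] at this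
    exact this hv
  have hwin : ∃ j, j < 3 ∧ (∀ i, i < s0 → ∀ u, x (j * s0 + i) ≠ Sum.inl u) ∧
      (∀ i, i < s0 → ∀ u, x (t + j * s0 + i) ≠ Sum.inl u) := by
    have two : ∀ a, a + 3 * s0 ≤ 2 * t → ∀ j j', j < j' → j' < 3 →
        (∃ i, i < s0 ∧ ∃ u, x (a + j * s0 + i) = Sum.inl u) →
        (∃ i, i < s0 ∧ ∃ u, x (a + j' * s0 + i) = Sum.inl u) → False := by
      rintro a ha j j' hjj hj' ⟨i, hi, u, hu⟩ ⟨i', hi', u', hu'⟩
      have h1 : (j + 1) * s0 ≤ j' * s0 := Nat.mul_le_mul_right _ hjj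
      have h2 : (j' + 1) * s0 ≤ 3 * s0 := Nat.mul_le_mul_right _ hj'
      rw [Nat.add_mul] at h1 h2
      rw [Nat.add_assoc] at hu hu'
      exact hone a ha (j * s0 + i) (j' * s0 + i') (by omega) (by omega) u u' hu hu'
    by_contra hcon
    push Not at hcon
    have key : ∀ j, j < 3 → (∃ i, i < s0 ∧ ∃ u, x (0 + j * s0 + i) = Sum.inl u) ∨
        (∃ i, i < s0 ∧ ∃ u, x (t + j * s0 + i) = Sum.inl u) := by
      intro j hj
      by_cases h : ∀ i, i < s0 → ∀ u, x (j * s0 + i) ≠ Sum.inl u
      · right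
        exact hcon j hj h
      · left
        push Not at h
        simpa using h
    have hA := two 0 (by omega)
    have hB := two t (by omega)
    rcases key 0 (by omega) with h0 | h0 <;> rcases key 1 (by omega) with h1 | h1 <;>
      rcases key 2 (by omega) with h2 | h2
    · exact hA 0 1 (by omega) (by omega) h0 h1
    · exact hA 0 1 (by omega) (by omega) h0 h1
    · exact hA 0 2 (by omega) (by omega) h0 h2
    · exact hB 1 2 (by omega) (by omega) h1 h2
    · exact hA 1 2 (by omega) (by omega) h1 h2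
    · exact hB 0 2 (by omega) (by omega) h0 h2
    · exact hB 0 1 (by omega) (by omega) h0 h1
    · exact hB 0 1 (by omega) (by omega) h0 h1
  obtain ⟨j, hj, hj1, hj2⟩ := hwin
  have hjs : j * s0 ≤ 2 * s0 := Nat.mul_le_mul_right _ (by omega)
  obtain ⟨e, k0, h1⟩ := straight hadj hinj (j * s0) (s0 - 1) (by omega) (fun i hi => hj1 i (by omega))
  obtain ⟨e', k0', h2⟩ := straight hadj hinj (t + j * s0) (s0 - 1) (by omega)
    (fun i hi => hj2 i (by omega))
  have hk0 : k0 + s0 ≤ N := by
    rcases h1 with h1 | h1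
    · have := (h1 (s0 - 1) le_rfl).lt; omega
    · have := (h1 0 (by omega)).lt; omega
  have hk0' : k0' + s0 ≤ N := by
    rcases h2 with h2 | h2
    · have := (h2 (s0 - 1) le_rfl).lt; omega
    · have := (h2 0 (by omega)).lt; omega
  have hdis : e ≠ e' ∨ k0 + s0 ≤ k0' ∨ k0' + s0 ≤ k0 := by
    by_contra hcon
    push Not at hcon
    obtain ⟨hee, h3, h4⟩ := hcon
    subst hee
    set k := max k0 k0' with hk
    have hk1 : k0 ≤ k := le_max_left _ _
    have hk2 : k0' ≤ k := le_max_right _ _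
    have hk3 : k < k0 + s0 := by rw [hk]; exact max_lt (by omega) h3
    have hk4 : k < k0' + s0 := by rw [hk]; exact max_lt h4 (by omega)
    have ha : ∃ i, i < s0 ∧ At (x (j * s0 + i)) e k := by
      rcases h1 with h1 | h1
      · refine ⟨k - k0, by omega, ?_⟩
        have := h1 (k - k0) (by omega)
        rwa [show k0 + (k - k0) = k by omega] at this
      · refine ⟨s0 - 1 - (k - k0), by omega, ?_⟩
        have := h1 (s0 - 1 - (k - k0)) (by omega)
        rwa [show k0 + (s0 - 1 - (s0 - 1 - (k - k0))) = k by omega] at this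
    have hb : ∃ i, i < s0 ∧ At (x (t + j * s0 + i)) e k := by
      rcases h2 with h2 | h2
      · refine ⟨k - k0', by omega, ?_⟩
        have := h2 (k - k0') (by omega)
        rwa [show k0' + (k - k0') = k by omega] at this
      · refine ⟨s0 - 1 - (k - k0'), by omega, ?_⟩
        have := h2 (s0 - 1 - (k - k0')) (by omega)
        rwa [show k0' + (s0 - 1 - (s0 - 1 - (k - k0'))) = k by omega] at this
    obtain ⟨i, hi, hi2⟩ := ha
    obtain ⟨i', hi', hi2'⟩ := hb
    have := hinj _ _ (by omega) (by omega) (hi2.eq hi2')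
    omega
  have hE : ∀ i, i < s0 → colr col w (x (j * s0 + i)) = colr col w (x (t + j * s0 + i)) := by
    intro i hi
    have := heq (j * s0 + i) (by omega)
    rwa [show j * s0 + i + t = t + j * s0 + i by ring] at this
  rcases h1 with h1 | h1 <;> rcases h2 with h2 | h2
  · obtain ⟨i, hi, hne⟩ := hg.uf e e' k0 k0' hk0 hk0' hdis
    apply hne
    have := hE i hi
    rwa [colr_at (h1 i (by omega)), colr_at (h2 i (by omega))] at this
  · obtain ⟨i, hi, hne⟩ := hg.ub e e' k0 k0' hk0 hk0' hdis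
    apply hne
    have := hE i hi
    rwa [colr_at (h1 i (by omega)), colr_at (h2 i (by omega))] at this
  · obtain ⟨i, hi, hne⟩ := hg.ub e e' k0 k0' hk0 hk0' hdis
    apply hne
    have := hE (s0 - 1 - i) (by omega)
    rw [colr_at (h1 (s0 - 1 - i) (by omega)), colr_at (h2 (s0 - 1 - i) (by omega))] at this
    rwa [show s0 - 1 - (s0 - 1 - i) = i by omega] at this
  · obtain ⟨i, hi, hne⟩ := hg.uf e e' k0 k0' hk0 hk0' hdis
    apply hne
    have := hE (s0 - 1 - i) (by omega)
    rw [colr_at (h1 (s0 - 1 - i) (by omega)), colr_at (h2 (s0 - 1 - i) (by omega))] at this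
    rwa [show s0 - 1 - (s0 - 1 - i) = i by omega] at this

/-- the path of the edge `e` -/
def gp (lft rgt : Fin m → V) (N : ℕ) (e : Fin m) (i : ℕ) : V ⊕ (Fin m × Fin N) :=
  if i = 0 then Sum.inl (lft e)
  else if h : i - 1 < N then Sum.inr (e, ⟨i - 1, h⟩) else Sum.inl (rgt e)

theorem gp_zero (e : Fin m) : gp lft rgt N e 0 = Sum.inl (lft e) := by simp [gp]

theorem gp_last (e : Fin m) : gp lft rgt N e (N + 1) = Sum.inl (rgt e) := by simp [gp]

theorem gp_mid (e : Fin m) {i : ℕ} (h : i < N) : gp lft rgt N e (i + 1) = Sum.inr (e, ⟨i, h⟩) := by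
  simp [gp, h]

theorem gp_adj (hN : 0 < N) (e : Fin m) {i : ℕ} (hi : i < N + 1) :
    (HH (N := N) lft rgt).Adj (gp lft rgt N e i) (gp lft rgt N e (i + 1)) := by
  rcases Nat.eq_zero_or_pos i with rfl | hpos
  · rw [gp_zero, gp_mid e hN, adj_lr]
    exact Or.inl ⟨rfl, rfl⟩
  · obtain ⟨j, rfl⟩ : ∃ j, i = j + 1 := ⟨i - 1, by omega⟩
    rw [gp_mid e (show j < N by omega)]
    rcases Nat.lt_or_ge (j + 1) N with h | h
    · rw [gp_mid e h, adj_rr]
      exact ⟨rfl, Or.inl rfl⟩
    · obtain rfl : N = j + 1 := by omega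
      rw [gp_last]
      exact (adj_lr.2 (Or.inr ⟨rfl, rfl⟩)).symm

theorem gp_inj {e : Fin m} (hne : lft e ≠ rgt e) {i j : ℕ} (hi : i < N + 2) (hj : j < N + 2)
    (h : gp lft rgt N e i = gp lft rgt N e j) : i = j := by
  have key : ∀ i, i < N + 2 → i = 0 ∨ i = N + 1 ∨ ∃ k, k < N ∧ i = k + 1 := by
    intro i hi
    rcases Nat.eq_zero_or_pos i with h0 | h0
    · exact Or.inl h0
    · rcases Nat.lt_or_ge i (N + 1) with h1 | h1
      · exact Or.inr (Or.inr ⟨i - 1, by omega, by omega⟩)
      · exact Or.inr (Or.inl (by omega))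
  rcases key i hi with rfl | rfl | ⟨k, hk, rfl⟩ <;> rcases key j hj with rfl | rfl | ⟨l, hl, rfl⟩
  · rfl
  · rw [gp_zero, gp_last] at h
    exact absurd (Sum.inl.inj h) hne
  · rw [gp_zero, gp_mid e hl] at h
    cases h
  · rw [gp_zero, gp_last] at h
    exact absurd (Sum.inl.inj h).symm hne
  · rfl
  · rw [gp_last, gp_mid e hl] at h
    cases h
  · rw [gp_zero, gp_mid e hk] at h
    cases h
  · rw [gp_last, gp_mid e hk] at h
    cases h
  · rw [gp_mid e hk, gp_mid e hl] at h
    have := Sum.inr.inj h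
    simp only [Prod.mk.injEq, Fin.mk.injEq, true_and] at this
    omega

theorem exists_walk {W : Type} {H : SimpleGraph W} (g : ℕ → W) : ∀ n : ℕ,
    (∀ i, i < n → H.Adj (g i) (g (i + 1))) →
    ∃ p : H.Walk (g 0) (g n), p.support = (List.range (n + 1)).map g := by
  intro n
  induction n with
  | zero =>
    intro _
    exact ⟨SimpleGraph.Walk.nil, by simp⟩
  | succ n ih =>
    intro h
    obtain ⟨p, hp⟩ := ih (fun i hi => h i (by omega))
    refine ⟨p.concat (h n (by omega)), ?_⟩
    rw [SimpleGraph.Walk.support_concat, hp, List.range_succ (n := n + 1), List.map_append]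
    simp

/-- the walk of an edge -/
theorem edge_walk (hN : 0 < N) {e : Fin m} (hne : lft e ≠ rgt e) :
    ∃ p : (HH (N := N) lft rgt).Walk (Sum.inl (lft e)) (Sum.inl (rgt e)), p.IsPath ∧
      ∀ w, w ∈ p.support → w = Sum.inl (lft e) ∨ w = Sum.inl (rgt e) ∨ ∃ k, w = Sum.inr (e, k) := by
  obtain ⟨p, hp⟩ := exists_walk (gp lft rgt N e) (N + 1) (fun i hi => gp_adj hN e hi)
  have h0 : gp lft rgt N e 0 = Sum.inl (lft e) := gp_zero e
  have h1 : gp lft rgt N e (N + 1) = Sum.inl (rgt e) := gp_last e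
  refine ⟨p.copy h0 h1, ?_, ?_⟩
  · rw [SimpleGraph.Walk.isPath_def, SimpleGraph.Walk.support_copy, hp]
    refine List.Nodup.map_on ?_ List.nodup_range
    intro i hi j hj h
    rw [List.mem_range] at hi hj
    exact gp_inj hne hi hj h
  · intro w hw
    rw [SimpleGraph.Walk.support_copy, hp] at hw
    simp only [List.mem_map, List.mem_range] at hw
    obtain ⟨i, hi, rfl⟩ := hw
    rcases Nat.eq_zero_or_pos i with rfl | hpos
    · exact Or.inl (gp_zero e)
    · rcases Nat.lt_or_ge i (N + 1) with h | h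
      · obtain ⟨j, rfl⟩ : ∃ j, i = j + 1 := ⟨i - 1, by omega⟩
        exact Or.inr (Or.inr ⟨⟨j, by omega⟩, gp_mid e (by omega)⟩)
      · obtain rfl : i = N + 1 := by omega
        exact Or.inr (Or.inl (gp_last e))

end graph

/-- The graph part: the statement about words gives the frozen statement. -/
theorem graph_part (hW : WordPart) :
    ∀ (V : Type) [Fintype V] (G : SimpleGraph V),
      ∃ (W : Type) (_ : Fintype W) (H : SimpleGraph W) (f : V → W)
        (P : ∀ u v : V, G.Adj u v → H.Walk (f u) (f v)),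
        Function.Injective f ∧
        (∀ (u v : V) (h : G.Adj u v), (P u v h).IsPath) ∧
        (∀ (u v : V) (h : G.Adj u v) (x : V),
            f x ∈ (P u v h).support → x = u ∨ x = v) ∧
        (∀ (u v : V) (h : G.Adj u v) (u' v' : V) (h' : G.Adj u' v') (w : W),
            w ∈ (P u v h).support → w ∈ (P u' v' h').support →
              (∃ x, f x = w) ∨ (u = u' ∧ v = v') ∨ (u = v' ∧ v = u')) ∧
        (∀ L : W → Finset ℕ, (∀ w, 4 ≤ (L w).card) →
          ∃ c : W → ℕ, (∀ w, c w ∈ L w) ∧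
            ∀ (a b : W) (p : H.Walk a b) (t : ℕ), p.IsPath → 0 < t →
              p.length = 2 * t - 1 →
                ∃ i < t, c (p.getVert i) ≠ c (p.getVert (i + t))) := by
  classical
  intro V _ G
  let idx := Fintype.equivFin V
  let E := {p : V × V // G.Adj p.1 p.2 ∧ idx p.1 < idx p.2}
  let m := Fintype.card E
  let eE : Fin m ≃ E := (Fintype.equivFin E).symm
  let lft : Fin m → V := fun e => (eE e).1.1
  let rgt : Fin m → V := fun e => (eE e).1.2
  have hlr : ∀ e, lft e ≠ rgt e := fun e h => by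
    have h1 := (eE e).2.1
    exact h1.ne h
  obtain ⟨N, t1, s0, hs0, hst, htN, hword⟩ := hW m
  have hN : 0 < N := by omega
  have hwalk : ∀ (u v : V) (h : G.Adj u v), ∃ e, ∃ p : (HH (N := N) lft rgt).Walk (Sum.inl u) (Sum.inl v),
      p.IsPath ∧ ((lft e = u ∧ rgt e = v) ∨ (lft e = v ∧ rgt e = u)) ∧
      ∀ w, w ∈ p.support → w = Sum.inl u ∨ w = Sum.inl v ∨ ∃ k, w = Sum.inr (e, k) := by
    intro u v h
    have hne : idx u ≠ idx v := fun h' => h.ne (idx.injective h')
    rcases lt_or_gt_of_ne hne with hlt | hlt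
    · obtain ⟨e, he⟩ := eE.surjective ⟨(u, v), h, hlt⟩
      have h1 : lft e = u := by simp only [lft, he]
      have h2 : rgt e = v := by simp only [rgt, he]
      obtain ⟨p, hp, hs⟩ := edge_walk hN (hlr e)
      subst h1 h2
      exact ⟨e, p, hp, Or.inl ⟨rfl, rfl⟩, hs⟩
    · obtain ⟨e, he⟩ := eE.surjective ⟨(v, u), h.symm, hlt⟩
      have h1 : lft e = v := by simp only [lft, he]
      have h2 : rgt e = u := by simp only [rgt, he]
      obtain ⟨p, hp, hs⟩ := edge_walk hN (hlr e)
      subst h1 h2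
      refine ⟨e, p.reverse, hp.reverse, Or.inr ⟨rfl, rfl⟩, ?_⟩
      intro w hw
      rw [SimpleGraph.Walk.support_reverse, List.mem_reverse] at hw
      rcases hs w hw with h | h | h
      · exact Or.inr (Or.inl h)
      · exact Or.inl h
      · exact Or.inr (Or.inr h)
  choose ew P hP hPe hPs using hwalk
  refine ⟨V ⊕ (Fin m × Fin N), inferInstance, HH (N := N) lft rgt, Sum.inl, P, Sum.inl_injective, hP, ?_, ?_, ?_⟩
  · intro u v h x hx
    rcases hPs u v h _ hx with h1 | h1 | ⟨k, h1⟩
    · exact Or.inl (Sum.inl.inj h1)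
    · exact Or.inr (Sum.inl.inj h1)
    · cases h1
  · intro u v h u' v' h' w hw hw'
    rcases hPs u v h _ hw with h1 | h1 | ⟨k, h1⟩
    · exact Or.inl ⟨u, h1.symm⟩
    · exact Or.inl ⟨v, h1.symm⟩
    · rcases hPs u' v' h' _ hw' with h2 | h2 | ⟨k', h2⟩
      · exact Or.inl ⟨u', h2.symm⟩
      · exact Or.inl ⟨v', h2.symm⟩
      · right
        rw [h1] at h2
        have h3 := (Prod.mk.inj (Sum.inr.inj h2)).1
        rcases hPe u v h with ⟨h4, h5⟩ | ⟨h4, h5⟩ <;> rcases hPe u' v' h' with ⟨h6, h7⟩ | ⟨h6, h7⟩ <;>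
          rw [← h3] at h6 h7
        · exact Or.inl ⟨h4.symm.trans h6, h5.symm.trans h7⟩
        · exact Or.inr ⟨h4.symm.trans h6, h5.symm.trans h7⟩
        · exact Or.inr ⟨h5.symm.trans h7, h4.symm.trans h6⟩
        · exact Or.inl ⟨h5.symm.trans h7, h4.symm.trans h6⟩
  · intro L hL
    have hcol : ∀ v : V, ∃ c, c ∈ L (Sum.inl v) := by
      intro v
      have := hL (Sum.inl v)
      exact Finset.card_pos.1 (by omega)
    choose col hcol using hcol
    obtain ⟨w, hw, hg⟩ := hword (fun e k => if h : k < N then L (Sum.inr (e, ⟨k, h⟩)) else Finset.range 4)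
      (by
        intro e k
        by_cases h : k < N
        · simp only [h, dite_true]
          exact hL _
        · simp only [h, dite_false]
          simp) (fun e => col (lft e)) (fun e => col (rgt e))
    refine ⟨colr col w, ?_, ?_⟩
    · rintro (v | ⟨e, k⟩)
      · exact hcol v
      · have := hw e k.1 k.2
        simp only [k.2, dite_true] at this
        exact this
    · intro a b p t hp ht hlen
      by_contra hcon
      push Not at hcon
      have hadj : ∀ i, i + 1 < 2 * t → (HH (N := N) lft rgt).Adj (p.getVert i) (p.getVert (i + 1)) := by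
        intro i hi
        exact p.adj_getVert_succ (by omega)
      have hinj : ∀ i j, i < 2 * t → j < 2 * t → p.getVert i = p.getVert j → i = j := by
        intro i j hi hj h
        have h1 : i ≤ p.length := by omega
        have h2 : j ≤ p.length := by omega
        exact hp.getVert_injOn h1 h2 h
      rcases Nat.lt_or_ge t t1 with h | h
      · exact short hg htN ht h hadj hinj hcon
      · exact long hg htN hs0 hst h hadj hinj hcon

end Pool.Agent.H401R3.SD
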