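import Pool.Agent.H401R3.SD.XMain
import Pool.Agent.H401R3.SD.Graph
import Pool.Agent.H409R3.Sub.Reduce
import Pool.Agent.H565.Win.Prov

set_option autoImplicit false

namespace Pool.Agent.H401R3.SD.Wd
open Finset
open Pool.Agent.H409R3.Sub (win Leg join GoodEdge WordLemma)
open Pool.Agent.H378R3.ND hiding inj_bound

theorem provider : Provider := by
  intro K
  obtain ⟨s0, h0, h⟩ := Pool.Agent.H565.Win.provider K
  refine ⟨s0, fun s hs ℒ al hL => ⟨?_, ?_⟩⟩
  · intro F hF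
    obtain ⟨ok, h1, h2, h3, h4, h5⟩ := h s hs ℒ hL al F hF []
    refine ⟨ok, fun p c hc => ?_, h3 (40 * s) (by omega), h5 rfl (40 * s) (by omega) (by omega)⟩
    obtain ⟨a1, a2, a3⟩ := h1 p c hc
    exact ⟨a1, a2, a3, fun a _ => win_ne_nil⟩
  · intro F hF G hG
    obtain ⟨ok, h1, h2, h3, h4, h5⟩ := h s hs ℒ hL al F hF G
    refine ⟨ok, fun p c hc => ?_, h2, h3 (40 * s - 10) (by omega), h4 (40 * s - 10) (by omega) (by omega)⟩
    obtain ⟨a1, a2, a3⟩ := h1 p c hc
    exact ⟨a1, a2, a3, fun a _ => win_ne_nil⟩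

end Pool.Agent.H401R3.SD.Wd

namespace Pool.Agent.H401R3.SD

theorem wordPart : WordPart :=
  Pool.Agent.H409R3.Sub.wordPart_of_wordLemma (Wd.wordLemma_of_provider Wd.provider)

end Pool.Agent.H401R3.SD
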