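import Pool.Agent.H401R3.SD.Rec

set_option autoImplicit false

namespace Pool.Agent.H401R3.SD.Wd
open Finset
open scoped Classical
open Pool.Agent.H409R3.Sub (win)
open Pool.Agent.H378R3.ND hiding inj_bound

noncomputable section

variable {ok : ℕ → (ℕ → ℕ) → Prop} {ℒ : ℕ → Finset ℕ} {P : Par}

lemma pow_le {β : ℚ} (hβ : 1 < β) {k : ℕ} (h : ∀ j < k, β * S ok ℒ j ≤ S ok ℒ (j + 1)) :
    ∀ d j, j + d ≤ k → β ^ d * S ok ℒ j ≤ S ok ℒ (j + d) := by
  intro d
  induction d with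
  | zero => intro j _; simp
  | succ d ih =>
    intro j hj
    have h1 := ih j (by omega)
    have h2 := h (j + d) (by omega)
    calc β ^ (d + 1) * S ok ℒ j = β * (β ^ d * S ok ℒ j) := by ring
      _ ≤ β * S ok ℒ (j + d) := mul_le_mul_of_nonneg_left h1 (by linarith)
      _ ≤ S ok ℒ (j + (d + 1)) := h2

lemma sumS {β : ℚ} (hβ : 1 < β) {k : ℕ} (h : ∀ j < k, β * S ok ℒ j ≤ S ok ℒ (j + 1)) :
    ∀ m, m ≤ k → (β - 1) * ∑ j ∈ range (m + 1), S ok ℒ j ≤ β * S ok ℒ m := by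
  intro m
  induction m with
  | zero =>
    intro _
    rw [sum_range_one]
    have := S_nonneg (ℒ := ℒ) (ok := ok) 0
    nlinarith
  | succ m ih =>
    intro hm
    have h1 := ih (by omega)
    have h2 := h m (by omega)
    rw [sum_range_succ]
    nlinarith

lemma sumA {β : ℚ} (hβ : 1 < β) {k : ℕ} (h : ∀ j < k, β * S ok ℒ j ≤ S ok ℒ (j + 1)) :
    ∀ m, m ≤ k → (β - 1) ^ 2 * ∑ j ∈ range (m + 1), ((m : ℚ) - j + 1) * S ok ℒ j ≤ β ^ 2 * S ok ℒ m := by
  intro m
  induction m with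
  | zero =>
    intro _
    rw [sum_range_one]
    have := S_nonneg (ℒ := ℒ) (ok := ok) 0
    push_cast
    nlinarith [mul_nonneg this (show (0:ℚ) ≤ β by linarith), mul_nonneg this (show (0:ℚ) ≤ β - 1 by linarith)]
  | succ m ih =>
    intro hm
    have h1 := ih (by omega)
    have h2 := h m (by omega)
    have h3 := sumS hβ h (m + 1) hm
    have e : ∑ j ∈ range (m + 1 + 1), (((m + 1 : ℕ) : ℚ) - j + 1) * S ok ℒ j =
        ∑ j ∈ range (m + 1), ((m : ℚ) - j + 1) * S ok ℒ j + ∑ j ∈ range (m + 1 + 1), S ok ℒ j := by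
      rw [sum_range_succ, sum_range_succ (fun j => S ok ℒ j), ← add_assoc, ← sum_add_distrib]
      congr 1
      · refine sum_congr rfl fun j _ => ?_
        push_cast; ring
      · push_cast; ring
    rw [e, mul_add]
    have h4 : (β - 1) * ((β - 1) * ∑ j ∈ range (m + 1 + 1), S ok ℒ j) ≤ (β - 1) * (β * S ok ℒ (m + 1)) :=
      mul_le_mul_of_nonneg_left h3 (by linarith)
    have h5 : β * (β * S ok ℒ m) ≤ β * S ok ℒ (m + 1) := mul_le_mul_of_nonneg_left h2 (by linarith)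
    nlinarith

lemma N_kap (hloc : Local ok) (hval : ∀ p c, ok p c → val P p c) {β : ℚ} (hβ : 1 < β) (hT : 3 ≤ P.T) {k : ℕ} (h : ∀ j < k, β * S ok ℒ j ≤ S ok ℒ (j + 1))
    {j : ℕ} (hj : j ≤ k) : N ok ℒ j ≤ (1 + 3 / (11 * β)) * S ok ℒ j := by
  have hS := S_nonneg (ℒ := ℒ) (ok := ok) j
  rcases Nat.eq_zero_or_pos j with rfl | hpos
  · rw [N_zero, S_zero]
    have : 0 ≤ 3 / (11 * β) := by positivity
    linarith
  · obtain ⟨i, rfl⟩ : ∃ i, j = i + 1 := ⟨j - 1, by omega⟩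
    have h1 := N_le (ℒ := ℒ) hloc hval hT i
    have h2 := h i (by omega)
    have h3 : S ok ℒ i ≤ S ok ℒ (i + 1) / β := by
      rw [le_div_iff₀ (by linarith)]; linarith
    have h4 : (1 + 3 / (11 * β)) * S ok ℒ (i + 1) = S ok ℒ (i + 1) + 3 / 11 * (S ok ℒ (i + 1) / β) := by
      field_simp
    rw [h4]
    linarith

/-- the growth theorem -/
theorem growth (hloc : Local ok) (hval : ∀ p c, ok p c → val P p c) {β ε g : ℚ} {M : ℕ}
    (hcomp : ∀ k < M, ∀ c, val P k c → ok k c) (hβ : 1 < β) (hT : 3 ≤ P.T) (hs : 1 ≤ P.s)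
    (hL : ∀ k < M, 4 ≤ (ℒ k).card) (hg : 0 ≤ g) (hG : P.G.length = 5 → 1 ≤ g)
    (hc : β + 1 / (β * (β - 1)) + g * (1 + 3 / (11 * β)) / β ^ 4 + ε ≤ 30 / 11)
    (hw : (P.F.card + 2 * M) * (1 + 3 / (11 * β)) ≤ ε * β ^ (P.s - 1)) :
    ∀ k < M, β * S ok ℒ k ≤ S ok ℒ (k + 1) := by
  intro k
  induction k using Nat.strong_induction_on with
  | _ k ih =>
  intro hk
  have h : ∀ j < k, β * S ok ℒ j ≤ S ok ℒ (j + 1) := fun j hj => ih j hj (by omega)
  have hS := S_nonneg (ℒ := ℒ) (ok := ok) k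
  have hκ : 0 < 1 + 3 / (11 * β) := by positivity
  have hβ0 : 0 < β := by linarith
  have hβ1 : 0 < β - 1 := by linarith
  have hrec := rec_bound (P := P) hloc (hcomp k hk) (hL k hk) hT hs
  have b1 : ∑ j ∈ range (k - 1), S ok ℒ j ≤ 1 / (β * (β - 1)) * S ok ℒ k := by
    rcases Nat.lt_or_ge k 2 with h2 | h2
    · rw [show k - 1 = 0 by omega, range_zero, sum_empty]
      positivity
    · have h3 := sumS hβ h (k - 2) (by omega)
      rw [show k - 2 + 1 = k - 1 by omega] at h3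
      have h4 := pow_le hβ h 2 (k - 2) (by omega)
      rw [show k - 2 + 2 = k by omega] at h4
      rw [div_mul_eq_mul_div, one_mul, le_div_iff₀ (by positivity)]
      nlinarith
  have b2 : (P.F.card + 2 * (k + 1)) * WN ok ℒ P k ≤ ε * S ok ℒ k := by
    have hε : 0 ≤ ε := by
      have h5 : 0 ≤ (P.F.card + 2 * M) * (1 + 3 / (11 * β)) := by positivity
      by_contra hneg
      push Not at hneg
      have : ε * β ^ (P.s - 1) < 0 := mul_neg_of_neg_of_pos hneg (by positivity)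
      linarith
    unfold WN
    split_ifs with hsk
    · have h5 := N_kap hloc hval hβ hT h (j := k + 1 - P.s) (by omega)
      have h6 := pow_le hβ h (P.s - 1) (k + 1 - P.s) (by omega)
      rw [show k + 1 - P.s + (P.s - 1) = k by omega] at h6
      have h7 : ((P.F.card : ℚ) + 2 * (k + 1)) ≤ P.F.card + 2 * M := by
        have : ((k : ℚ) + 1) ≤ M := by exact_mod_cast hk
        linarith
      have h8 := S_nonneg (ℒ := ℒ) (ok := ok) (k + 1 - P.s)
      calc (P.F.card + 2 * ((k : ℚ) + 1)) * N ok ℒ (k + 1 - P.s)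
          ≤ (P.F.card + 2 * M) * ((1 + 3 / (11 * β)) * S ok ℒ (k + 1 - P.s)) := by
            apply mul_le_mul h7 h5 (N_nonneg _) (by positivity)
        _ = ((P.F.card + 2 * M) * (1 + 3 / (11 * β))) * S ok ℒ (k + 1 - P.s) := by ring
        _ ≤ (ε * β ^ (P.s - 1)) * S ok ℒ (k + 1 - P.s) := mul_le_mul_of_nonneg_right hw h8
        _ = ε * (β ^ (P.s - 1) * S ok ℒ (k + 1 - P.s)) := by ring
        _ ≤ ε * S ok ℒ k := mul_le_mul_of_nonneg_left h6 hε
    · rw [mul_zero]; positivity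
  have b3 : GN ok ℒ P k ≤ g * (1 + 3 / (11 * β)) / β ^ 4 * S ok ℒ k := by
    unfold GN
    split_ifs with hgk
    · have h5 := N_kap hloc hval hβ hT h (j := k - 4) (by omega)
      have h6 := pow_le hβ h 4 (k - 4) (by omega)
      rw [show k - 4 + 4 = k by omega] at h6
      have h9 := hG hgk.1
      rw [div_mul_eq_mul_div, le_div_iff₀ (by positivity)]
      calc N ok ℒ (k - 4) * β ^ 4 ≤ (1 + 3 / (11 * β)) * S ok ℒ (k - 4) * β ^ 4 :=
            mul_le_mul_of_nonneg_right h5 (by positivity)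
        _ = (1 + 3 / (11 * β)) * (β ^ 4 * S ok ℒ (k - 4)) := by ring
        _ ≤ (1 + 3 / (11 * β)) * S ok ℒ k := mul_le_mul_of_nonneg_left h6 hκ.le
        _ ≤ g * ((1 + 3 / (11 * β)) * S ok ℒ k) := by
            have : 0 ≤ (1 + 3 / (11 * β)) * S ok ℒ k := by positivity
            nlinarith
        _ = g * (1 + 3 / (11 * β)) * S ok ℒ k := by ring
    · positivity
  have hfin : (β + 1 / (β * (β - 1)) + g * (1 + 3 / (11 * β)) / β ^ 4 + ε) * S ok ℒ k ≤ 30 / 11 * S ok ℒ k :=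
    mul_le_mul_of_nonneg_right hc hS
  linarith

lemma S_pos {β : ℚ} {M : ℕ} (hβ : 1 < β) (h : ∀ k < M, β * S ok ℒ k ≤ S ok ℒ (k + 1)) {k : ℕ}
    (hk : k ≤ M) : 0 < S ok ℒ k := by
  have := pow_le hβ h k 0 (by omega)
  rw [S_zero, Nat.zero_add] at this
  have h2 : 0 < β ^ k * 1 := by
    have : 0 < β := by linarith
    positivity
  linarith

end
end Pool.Agent.H401R3.SD.Wd
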