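import Mathlib

set_option autoImplicit false

/-! The ten letters in the middle of an edge. -/

namespace Pool.Agent.H401R3.SD.Wd
open Finset

lemma avoid3 (A : Finset ℕ) (hA : 4 ≤ A.card) (x y z : ℕ) : ∃ u ∈ A, u ≠ x ∧ u ≠ y ∧ u ≠ z := by
  have h : 0 < (((A.erase x).erase y).erase z).card := by
    have h1 := Finset.pred_card_le_card_erase (s := A) (a := x)
    have h2 := Finset.pred_card_le_card_erase (s := A.erase x) (a := y)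
    have h3 := Finset.pred_card_le_card_erase (s := (A.erase x).erase y) (a := z)
    omega
  obtain ⟨u, hu⟩ := Finset.card_pos.mp h
  rw [mem_erase, mem_erase, mem_erase] at hu
  exact ⟨u, hu.2.2.2, hu.2.2.1, hu.2.1, hu.1⟩

/-- conditions on the first five letters -/
structure Five (w1 w2 w3 w4 w5 : ℕ) : Prop where
  h12 : w1 ≠ w2
  h13 : w1 ≠ w3
  h14 : w1 ≠ w4
  h15 : w1 ≠ w5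
  h23 : w2 ≠ w3
  h24 : w2 ≠ w4
  h34 : w3 ≠ w4
  h35 : w3 ≠ w5
  h45 : w4 ≠ w5

/-- conditions on the other letters -/
structure Ten (w1 w2 w3 w4 w5 w6 w7 w8 w9 w10 : ℕ) : Prop where
  five : Five w1 w2 w3 w4 w5
  h6 : w6 ≠ w10 ∧ w6 ≠ w5 ∧ w6 ≠ w4
  h7 : w7 ≠ w10 ∧ w7 ≠ w6 ∧ (w6 = w1 → w7 ≠ w2) ∧ (w6 ≠ w1 → w7 ≠ w4)
  h8 : w8 ≠ w10 ∧ w8 ≠ w7 ∧ w8 ≠ w6
  h9 : w9 ≠ w10 ∧ w9 ≠ w8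
  r5 : ¬ (w5 = w10 ∧ w4 = w9)
  r6 : ¬ (w4 = w10 ∧ w3 = w9 ∧ w2 = w8)
  d4 : ¬ (w7 = w1 ∧ w8 = w2 ∧ w9 = w3 ∧ w10 = w4)
  l7 : ¬ (w8 = w1 ∧ w9 = w2 ∧ w10 = w3)
  s3 : ¬ (w4 = w7 ∧ w5 = w8 ∧ w6 = w9)
  s4 : ¬ (w2 = w6 ∧ w3 = w7 ∧ w4 = w8 ∧ w5 = w9)

lemma exists_five (A2 A3 A4 A5 : Finset ℕ) (h2 : 4 ≤ A2.card) (h3 : 4 ≤ A3.card) (h4 : 4 ≤ A4.card)
    (h5 : 4 ≤ A5.card) (p : ℕ) :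
    ∃ w2 ∈ A2, ∃ w3 ∈ A3, ∃ w4 ∈ A4, ∃ w5 ∈ A5, Five p w2 w3 w4 w5 := by
  obtain ⟨w2, m2, a2, _, _⟩ := avoid3 A2 h2 p p p
  obtain ⟨w3, m3, a3, b3, _⟩ := avoid3 A3 h3 p w2 p
  obtain ⟨w4, m4, a4, b4, c4⟩ := avoid3 A4 h4 p w2 w3
  obtain ⟨w5, m5, a5, b5, c5⟩ := avoid3 A5 h5 p w3 w4
  exact ⟨w2, m2, w3, m3, w4, m4, w5, m5, ⟨a2.symm, a3.symm, a4.symm, a5.symm, b3.symm, b4.symm,
    c4.symm, b5.symm, c5.symm⟩⟩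

lemma exists_ten (A6 A7 A8 A9 : Finset ℕ) (h6 : 4 ≤ A6.card) (h7 : 4 ≤ A7.card) (h8 : 4 ≤ A8.card)
    (h9 : 4 ≤ A9.card) (w1 w2 w3 w4 w5 w10 : ℕ) (h : Five w1 w2 w3 w4 w5) :
    ∃ w6 ∈ A6, ∃ w7 ∈ A7, ∃ w8 ∈ A8, ∃ w9 ∈ A9, Ten w1 w2 w3 w4 w5 w6 w7 w8 w9 w10 := by
  obtain ⟨w6, m6, a6, b6, c6⟩ := avoid3 A6 h6 w10 w5 w4
  obtain ⟨w7, m7, a7, b7, c7⟩ := avoid3 A7 h7 w10 w6 (if w6 = w1 then w2 else w4)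
  obtain ⟨w8, m8, a8, b8, c8⟩ := avoid3 A8 h8 w10 w7 w6
  obtain ⟨w9, m9, a9, b9, c9⟩ := avoid3 A9 h9 w10 w8
    (if w4 = w7 ∧ w5 = w8 then w6 else if w5 = w10 then w4 else if w8 = w4 then w5 else
      if w8 = w1 then w2 else w3)
  refine ⟨w6, m6, w7, m7, w8, m8, w9, m9, ?_⟩
  obtain ⟨g12, g13, g14, g15, g23, g24, g34, g35, g45⟩ := h
  refine ⟨⟨g12, g13, g14, g15, g23, g24, g34, g35, g45⟩, ⟨a6, b6, c6⟩, ⟨a7, b7, ?_, ?_⟩,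
    ⟨a8, b8, c8⟩, ⟨a9, b9⟩, ?_, ?_, ?_, ?_, ?_, ?_⟩ <;> clear m6 m7 m8 m9 h6 h7 h8 h9 <;>
    split_ifs at c7 c9 <;> omega

end Pool.Agent.H401R3.SD.Wd
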