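import Pool.Agent.H401R3.SD.Words

set_option autoImplicit false

namespace Pool.Agent.H401R3.SD.Wd
open Finset
open scoped Classical
open Pool.Agent.H409R3.Sub (win)
open Pool.Agent.H378R3.ND hiding inj_bound

noncomputable section

variable {ok : ℕ → (ℕ → ℕ) → Prop} {ℒ : ℕ → Finset ℕ} {P : Par}

def Q1 (P : Par) (k : ℕ) (f : List ℕ) (c : ℕ → ℕ) : Prop := P.s ≤ k + 1 ∧ win c P.s (k + 1 - P.s) = f
def Q2 (P : Par) (k j : ℕ) (c : ℕ → ℕ) : Prop :=
  P.s ≤ k + 1 ∧ j + P.s ≤ k + 1 - P.s ∧ win c P.s j = win c P.s (k + 1 - P.s)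
def Q3 (P : Par) (k j : ℕ) (c : ℕ → ℕ) : Prop :=
  P.s ≤ k + 1 ∧ j + P.s ≤ k + 1 - P.s ∧ win c P.s j = (win c P.s (k + 1 - P.s)).reverse
def Q4 (P : Par) (k : ℕ) (c : ℕ → ℕ) : Prop := 5 ≤ k + 1 ∧ win c 5 (k - 4) = P.G

/-- cost of one window -/
def WN (ok : ℕ → (ℕ → ℕ) → Prop) (ℒ : ℕ → Finset ℕ) (P : Par) (k : ℕ) : ℚ := if P.s ≤ k + 1 then N ok ℒ (k + 1 - P.s) else 0

lemma WN_nonneg (k : ℕ) : 0 ≤ WN ok ℒ P k := by
  unfold WN; split_ifs
  · exact N_nonneg _
  · exact le_rfl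

lemma det_or (hloc : Local ok) {k : ℕ} {Q : (ℕ → ℕ) → Prop} (hs : 1 ≤ P.s) (hQs : ∀ c, Q c → P.s ≤ k + 1)
    (hQ : P.s ≤ k + 1 → ∀ c c', Q c → Q c' → (∀ i < k + 1 - P.s, c i = c' i) →
      ∀ i, k + 1 - P.s ≤ i → i < k + 1 → c i = c' i) :
    ∑ c ∈ U ok ℒ k, (if Q c then wt (k + 1) c else 0) ≤ WN ok ℒ P k := by
  rw [← sum_filter]
  unfold WN
  split_ifs with h
  · exact det_bound hloc (by omega) (hQ h)
  · rw [filter_false_of_mem (fun c _ hc => h (hQs c hc)), sum_empty]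

lemma Q1_bound (hloc : Local ok) {k : ℕ} (hs : 1 ≤ P.s) (f : List ℕ) :
    ∑ c ∈ U ok ℒ k, (if Q1 P k f c then wt (k + 1) c else 0) ≤ WN ok ℒ P k := by
  refine det_or hloc hs (fun c hc => hc.1) ?_
  intro hk c c' hc hc' _ i h1 h2
  have := win_eq (hc.2.trans hc'.2.symm) (i - (k + 1 - P.s)) (by omega)
  rwa [show k + 1 - P.s + (i - (k + 1 - P.s)) = i by omega] at this

lemma Q2_bound (hloc : Local ok) {k : ℕ} (hs : 1 ≤ P.s) (j : ℕ) :
    ∑ c ∈ U ok ℒ k, (if Q2 P k j c then wt (k + 1) c else 0) ≤ WN ok ℒ P k := by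
  refine det_or hloc hs (fun c hc => hc.1) ?_
  intro hk c c' hc hc' heq i h1 h2
  have e1 := win_eq hc.2.2 (i - (k + 1 - P.s)) (by omega)
  have e2 := win_eq hc'.2.2 (i - (k + 1 - P.s)) (by omega)
  have hj := hc.2.1
  rw [show k + 1 - P.s + (i - (k + 1 - P.s)) = i by omega] at e1 e2
  rw [← e1, ← e2]
  exact heq _ (by omega)

lemma Q3_bound (hloc : Local ok) {k : ℕ} (hs : 1 ≤ P.s) (j : ℕ) :
    ∑ c ∈ U ok ℒ k, (if Q3 P k j c then wt (k + 1) c else 0) ≤ WN ok ℒ P k := by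
  refine det_or hloc hs (fun c hc => hc.1) ?_
  intro hk c c' hc hc' heq i h1 h2
  have e1 := win_rev_eq hc.2.2 (P.s - 1 - (i - (k + 1 - P.s))) (by omega)
  have e2 := win_rev_eq hc'.2.2 (P.s - 1 - (i - (k + 1 - P.s))) (by omega)
  have hj := hc.2.1
  rw [show k + 1 - P.s + (P.s - 1 - (P.s - 1 - (i - (k + 1 - P.s)))) = i by omega] at e1 e2
  rw [← e1, ← e2]
  exact heq _ (by omega)

/-- cost of the forbidden factor -/
def GN (ok : ℕ → (ℕ → ℕ) → Prop) (ℒ : ℕ → Finset ℕ) (P : Par) (k : ℕ) : ℚ :=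
  if P.G.length = 5 ∧ 5 ≤ k + 1 then N ok ℒ (k - 4) else 0

lemma Q4_bound (hloc : Local ok) {k : ℕ} :
    ∑ c ∈ U ok ℒ k, (if Q4 P k c then wt (k + 1) c else 0) ≤ GN ok ℒ P k := by
  rw [← sum_filter]
  unfold GN
  split_ifs with h
  · refine det_bound hloc (by omega) ?_
    intro c c' hc hc' _ i h1 h2
    have := win_eq (hc.2.trans hc'.2.symm) (i - (k - 4)) (by omega)
    rwa [show k - 4 + (i - (k - 4)) = i by omega] at this
  · rw [filter_false_of_mem, sum_empty]
    intro c _ hc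
    apply h
    refine ⟨?_, hc.1⟩
    rw [← hc.2]
    simp [win]

lemma cover {k : ℕ} (hT : 3 ≤ P.T) (hs : 1 ≤ P.s) {c : ℕ → ℕ} (h1 : sok k c) (h2 : ¬ val P k c) :
    (∃ j < k - 1, Bad k j c) ∨ (∃ f ∈ P.F, Q1 P k f c) ∨ (∃ j < k + 1, Q2 P k j c) ∨
      (∃ j < k + 1, Q3 P k j c) ∨ Q4 P k c := by
  by_contra hcon
  push Not at hcon
  obtain ⟨c1, c2, c3, c4, c5⟩ := hcon
  apply h2
  refine ⟨fun t a ht ht' ha => ?_, fun a ha hF => ?_, fun j a ha hj => ⟨fun h => ?_, fun h => ?_⟩,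
    fun a ha h => ?_⟩
  · by_contra hsq
    push Not at hsq
    rcases Nat.lt_or_ge t 3 with h3 | h3
    · rcases Nat.lt_or_ge t 2 with h4 | h4
      · obtain rfl : t = 1 := by omega
        have := hsq 0 (by omega)
        apply h1.1 (by omega)
        rw [show a + 1 + 0 = k by omega, show a + 0 = k - 1 by omega] at this
        exact this.symm
      · obtain rfl : t = 2 := by omega
        have g0 := hsq 0 (by omega)
        have g1 := hsq 1 (by omega)
        apply h1.2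
        refine ⟨by omega, ?_, ?_⟩
        · rw [show a + 1 = k - 2 by omega, show a + 2 + 1 = k by omega] at g1
          exact g1.symm
        · rw [show a + 0 = k - 3 by omega, show a + 2 + 0 = k - 1 by omega] at g0
          exact g0.symm
    · refine c1 (k + 1 - t) (by omega) ⟨by omega, by omega, ?_⟩
      intro i hi
      have := hsq i (by omega)
      rw [show 2 * (k + 1 - t) - (k + 1) + i = a + i by omega, show k + 1 - t + i = a + t + i by omega]
      exact this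
  · exact c2 _ hF ⟨by omega, by rw [show k + 1 - P.s = a by omega]⟩
  · exact c3 j (by omega) ⟨by omega, by omega, by rw [show k + 1 - P.s = a by omega]; exact h⟩
  · exact c4 j (by omega) ⟨by omega, by omega, by rw [show k + 1 - P.s = a by omega]; exact h⟩
  · exact c5 ⟨by omega, by rw [show k - 4 = a by omega]; exact h⟩

lemma rec_bound (hloc : Local ok) {k : ℕ} (hcomp : ∀ c, val P k c → ok k c) (hL : 4 ≤ (ℒ k).card) (hT : 3 ≤ P.T) (hs : 1 ≤ P.s) :
    30 / 11 * S ok ℒ k ≤ S ok ℒ (k + 1) + ∑ j ∈ range (k - 1), S ok ℒ j +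
      (P.F.card + 2 * (k + 1)) * WN ok ℒ P k + GN ok ℒ P k := by
  refine (short_grow hloc hL).trans ?_
  have hpt : ∀ c ∈ U ok ℒ k, (if sok k c then wt (k + 1) c else 0) ≤
      (if val P k c then wt (k + 1) c else 0) +
      ∑ j ∈ range (k - 1), (if Bad k j c then wt (k + 1) c else 0) +
      ∑ f ∈ P.F, (if Q1 P k f c then wt (k + 1) c else 0) +
      ∑ j ∈ range (k + 1), (if Q2 P k j c then wt (k + 1) c else 0) +
      ∑ j ∈ range (k + 1), (if Q3 P k j c then wt (k + 1) c else 0) +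
      (if Q4 P k c then wt (k + 1) c else 0) := by
    intro c _
    have hw := wt_nonneg (k + 1) c
    have nn : ∀ Q : Prop, 0 ≤ (if Q then wt (k + 1) c else 0) := fun Q => by split_ifs <;> simp [hw]
    have n0 := nn (val P k c)
    have n1 : 0 ≤ ∑ j ∈ range (k - 1), (if Bad k j c then wt (k + 1) c else 0) :=
      sum_nonneg fun j _ => nn _
    have n2 : 0 ≤ ∑ f ∈ P.F, (if Q1 P k f c then wt (k + 1) c else 0) := sum_nonneg fun j _ => nn _
    have n3 : 0 ≤ ∑ j ∈ range (k + 1), (if Q2 P k j c then wt (k + 1) c else 0) :=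
      sum_nonneg fun j _ => nn _
    have n4 : 0 ≤ ∑ j ∈ range (k + 1), (if Q3 P k j c then wt (k + 1) c else 0) :=
      sum_nonneg fun j _ => nn _
    have n5 := nn (Q4 P k c)
    by_cases h1 : sok k c
    · rw [if_pos h1]
      by_cases h2 : val P k c
      · rw [if_pos h2]; linarith
      · rw [if_neg h2]
        rcases cover hT hs h1 h2 with ⟨j, hj, h⟩ | ⟨f, hf, h⟩ | ⟨j, hj, h⟩ | ⟨j, hj, h⟩ | h
        · have : wt (k + 1) c ≤ ∑ j ∈ range (k - 1), (if Bad k j c then wt (k + 1) c else 0) := by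
            refine le_trans ?_ (single_le_sum (fun j _ => nn (Bad k j c)) (mem_range.2 hj))
            rw [if_pos h]
          linarith
        · have : wt (k + 1) c ≤ ∑ f ∈ P.F, (if Q1 P k f c then wt (k + 1) c else 0) := by
            refine le_trans ?_ (single_le_sum (fun j _ => nn (Q1 P k j c)) hf)
            rw [if_pos h]
          linarith
        · have : wt (k + 1) c ≤ ∑ j ∈ range (k + 1), (if Q2 P k j c then wt (k + 1) c else 0) := by
            refine le_trans ?_ (single_le_sum (fun j _ => nn (Q2 P k j c)) (mem_range.2 hj))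
            rw [if_pos h]
          linarith
        · have : wt (k + 1) c ≤ ∑ j ∈ range (k + 1), (if Q3 P k j c then wt (k + 1) c else 0) := by
            refine le_trans ?_ (single_le_sum (fun j _ => nn (Q3 P k j c)) (mem_range.2 hj))
            rw [if_pos h]
          linarith
        · rw [if_pos h]; linarith
    · rw [if_neg h1]; linarith
  refine (sum_le_sum hpt).trans ?_
  rw [sum_add_distrib, sum_add_distrib, sum_add_distrib, sum_add_distrib, sum_add_distrib]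
  have t0 : ∑ c ∈ U ok ℒ k, (if val P k c then wt (k + 1) c else 0) ≤ S ok ℒ (k + 1) := by
    rw [← sum_filter, S, W_succ]
    refine sum_le_sum_of_subset_of_nonneg ?_ (fun c _ _ => wt_nonneg _ c)
    intro c hc
    rw [mem_filter] at hc ⊢
    exact ⟨hc.1, hcomp c hc.2⟩
  have t1 : ∑ c ∈ U ok ℒ k, ∑ j ∈ range (k - 1), (if Bad k j c then wt (k + 1) c else 0) ≤
      ∑ j ∈ range (k - 1), S ok ℒ j := by
    rw [sum_comm]
    refine sum_le_sum fun j hj => ?_
    rw [← sum_filter]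
    have := mem_range.1 hj
    exact bad_bound hloc k j (by omega)
  have t2 : ∑ c ∈ U ok ℒ k, ∑ f ∈ P.F, (if Q1 P k f c then wt (k + 1) c else 0) ≤
      P.F.card * WN ok ℒ P k := by
    rw [sum_comm]
    refine (sum_le_sum fun f _ => Q1_bound hloc hs f).trans ?_
    rw [sum_const, nsmul_eq_mul]
  have t3 : ∑ c ∈ U ok ℒ k, ∑ j ∈ range (k + 1), (if Q2 P k j c then wt (k + 1) c else 0) ≤
      (k + 1) * WN ok ℒ P k := by
    rw [sum_comm]
    refine (sum_le_sum fun f _ => Q2_bound hloc hs f).trans ?_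
    rw [sum_const, nsmul_eq_mul, card_range]
    push_cast; exact le_rfl
  have t4 : ∑ c ∈ U ok ℒ k, ∑ j ∈ range (k + 1), (if Q3 P k j c then wt (k + 1) c else 0) ≤
      (k + 1) * WN ok ℒ P k := by
    rw [sum_comm]
    refine (sum_le_sum fun f _ => Q3_bound hloc hs f).trans ?_
    rw [sum_const, nsmul_eq_mul, card_range]
    push_cast; exact le_rfl
  have t5 := Q4_bound hloc (ℒ := ℒ) (P := P) (k := k)
  linarith

/-- words in state `xyx` -/
def aCount (ok : ℕ → (ℕ → ℕ) → Prop) (ℒ : ℕ → Finset ℕ) (m : ℕ) : ℚ :=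
  ∑ c ∈ W ok ℒ m, (if 3 ≤ m ∧ c (m - 1) = c (m - 3) then (1 : ℚ) else 0)

lemma N_eq_S (m : ℕ) : N ok ℒ m = S ok ℒ m + 3 / 11 * aCount ok ℒ m := by
  rw [N_eq, S, aCount, mul_sum, ← sum_add_distrib]
  refine sum_congr rfl fun c _ => ?_
  unfold wt
  split_ifs <;> norm_num

lemma aCount_le (hloc : Local ok) (hval : ∀ p c, ok p c → val P p c) (hT : 3 ≤ P.T) {m : ℕ} (_hm : 1 ≤ m) : aCount ok ℒ m ≤ S ok ℒ (m - 1) := by
  rw [aCount, ← sum_filter, S]
  refine inj_bound (m := m) (j := m - 1) (W ok ℒ (m - 1)) ?_ ?_ ?_ _ _ ?_ ?_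
  · intro c hc i hi
    rw [mem_filter, mem_W] at hc
    exact hc.1.1.2 i hi
  · intro c hc
    rw [mem_filter] at hc
    exact trunc_W hloc hc.1 (by omega)
  · intro c hc c' hc' heq i h1 h2
    rw [mem_filter] at hc hc'
    have e : i = m - 1 := by omega
    subst e
    rw [hc.2.2, hc'.2.2]
    exact heq _ (by omega)
  · intro c hc
    rw [mem_filter, mem_W] at hc
    unfold wt
    rw [if_neg]
    simp only [trunc]
    rintro ⟨h3, h⟩
    rw [if_pos (by omega), if_pos (by omega)] at h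
    obtain ⟨i, hi, hne⟩ := (hval _ _ (hc.1.2 (m - 1) (by omega))).1 2 (m - 4) (by norm_num) (by omega) (by omega)
    have h3 := hc.2.2
    have e1 : m - 1 - 1 = m - 2 := by omega
    have e2 : m - 1 - 3 = m - 4 := by omega
    rw [e1, e2] at h
    interval_cases i
    · apply hne
      have e3 : m - 4 + 0 = m - 4 := by omega
      have e4 : m - 4 + 2 + 0 = m - 2 := by omega
      rw [e3, e4]; exact h.symm
    · apply hne
      have e3 : m - 4 + 1 = m - 3 := by omega
      have e4 : m - 4 + 2 + 1 = m - 1 := by omega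
      rw [e3, e4]; exact h3.symm
  · intro v _; exact wt_nonneg _ _

lemma N_le (hloc : Local ok) (hval : ∀ p c, ok p c → val P p c) (hT : 3 ≤ P.T) (m : ℕ) : N ok ℒ (m + 1) ≤ S ok ℒ (m + 1) + 3 / 11 * S ok ℒ m := by
  rw [N_eq_S]
  have := aCount_le (ℒ := ℒ) hloc hval hT (m := m + 1) (by omega)
  rw [show m + 1 - 1 = m by omega] at this
  linarith

lemma S_zero : S ok ℒ 0 = 1 := by
  have : W ok ℒ 0 = {fun _ => 0} := by
    ext c
    rw [mem_W, mem_singleton]
    constructor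
    · rintro ⟨⟨_, h⟩, _⟩
      funext k
      exact h k (by omega)
    · rintro rfl
      exact ⟨⟨fun k hk => absurd hk (by omega), fun k _ => rfl⟩, fun p hp => absurd hp (by omega)⟩
  rw [S, this, sum_singleton]
  simp [wt]

lemma N_zero : N ok ℒ 0 = 1 := by
  have h1 := S_zero (ℒ := ℒ) (ok := ok)
  rw [N_eq_S, h1]
  simp [aCount]

end
end Pool.Agent.H401R3.SD.Wd
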