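import Pool.Agent.H409R3.Sub.Stmts
import Pool.Agent.H378R3.ND.Frame

set_option autoImplicit false

/-! Counting of words from lists of size four: growth with forbidden windows. -/

namespace Pool.Agent.H401R3.SD.Wd
open Finset
open scoped Classical
open Pool.Agent.H409R3.Sub (win)
open Pool.Agent.H378R3.ND hiding inj_bound

noncomputable section

variable {ok : ℕ → (ℕ → ℕ) → Prop} {ℒ : ℕ → Finset ℕ}

/-- parameters: bound for the half-length of squares, window length, forbidden windows,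
forbidden factor of length five -/
structure Par where
  T : ℕ
  s : ℕ
  F : Finset (List ℕ)
  G : List ℕ

/-- the word `c` is good at its letter number `p` -/
def val (P : Par) (p : ℕ) (c : ℕ → ℕ) : Prop :=
  (∀ t a, 1 ≤ t → t < P.T → a + 2 * t = p + 1 → ∃ i < t, c (a + i) ≠ c (a + t + i)) ∧
  (∀ a, a + P.s = p + 1 → win c P.s a ∉ P.F) ∧
  (∀ j a, a + P.s = p + 1 → j + P.s ≤ a →
    win c P.s j ≠ win c P.s a ∧ win c P.s j ≠ (win c P.s a).reverse) ∧
  (∀ a, a + 5 = p + 1 → win c 5 a ≠ P.G)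

lemma win_congr {c c' : ℕ → ℕ} {s a : ℕ} (h : ∀ i, a ≤ i → i < a + s → c i = c' i) :
    win c s a = win c' s a := by
  unfold win
  apply List.map_congr_left
  intro r hr
  have := List.mem_range.1 hr
  exact h _ (by omega) (by omega)

lemma win_eq {c c' : ℕ → ℕ} {s a b : ℕ} (h : win c s a = win c' s b) : ∀ r < s, c (a + r) = c' (b + r) := by
  intro r hr
  unfold win at h
  have := List.map_inj_left.1 h r (List.mem_range.2 hr)
  exact this

lemma win_rev_eq {c c' : ℕ → ℕ} {s a b : ℕ} (h : win c s a = (win c' s b).reverse) :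
    ∀ r < s, c (a + r) = c' (b + (s - 1 - r)) := by
  intro r hr
  unfold win at h
  have h2 := congrArg (fun l => l[r]?) h
  simp only [List.getElem?_map] at h2
  rw [List.getElem?_reverse (by simpa using hr)] at h2
  simp only [List.getElem?_map, List.length_map, List.length_range] at h2
  rw [List.getElem?_range hr, List.getElem?_range (by omega)] at h2
  simpa using h2

lemma val_congr {P : Par} {p : ℕ} {c c' : ℕ → ℕ} (h : ∀ i ≤ p, c i = c' i) (hv : val P p c) :
    val P p c' := by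
  refine ⟨fun t a ht ht' ha => ?_, fun a ha => ?_, fun j a ha hj => ?_, fun a ha => ?_⟩
  · obtain ⟨i, hi, hne⟩ := hv.1 t a ht ht' ha
    exact ⟨i, hi, by rwa [← h _ (by omega), ← h _ (by omega)]⟩
  · rw [← win_congr (c := c) (fun i _ hi => h i (by omega))]
    exact hv.2.1 a ha
  · rw [← win_congr (c := c) (c' := c') (a := j) (fun i _ hi => h i (by omega)),
      ← win_congr (c := c) (c' := c') (a := a) (fun i _ hi => h i (by omega))]
    exact hv.2.2.1 j a ha hj
  · rw [← win_congr (c := c) (fun i _ hi => h i (by omega))]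
    exact hv.2.2.2 a ha

variable {P : Par}

/-- the basic injection bound -/
lemma inj_bound {B : Finset (ℕ → ℕ)} {m j : ℕ} (A : Finset (ℕ → ℕ))
    (hB0 : ∀ c ∈ B, ∀ k, m ≤ k → c k = 0) (hBW : ∀ c ∈ B, trunc j c ∈ A)
    (hinj : ∀ c ∈ B, ∀ c' ∈ B, (∀ k < j, c k = c' k) → ∀ k, j ≤ k → k < m → c k = c' k)
    (f g : (ℕ → ℕ) → ℚ) (hfg : ∀ c ∈ B, f c ≤ g (trunc j c)) (hg : ∀ v ∈ A, 0 ≤ g v) :
    ∑ c ∈ B, f c ≤ ∑ v ∈ A, g v := by
  calc ∑ c ∈ B, f c ≤ ∑ c ∈ B, g (trunc j c) := sum_le_sum hfg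
    _ = ∑ v ∈ B.image (trunc j), g v := by
        rw [sum_image]
        intro c hc c' hc' h
        funext k
        have hlt : ∀ k < j, c k = c' k := by
          intro k hk
          have := congrFun h k
          simpa [trunc, hk] using this
        by_cases h1 : k < j
        · exact hlt k h1
        · by_cases h2 : k < m
          · exact hinj c hc c' hc' hlt k (by omega) h2
          · rw [hB0 c hc k (by omega), hB0 c' hc' k (by omega)]
    _ ≤ ∑ v ∈ A, g v := by
        apply sum_le_sum_of_subset_of_nonneg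
        · intro v hv
          obtain ⟨c, hc, rfl⟩ := mem_image.mp hv
          exact hBW c hc
        · intro v hv _; exact hg v hv

/-- weight of a word of length `m` -/
def wt (m : ℕ) (c : ℕ → ℕ) : ℚ := if 3 ≤ m ∧ c (m - 1) = c (m - 3) then 8 / 11 else 1

lemma wt_nonneg (m : ℕ) (c : ℕ → ℕ) : 0 ≤ wt m c := by
  unfold wt; split_ifs <;> norm_num

lemma wt_le_one (m : ℕ) (c : ℕ → ℕ) : wt m c ≤ 1 := by
  unfold wt; split_ifs <;> norm_num

/-- weighted number of words -/
def S (ok : ℕ → (ℕ → ℕ) → Prop) (ℒ : ℕ → Finset ℕ) (m : ℕ) : ℚ := ∑ c ∈ W ok ℒ m, wt m c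

lemma S_nonneg (m : ℕ) : 0 ≤ S ok ℒ m := sum_nonneg fun _ _ => wt_nonneg m _


lemma S_le_N (m : ℕ) : S ok ℒ m ≤ N ok ℒ m := by
  rw [N_eq, S]
  exact sum_le_sum fun _ _ => wt_le_one _ _

lemma sum_ind_le (A : Finset ℕ) (p : ℕ) : ∑ x ∈ A, (if x = p then (1 : ℚ) else 0) ≤ 1 := by
  rw [sum_ite_eq']; split_ifs <;> norm_num

lemma list_sum (A : Finset ℕ) (hA : 4 ≤ A.card) (p q : ℕ) (r : Prop) [Decidable r] :
    30 / 11 * (if r then (8 / 11 : ℚ) else 1) ≤
      ∑ x ∈ A, (if x ≠ p ∧ ¬ (x = q ∧ r) then (if x = q then (8 / 11 : ℚ) else 1) else 0) := by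
  have hA' : (4 : ℚ) ≤ A.card := by exact_mod_cast hA
  have h1 := sum_ind_le A p
  have h2 := sum_ind_le A q
  by_cases h : r
  · rw [if_pos h]
    have key : ∀ x ∈ A, (1 : ℚ) - (if x = p then (1 : ℚ) else 0) - (if x = q then (1 : ℚ) else 0) ≤
        (if x ≠ p ∧ ¬ (x = q ∧ r) then (if x = q then (8 / 11 : ℚ) else 1) else 0) := by
      intro x _
      by_cases hp : x = p <;> by_cases hq : x = q <;> simp [hp, hq, h] <;> split_ifs <;> norm_num
    have := sum_le_sum key
    rw [sum_sub_distrib, sum_sub_distrib, sum_const, nsmul_eq_mul, mul_one] at this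
    linarith
  · rw [if_neg h]
    have key : ∀ x ∈ A, (1 : ℚ) - (if x = p then (1 : ℚ) else 0) -
        3 / 11 * (if x = q then (1 : ℚ) else 0) ≤
        (if x ≠ p ∧ ¬ (x = q ∧ r) then (if x = q then (8 / 11 : ℚ) else 1) else 0) := by
      intro x _
      by_cases hp : x = p <;> by_cases hq : x = q <;> simp [hp, hq, h] <;> split_ifs <;> norm_num
    have := sum_le_sum key
    rw [sum_sub_distrib, sum_sub_distrib, sum_const, nsmul_eq_mul, mul_one, ← mul_sum] at this
    linarith

def sok (k : ℕ) (c : ℕ → ℕ) : Prop :=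
  (1 ≤ k → c k ≠ c (k - 1)) ∧ ¬ (3 ≤ k ∧ c k = c (k - 2) ∧ c (k - 1) = c (k - 3))

lemma short_grow (hloc : Local ok) {k : ℕ} (hL : 4 ≤ (ℒ k).card) :
    30 / 11 * S ok ℒ k ≤ ∑ c ∈ U ok ℒ k, (if sok k c then wt (k + 1) c else 0) := by
  rw [sum_U hloc, S, mul_sum]
  refine sum_le_sum fun w _ => ?_
  rcases Nat.eq_zero_or_pos k with h0 | hpos
  · subst h0
    have h1 : ∀ x ∈ ℒ 0, (if sok 0 (Function.update w 0 x) then wt (0 + 1) (Function.update w 0 x) else 0) = 1 := by
      intro x _
      rw [if_pos (by simp [sok])]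
      simp [wt]
    rw [sum_congr rfl h1, sum_const, nsmul_eq_mul, mul_one]
    have h2 : (4 : ℚ) ≤ (ℒ 0).card := by exact_mod_cast hL
    have h3 : wt 0 w = 1 := by simp [wt]
    rw [h3]
    linarith
  · have f1 : ∀ x, Function.update w k x k = x := fun x => Function.update_self _ _ _
    have e1 : ∀ x, Function.update w k x (k - 1) = w (k - 1) :=
      fun x => Function.update_of_ne (by omega) _ _
    rcases Nat.lt_or_ge k 2 with h2 | h2
    · obtain rfl : k = 1 := by omega
      refine (?_ : 30 / 11 * wt 1 w ≤ 30 / 11 * (if False then (8 / 11 : ℚ) else 1)).trans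
        ((list_sum (ℒ 1) hL (w 0) (w 0) False).trans (sum_le_sum fun x _ => ?_))
      · rw [if_neg (by simp)]
        have := wt_le_one 1 w
        linarith
      · have h3 : wt (1 + 1) (Function.update w 1 x) = 1 := by simp [wt]
        rw [h3]
        have e0 : Function.update w 1 x 0 = w 0 := Function.update_of_ne (by omega) _ _
        by_cases hx : x = w 0
        · rw [if_neg (by simp [hx])]
          split_ifs <;> norm_num
        · rw [if_pos (by simp [hx]), if_neg hx, if_pos]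
          refine ⟨fun _ => ?_, by omega⟩
          rw [f1, show 1 - 1 = 0 by rfl, e0]; exact hx
    · have e2 : ∀ x, Function.update w k x (k - 2) = w (k - 2) :=
        fun x => Function.update_of_ne (by omega) _ _
      have e3 : ∀ x, Function.update w k x (k - 3) = w (k - 3) :=
        fun x => Function.update_of_ne (by omega) _ _
      have := list_sum (ℒ k) hL (w (k - 1)) (w (k - 2)) (3 ≤ k ∧ w (k - 1) = w (k - 3))
      have hww : wt k w = if 3 ≤ k ∧ w (k - 1) = w (k - 3) then (8 / 11 : ℚ) else 1 := rfl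
      rw [hww]
      refine this.trans (le_of_eq (sum_congr rfl fun x _ => ?_))
      have g1 : (sok k (Function.update w k x)) ↔ (x ≠ w (k - 1) ∧
          ¬ (x = w (k - 2) ∧ 3 ≤ k ∧ w (k - 1) = w (k - 3))) := by
        unfold sok
        rw [f1, e1, e2, e3]
        constructor
        · rintro ⟨h4, h5⟩
          exact ⟨h4 hpos, fun h6 => h5 ⟨h6.2.1, h6.1, h6.2.2⟩⟩
        · rintro ⟨h4, h5⟩
          exact ⟨fun _ => h4, fun h6 => h5 ⟨h6.2.1, h6.1, h6.2.2⟩⟩
      have g2 : wt (k + 1) (Function.update w k x) = if x = w (k - 2) then (8 / 11 : ℚ) else 1 := by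
        unfold wt
        have h6 : k + 1 - 1 = k := by omega
        have h7 : k + 1 - 3 = k - 2 := by omega
        rw [h6, h7, f1, e2]
        simp [show 3 ≤ k + 1 by omega]
      rw [g2]
      by_cases hg : sok k (Function.update w k x)
      · rw [if_pos hg, if_pos (g1.1 hg)]
      · rw [if_neg hg, if_neg (fun h => hg (g1.2 h))]

/-- a square of half-length `k + 1 - j` ends at `k` -/
def Bad (k j : ℕ) (c : ℕ → ℕ) : Prop :=
  3 ≤ k + 1 - j ∧ k + 1 ≤ 2 * j ∧ ∀ i < k + 1 - j, c (2 * j - (k + 1) + i) = c (j + i)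

lemma bad_bound (hloc : Local ok) (k j : ℕ) (hj : j ≤ k) :
    ∑ c ∈ (U ok ℒ k).filter (Bad k j), wt (k + 1) c ≤ S ok ℒ j := by
  refine inj_bound (m := k + 1) (j := j) (W ok ℒ j) ?_ ?_ ?_ _ _ ?_ ?_
  · intro c hc i hi
    rw [mem_filter, mem_U] at hc
    exact hc.1.1.2 i hi
  · intro c hc
    rw [mem_filter] at hc
    exact trunc_U hloc hc.1 hj
  · intro c hc c' hc' heq i h1 h2
    rw [mem_filter] at hc hc'
    obtain ⟨_, b1, b2, b3⟩ := hc
    obtain ⟨_, _, _, b4⟩ := hc'
    have e1 : j + (i - j) = i := by omega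
    have h5 := b3 (i - j) (by omega)
    have h6 := b4 (i - j) (by omega)
    rw [e1] at h5 h6
    rw [← h5, ← h6]
    exact heq _ (by omega)
  · intro c hc
    rw [mem_filter] at hc
    obtain ⟨_, b1, b2, b3⟩ := hc
    apply le_of_eq
    have h1 := b3 (k - j) (by omega)
    have h2 := b3 (k - 2 - j) (by omega)
    have e1 : 2 * j - (k + 1) + (k - j) = j - 1 := by omega
    have e2 : j + (k - j) = k := by omega
    have e3 : 2 * j - (k + 1) + (k - 2 - j) = j - 3 := by omega
    have e4 : j + (k - 2 - j) = k - 2 := by omega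
    rw [e1, e2] at h1
    rw [e3, e4] at h2
    have e5 : k + 1 - 1 = k := by omega
    have e6 : k + 1 - 3 = k - 2 := by omega
    simp only [wt, trunc, e5, e6, if_pos (show j - 1 < j by omega), if_pos (show j - 3 < j by omega),
      h1, h2, show 3 ≤ k + 1 by omega, show 3 ≤ j by omega]
  · intro v _; exact wt_nonneg _ _

/-- words whose last letters from `j` on are determined -/
lemma det_bound (hloc : Local ok) {k j : ℕ} {Q : (ℕ → ℕ) → Prop} (hj : j ≤ k)
    (hQ : ∀ c c', Q c → Q c' → (∀ i < j, c i = c' i) → ∀ i, j ≤ i → i < k + 1 → c i = c' i) :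
    ∑ c ∈ (U ok ℒ k).filter Q, wt (k + 1) c ≤ N ok ℒ j := by
  rw [N_eq]
  refine inj_bound (m := k + 1) (j := j) (W ok ℒ j) ?_ ?_ ?_ _ _ ?_ ?_
  · intro c hc i hi
    rw [mem_filter, mem_U] at hc
    exact hc.1.1.2 i hi
  · intro c hc
    rw [mem_filter] at hc
    exact trunc_U hloc hc.1 hj
  · intro c hc c' hc' heq i h1 h2
    rw [mem_filter] at hc hc'
    exact hQ c c' hc.2 hc'.2 heq i h1 h2
  · intro c _; exact wt_le_one _ _
  · intro v _; norm_num

end
end Pool.Agent.H401R3.SD.Wd
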