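import Pool.Agent.H401R3.SD.Edge

set_option autoImplicit false

namespace Pool.Agent.H401R3.SD.Wd
open Finset
open scoped Classical
open Pool.Agent.H409R3.Sub (win Leg join GoodEdge WordLemma)
open Pool.Agent.H378R3.ND hiding inj_bound

noncomputable section

lemma win_shift (c : ℕ → ℕ) (s i : ℕ) (hi : 1 ≤ i) : win (fun i => c (i - 1)) s i = win c s (i - 1) := by
  unfold win
  apply List.map_congr_left
  intro r _
  show c (i + r - 1) = c (i - 1 + r)
  congr 1; omega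

/-- one edge -/
theorem edge {a b : ℕ} {Lx Ly : ℕ → Finset ℕ} {s Kc : ℕ} {F : Finset (List ℕ)} (hs : 11 ≤ s)
    (hLx : ∀ k, (Lx k).card = 4) (hLy : ∀ k, (Ly k).card = 4)
    (hPx : ProvX a (fun k => Lx (k + 1)) s Kc) (hPy : ProvY b (fun k => Ly (k + 1)) s Kc)
    (hF : F.card + 8 * (40 * s + 1) ≤ Kc)
    (hw : (10 * F.card + 20 * (40 * s : ℕ)) * (1 + 3 / (11 * (477 / 200 : ℚ))) ≤
      1 / 1000 * (477 / 200) ^ (s - 10)) :
    ∃ x y : ℕ → ℕ, GoodEdge s (40 * s) Lx Ly a b F x y := by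
  obtain ⟨M, hM⟩ : ∃ M, M = 40 * s := ⟨_, rfl⟩
  -- the right words
  have hY : ∀ p : ℕ, ∃ Y, p ∈ Ly (40 * s - 1 + 1) → YW b (fun k => Ly (k + 1)) s F p Y := by
    intro p
    by_cases hp : p ∈ Ly (40 * s - 1 + 1)
    · obtain ⟨Y, hY⟩ := exists_YW (al := b) (ℒ := fun k => Ly (k + 1)) hs (fun k => hLy _) hPy
        (by omega) hw hp
      exact ⟨Y, fun _ => hY⟩
    · exact ⟨fun _ => 0, fun h => absurd h hp⟩
  choose Yf hYf using hY
  obtain ⟨A, hA⟩ : ∃ A, A = Ly (40 * s - 1 + 1) := ⟨_, rfl⟩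
  have hAc : A.card = 4 := by rw [hA]; exact hLy _
  obtain ⟨F', hF'⟩ : ∃ F' : Finset (List ℕ), F' = F ∪ ((A ×ˢ range (M + 1)).image
    (fun q => win (Yf q.1) s q.2) ∪ (A ×ˢ range (M + 1)).image (fun q => (win (Yf q.1) s q.2).reverse)) :=
    ⟨_, rfl⟩
  have hF'c : F'.card ≤ Kc := by
    have h1 : ((A ×ˢ range (M + 1)).image (fun q => win (Yf q.1) s q.2)).card ≤ 4 * (M + 1) := by
      refine card_image_le.trans ?_
      rw [card_product, hAc, card_range]
    have h2 : ((A ×ˢ range (M + 1)).image (fun q => (win (Yf q.1) s q.2).reverse)).card ≤ 4 * (M + 1) := by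
      refine card_image_le.trans ?_
      rw [card_product, hAc, card_range]
    rw [hF']
    have h3 := card_union_le F (((A ×ˢ range (M + 1)).image
      (fun q => win (Yf q.1) s q.2) ∪ (A ×ˢ range (M + 1)).image (fun q => (win (Yf q.1) s q.2).reverse)))
    have h4 := card_union_le ((A ×ˢ range (M + 1)).image (fun q => win (Yf q.1) s q.2))
      ((A ×ˢ range (M + 1)).image (fun q => (win (Yf q.1) s q.2).reverse))
    omega
  obtain ⟨ok, hval, hleg, hE⟩ := hPx F' hF'c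
  rw [← hM] at hE hleg
  obtain ⟨p, hpA, hp4⟩ := exists_letter (ok := ok) (ℒ := fun k => Lx (k + 1)) A hAc.ge M
  have hYp := hYf p (by rw [← hA]; exact hpA)
  obtain ⟨Y, hYd⟩ : ∃ Y, Y = Yf p := ⟨_, rfl⟩
  rw [← hYd] at hYp
  obtain ⟨z, hz⟩ : ∃ z : ℕ → ℕ, z = fun j => Y (40 * s - 1 - j) := ⟨_, rfl⟩
  have hzx : ZX z (12 * s) := by rw [hz]; exact hYp.zx
  have z0 : z 0 = p := by rw [hz]; show Y (40 * s - 1 - 0) = p; rw [Nat.sub_zero]; exact hYp.last
  obtain ⟨κ, hκ⟩ : ∃ κ : ℚ, κ = 1 + 3 / (11 * (61 / 25)) := ⟨_, rfl⟩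
  have hκ0 : 0 < κ := by rw [hκ]; norm_num
  have hS := hE.pos
  have hSN : S ok (fun k => Lx (k + 1)) M ≤ N ok (fun k => Lx (k + 1)) M := S_le_N M
  have hB := Bc_le (T := 12 * s) (Λ := M) (z := z) hE (by norm_num) (by omega)
  rw [← hκ] at hB
  have hg := gx (q := 1 / (61 / 25)) (z := z) (Λ := M) (T := 12 * s) (by norm_num) hzx (by omega)
  have hB2 : Bc ok (fun k => Lx (k + 1)) (12 * s) M M z ≤ κ * (2037 / 10000) * S ok (fun k => Lx (k + 1)) M := by
    refine hB.trans ?_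
    have : 0 ≤ κ * S ok (fun k => Lx (k + 1)) M := by positivity
    have := mul_le_mul_of_nonneg_left hg this
    linarith only [this]
  have hAA := hE.hA
  have hFc : Fc ok (fun k => Lx (k + 1)) M (z 0) ≤ 1 / 4 * N ok (fun k => Lx (k + 1)) M +
      (κ * ((61 / 25 : ℚ) ^ 2 / (61 / 25 - 1) ^ 2 - 1) + 1 / 10000) / 4 * S ok (fun k => Lx (k + 1)) M := by
    rw [z0, hκ]
    linarith only [hAA, hp4]
  have hnum : (κ * ((61 / 25 : ℚ) ^ 2 / (61 / 25 - 1) ^ 2 - 1) + 1 / 10000) / 4 + κ * (2037 / 10000) < 3 / 4 := by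
    rw [hκ]; norm_num
  have hlt : Fc ok (fun k => Lx (k + 1)) M (z 0) + Bc ok (fun k => Lx (k + 1)) (12 * s) M M z + 0 <
      N ok (fun k => Lx (k + 1)) M := by
    have h1 := mul_lt_mul_of_pos_right hnum hS
    linarith only [h1, hFc, hB2, hSN]
  obtain ⟨c, hc, -, hsq⟩ := close_exists (T := 12 * s) (Λ := M) (z := z) (E := fun _ => True) hE.loc
    (X := 0) (by simp) hlt
  have hc' := mem_W.1 hc
  have hvc : ∀ q < M, val ⟨12 * s, s, F', []⟩ q c := fun q hq => hval q c (hc'.2 q hq)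
  have hFsub : F ⊆ F' := by rw [hF']; exact subset_union_left
  have hwY : ∀ j, j ≤ M → win Y s j ∈ F' := by
    intro j hj
    rw [hF']
    refine mem_union_right _ (mem_union_left _ (mem_image.2 ⟨(p, j), ?_, by rw [hYd]⟩))
    exact mem_product.2 ⟨hpA, mem_range.2 (by omega)⟩
  have hwYr : ∀ j, j ≤ M → (win Y s j).reverse ∈ F' := by
    intro j hj
    rw [hF']
    refine mem_union_right _ (mem_union_right _ (mem_image.2 ⟨(p, j), ?_, by rw [hYd]⟩))
    exact mem_product.2 ⟨hpA, mem_range.2 (by omega)⟩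
  rw [← hM]
  refine ⟨fun i => c (i - 1), fun i => Y (i - 1), ?_⟩
  refine ⟨?_, ?_, hleg c hc, hYp.leg, ?_, ?_, ?_, ?_, ?_, ?_⟩
  · intro i h1 h2
    have := hc'.1.1 (i - 1) (by omega)
    simpa [show i - 1 + 1 = i by omega] using this
  · intro i h1 h2
    have := hYp.mem (i - 1) (by omega)
    simpa [show i - 1 + 1 = i by omega] using this
  · intro t i ht htT hi hit
    have hj : ∀ j, 1 ≤ j → j ≤ 2 * M → join M (fun i => c (i - 1)) (fun i => Y (i - 1)) j = cat M c z (j - 1) := by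
      intro j hj1 hj2
      unfold join cat
      by_cases h : j ≤ M
      · rw [if_pos h, if_pos (by omega)]
      · rw [if_neg h, if_neg (by omega), hz]
        show Y (2 * M + 1 - j - 1) = Y (40 * s - 1 - (j - 1 - M))
        congr 1; omega
    rcases Nat.lt_or_ge M (i - 1 + 2 * t) with h | h
    · rcases Nat.lt_or_ge (i - 1) M with h' | h'
      · obtain ⟨r, hr, hne⟩ := hsq t (i - 1) ht htT h' h (by omega)
        refine ⟨r, hr, ?_⟩
        rw [hj _ (by omega) (by omega), hj _ (by omega) (by omega), show i + r - 1 = i - 1 + r by omega,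
          show i + t + r - 1 = i - 1 + t + r by omega]
        exact hne
      · obtain ⟨r, hr, hne⟩ := (hYp.ok (2 * M - (i - 1) - 1) (by omega)).1 t (2 * M - (i - 1) - 2 * t) ht htT
          (by omega)
        refine ⟨t - 1 - r, by omega, ?_⟩
        rw [hj _ (by omega) (by omega), hj _ (by omega) (by omega), cat_ge (by omega), cat_ge (by omega), hz]
        show Y (40 * s - 1 - (i + (t - 1 - r) - 1 - M)) ≠ Y (40 * s - 1 - (i + t + (t - 1 - r) - 1 - M))
        rw [show 40 * s - 1 - (i + (t - 1 - r) - 1 - M) = 2 * M - (i - 1) - 2 * t + t + r by omega,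
          show 40 * s - 1 - (i + t + (t - 1 - r) - 1 - M) = 2 * M - (i - 1) - 2 * t + r by omega]
        exact hne.symm
    · obtain ⟨r, hr, hne⟩ := (hvc (i - 1 + 2 * t - 1) (by omega)).1 t (i - 1) ht htT (by omega)
      refine ⟨r, hr, ?_⟩
      rw [hj _ (by omega) (by omega), hj _ (by omega) (by omega), cat_lt (by omega), cat_lt (by omega),
        show i + r - 1 = i - 1 + r by omega, show i + t + r - 1 = i - 1 + t + r by omega]
      exact hne
  · intro i h1 h2 hmem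
    rw [win_shift c s i h1] at hmem
    exact (hvc (i - 1 + s - 1) (by omega)).2.1 (i - 1) (by show i - 1 + s = i - 1 + s - 1 + 1; omega) (hFsub hmem)
  · intro i h1 h2 hmem
    rw [win_shift Y s i h1] at hmem
    exact (hYp.ok (i - 1 + s - 1) (by omega)).2.1 (i - 1) (by show i - 1 + s = i - 1 + s - 1 + 1; omega) hmem
  · intro i j h1 h2 h3
    rw [win_shift c s i h1, win_shift c s j (by omega)]
    exact (hvc (j - 1 + s - 1) (by omega)).2.2.1 (i - 1) (j - 1)
      (by show j - 1 + s = j - 1 + s - 1 + 1; omega) (by show i - 1 + s ≤ j - 1; omega)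
  · intro i j h1 h2 h3
    rw [win_shift Y s i h1, win_shift Y s j (by omega)]
    exact (hYp.ok (j - 1 + s - 1) (by omega)).2.2.1 (i - 1) (j - 1)
      (by show j - 1 + s = j - 1 + s - 1 + 1; omega) (by show i - 1 + s ≤ j - 1; omega)
  · intro i j h1 h2 h3 h4
    rw [win_shift c s i h1, win_shift Y s j h3]
    have hv := (hvc (i - 1 + s - 1) (by omega)).2.1 (i - 1) (by show i - 1 + s = i - 1 + s - 1 + 1; omega)
    constructor
    · intro h
      exact hv (h ▸ hwY (j - 1) (by omega))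
    · intro h
      exact hv (h ▸ hwYr (j - 1) (by omega))

/-- exponentials beat linear functions -/
lemma exp_lin (C : ℚ) : ∃ s0 : ℕ, ∀ s ≥ s0, C * s ≤ 1 / 1000 * (477 / 200 : ℚ) ^ (s - 10) := by
  obtain ⟨n, hn⟩ := exists_nat_gt (|C| * 10000)
  refine ⟨2 * (n + 10) + 20, fun s hs => ?_⟩
  -- (477/200)^(s-10) ≥ 2^(s-10) ≥ (s-10)*... use Bernoulli twice
  obtain ⟨k, hk⟩ : ∃ k, s - 10 = 2 * k ∨ s - 10 = 2 * k + 1 := ⟨(s - 10) / 2, by omega⟩
  have hk1 : (k : ℚ) + 1 ≤ 2 ^ k := by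
    have := Nat.lt_two_pow_self (n := k)
    have h2 : k + 1 ≤ 2 ^ k := this
    exact_mod_cast h2
  have hpow : ((k : ℚ) + 1) * (k + 1) ≤ (477 / 200 : ℚ) ^ (s - 10) := by
    calc ((k : ℚ) + 1) * (k + 1) ≤ 2 ^ k * 2 ^ k := mul_le_mul hk1 hk1 (by positivity) (by positivity)
      _ = 2 ^ (2 * k) := by ring
      _ ≤ (477 / 200 : ℚ) ^ (2 * k) := pow_le_pow_left₀ (by norm_num) (by norm_num) _
      _ ≤ (477 / 200 : ℚ) ^ (s - 10) := pow_le_pow_right₀ (by norm_num) (by omega)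
  have hkn : (n : ℚ) ≤ k := by
    have : n ≤ k := by omega
    exact_mod_cast this
  have hsk : (s : ℚ) ≤ 4 * (k + 1) := by
    have : s ≤ 4 * (k + 1) := by omega
    exact_mod_cast this
  have hC : C ≤ |C| := le_abs_self C
  have hC0 : 0 ≤ |C| := abs_nonneg C
  have hs0 : (0 : ℚ) ≤ s := by positivity
  have h1 : C * s ≤ |C| * (4 * (k + 1)) :=
    (mul_le_mul_of_nonneg_right hC hs0).trans (mul_le_mul_of_nonneg_left hsk hC0)
  have h2 : |C| * 10000 ≤ k + 1 := by linarith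
  have h3 : (0 : ℚ) ≤ (k : ℚ) + 1 := by positivity
  have h4 : |C| * 10000 * (k + 1) ≤ (k + 1) * (k + 1) := mul_le_mul_of_nonneg_right h2 h3
  nlinarith

theorem wordLemma_of_provider (hP : Provider) : WordLemma := by
  intro m
  obtain ⟨s0, hs0⟩ := hP (m * 40 + 330)
  obtain ⟨s1, hs1⟩ := exp_lin ((10 * (m * 40) + 800) * (1 + 3 / (11 * (477 / 200 : ℚ))))
  obtain ⟨s, hs⟩ : ∃ s, s = s0 + s1 + 11 := ⟨_, rfl⟩
  refine ⟨s, 40 * s, by omega, by omega, ?_⟩
  intro Lx Ly a b F hLx hLy hF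
  have hPx := (hs0 s (by omega) (fun k => Lx (k + 1)) a (fun k => hLx _)).1
  have hPy := (hs0 s (by omega) (fun k => Ly (k + 1)) b (fun k => hLy _)).2
  have h1 := hs1 s (by omega)
  refine edge (Kc := (m * 40 + 330) * s) (by omega) hLx hLy hPx hPy ?_ ?_
  · have e1 : (m * 40 + 330) * s = m * (40 * s) + 330 * s := by ring
    rw [e1]
    omega
  · have hFq : (F.card : ℚ) ≤ m * (40 * s) := by exact_mod_cast hF
    refine le_trans ?_ h1
    have e2 : (10 * (F.card : ℚ) + 20 * ((40 * s : ℕ) : ℚ)) ≤ (10 * (m * 40) + 800) * s := by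
      push_cast
      nlinarith
    have e3 : (0 : ℚ) ≤ 1 + 3 / (11 * (477 / 200 : ℚ)) := by norm_num
    have e4 := mul_le_mul_of_nonneg_right e2 e3
    have e5 : ((10 * ((m : ℚ) * 40) + 800) * s) * (1 + 3 / (11 * (477 / 200 : ℚ))) =
        (10 * ((m : ℚ) * 40) + 800) * (1 + 3 / (11 * (477 / 200 : ℚ))) * s := by ring
    rw [e5] at e4
    exact e4

end
end Pool.Agent.H401R3.SD.Wd
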