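import Pool.Agent.H401R3.SD.YSide

set_option autoImplicit false

namespace Pool.Agent.H401R3.SD.Wd
open Finset
open scoped Classical
open Pool.Agent.H409R3.Sub (win)
open Pool.Agent.H378R3.ND hiding inj_bound

noncomputable section

variable {ok : ℕ → (ℕ → ℕ) → Prop} {ℒ : ℕ → Finset ℕ}

lemma win5_eq {x : ℕ → ℕ} {a w1 w2 w3 w4 w5 : ℕ} (h : win x 5 a = [w5, w4, w3, w2, w1]) :
    x a = w5 ∧ x (a + 1) = w4 ∧ x (a + 2) = w3 ∧ x (a + 3) = w2 ∧ x (a + 4) = w1 := by
  have e : win x 5 a = [x (a + 0), x (a + 1), x (a + 2), x (a + 3), x (a + 4)] := by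
    simp [win, List.range_succ]
  rw [e] at h
  simp only [List.cons.injEq, and_true, Nat.add_zero] at h
  exact h

lemma win_ne_nil {x : ℕ → ℕ} {a : ℕ} : win x 5 a ≠ [] := by
  intro h
  have := congrArg List.length h
  simp [win] at this

theorem ySide {T s M D : ℕ} {F : Finset (List ℕ)} {w1 w2 w3 w4 w5 : ℕ} (h5 : Five w1 w2 w3 w4 w5)
    (hL : ∀ k < M, 4 ≤ (ℒ k).card)
    (hG : ∀ p c, ok p c → 16 * s ≤ p → ∀ a, a + 5 = p + 1 → win c 5 a ≠ [w5, w4, w3, w2, w1])
    {ε : ℚ} (hE : EndFacts ok ℒ (477 / 200) ε (M - 10) D) (hD1 : T ≤ D + 1) (hD2 : s ≤ D) (hs : 11 ≤ s)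
    (hsM : s + 10 ≤ M) (hT : 10 ≤ T) (hε : ε ≤ 1 / 1000)
    (hw : (10 * F.card + 20 * M) * (1 + 3 / (11 * (477 / 200 : ℚ))) ≤ 1 / 1000 * (477 / 200) ^ (s - 10)) :
    ∃ c ∈ W ok ℒ (M - 10), ∃ w6 ∈ ℒ (M - 6), ∃ w7 ∈ ℒ (M - 7), ∃ w8 ∈ ℒ (M - 8), ∃ w9 ∈ ℒ (M - 9),
      ∃ w10 ∈ ℒ (M - 10), Ten w1 w2 w3 w4 w5 w6 w7 w8 w9 w10 ∧
      (∀ p, M - 10 ≤ p → p < M → val ⟨T, s, F, []⟩ p (cat (M - 10) c (zf w1 w2 w3 w4 w5 w6 w7 w8 w9 w10))) ∧
      ∀ a, 16 * s ≤ a + 4 → a + 5 ≤ M → a ≠ M - 5 →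
        win (cat (M - 10) c (zf w1 w2 w3 w4 w5 w6 w7 w8 w9 w10)) 5 a ≠ [w5, w4, w3, w2, w1] := by
  obtain ⟨m, hm⟩ : ∃ m, m = M - 10 := ⟨_, rfl⟩
  rw [← hm] at hE ⊢
  obtain ⟨w10, m10, hw10⟩ := exists_letter (ok := ok) (ℒ := ℒ) (ℒ m) (hL _ (by omega)) m
  obtain ⟨w6, m6, w7, m7, w8, m8, w9, m9, hTen⟩ := exists_ten (ℒ (M - 6)) (ℒ (M - 7)) (ℒ (M - 8))
    (ℒ (M - 9)) (hL _ (by omega)) (hL _ (by omega)) (hL _ (by omega)) (hL _ (by omega)) w1 w2 w3 w4 w5 w10 h5
  obtain ⟨z, hz⟩ : ∃ z, z = zf w1 w2 w3 w4 w5 w6 w7 w8 w9 w10 := ⟨_, rfl⟩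
  have z0 : z 0 = w10 := by rw [hz]; rfl
  have z1 : z 1 = w9 := by rw [hz]; rfl
  have z2 : z 2 = w8 := by rw [hz]; rfl
  have z3 : z 3 = w7 := by rw [hz]; rfl
  have z4 : z 4 = w6 := by rw [hz]; rfl
  have z5 : z 5 = w5 := by rw [hz]; rfl
  have z6 : z 6 = w4 := by rw [hz]; rfl
  have z7 : z 7 = w3 := by rw [hz]; rfl
  have z8 : z 8 = w2 := by rw [hz]; rfl
  have z9 : z 9 = w1 := by rw [hz]; rfl
  obtain ⟨κ, hκ⟩ : ∃ κ : ℚ, κ = 1 + 3 / (11 * (477 / 200)) := ⟨_, rfl⟩
  have hκ0 : 0 < κ := by rw [hκ]; norm_num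
  have hS := hE.pos
  have hSN : S ok ℒ m ≤ N ok ℒ m := S_le_N m
  -- bound for the windows
  have hν : ∀ i < 10, N ok ℒ (m + i + 1 - s) ≤ κ * S ok ℒ m / (477 / 200) ^ (s - 10) := by
    intro i hi
    have h1 := hE.hN (s - 1 - i) (by omega)
    rw [← hκ, show m - (s - 1 - i) = m + i + 1 - s by omega] at h1
    rw [le_div_iff₀ (by positivity)]
    have h2 : (477 / 200 : ℚ) ^ (s - 10) ≤ (477 / 200) ^ (s - 1 - i) :=
      pow_le_pow_right₀ (by norm_num) (by omega)
    have h3 := mul_le_mul_of_nonneg_right h2 (N_nonneg (ok := ok) (ℒ := ℒ) (m + i + 1 - s))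
    linarith only [h3, h1]
  have h4 : ∑ c ∈ W ok ℒ m, (if R4 m z [w5, w4, w3, w2, w1] c then (1 : ℚ) else 0) ≤
      κ * S ok ℒ m / (477 / 200) ^ 3 := by
    by_cases h91 : w9 = w1
    · refine (det_W (m := m) hE.loc (j := m - 3) (by omega) ?_).trans ?_
      · have key : ∀ c, (win (cat m c z) 5 (m - 3) = [w5, w4, w3, w2, w1] ∨
            win (cat m c z) 5 (m - 4) = [w5, w4, w3, w2, w1]) →
            c (m - 3) = w5 ∧ c (m - 2) = w4 ∧ c (m - 1) = w3 := by
          intro c hc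
          rcases hc with hc | hc
          · obtain ⟨a1, a2, a3, _, _⟩ := win5_eq hc
            rw [cat_lt (by omega)] at a1 a2 a3
            rw [show m - 3 + 1 = m - 2 by omega] at a2
            rw [show m - 3 + 2 = m - 1 by omega] at a3
            exact ⟨a1, a2, a3⟩
          · exfalso
            obtain ⟨_, _, _, _, a5⟩ := win5_eq hc
            rw [cat_ge (by omega), show m - 4 + 4 - m = 0 by omega, z0] at a5
            exact hTen.h9.1 (h91.trans a5.symm)
        intro c c' hc hc' _ k h1 h2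
        obtain ⟨a1, a2, a3⟩ := key c hc
        obtain ⟨b1, b2, b3⟩ := key c' hc'
        have : k = m - 3 ∨ k = m - 2 ∨ k = m - 1 := by omega
        rcases this with rfl | rfl | rfl
        · rw [a1, b1]
        · rw [a2, b2]
        · rw [a3, b3]
      · have h1 := hE.hN 3 (by omega)
        rw [← hκ] at h1
        rw [le_div_iff₀ (by positivity)]
        linarith only [h1]
    · refine (det_W (m := m) hE.loc (j := m - 4) (by omega) ?_).trans ?_
      · have key : ∀ c, (win (cat m c z) 5 (m - 3) = [w5, w4, w3, w2, w1] ∨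
            win (cat m c z) 5 (m - 4) = [w5, w4, w3, w2, w1]) →
            c (m - 4) = w5 ∧ c (m - 3) = w4 ∧ c (m - 2) = w3 ∧ c (m - 1) = w2 := by
          intro c hc
          rcases hc with hc | hc
          · exfalso
            obtain ⟨_, _, _, _, a5⟩ := win5_eq hc
            rw [cat_ge (by omega), show m - 3 + 4 - m = 1 by omega, z1] at a5
            exact h91 a5
          · obtain ⟨a1, a2, a3, a4, _⟩ := win5_eq hc
            rw [cat_lt (by omega)] at a1 a2 a3 a4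
            rw [show m - 4 + 1 = m - 3 by omega] at a2
            rw [show m - 4 + 2 = m - 2 by omega] at a3
            rw [show m - 4 + 3 = m - 1 by omega] at a4
            exact ⟨a1, a2, a3, a4⟩
        intro c c' hc hc' _ k h1 h2
        obtain ⟨a1, a2, a3, a4⟩ := key c hc
        obtain ⟨b1, b2, b3, b4⟩ := key c' hc'
        have : k = m - 4 ∨ k = m - 3 ∨ k = m - 2 ∨ k = m - 1 := by omega
        rcases this with rfl | rfl | rfl | rfl
        · rw [a1, b1]
        · rw [a2, b2]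
        · rw [a3, b3]
        · rw [a4, b4]
      · have h1 := hE.hN 4 (by omega)
        rw [← hκ] at h1
        rw [le_div_iff₀ (by positivity)]
        have h2 := N_nonneg (ok := ok) (ℒ := ℒ) (m - 4)
        have h3 : N ok ℒ (m - 4) * (477 / 200) ^ 3 ≤ (477 / 200) ^ 4 * N ok ℒ (m - 4) := by
          have : (477 / 200 : ℚ) ^ 3 ≤ (477 / 200) ^ 4 := by norm_num
          have := mul_le_mul_of_nonneg_right this h2
          linarith only [this]
        linarith only [h3, h1]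
  have hX := EY_bound (M := M) (F := F) hE.loc hs (by omega : s ≤ m) hν h4
  have hX2 : (10 * (F.card : ℚ) + 20 * M) * (κ * S ok ℒ m / (477 / 200) ^ (s - 10)) ≤ 1 / 1000 * S ok ℒ m := by
    rw [← hκ] at hw
    rw [← mul_div_assoc, div_le_iff₀ (by positivity)]
    have := mul_le_mul_of_nonneg_right hw hS.le
    linarith only [this]
  have hB := Bc_le (T := T) (Λ := 10) (z := z) hE (by norm_num) hD1
  rw [← hκ] at hB
  have hg := gy (q := 1 / (477 / 200)) (z := z) (T := T) (by norm_num) (by rw [hz]; exact zf_ZY hTen) hT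
  have hB2 : Bc ok ℒ T m 10 z ≤ κ * (942 / 10000) * S ok ℒ m := by
    refine hB.trans ?_
    have : 0 ≤ κ * S ok ℒ m := by positivity
    have := mul_le_mul_of_nonneg_left hg this
    linarith only [this]
  have hA := hE.hA
  have hF : Fc ok ℒ m (z 0) ≤ 1 / 4 * N ok ℒ m +
      (κ * ((477 / 200 : ℚ) ^ 2 / (477 / 200 - 1) ^ 2 - 1) + 1 / 1000) / 4 * S ok ℒ m := by
    rw [z0, hκ]
    have h1 : ε * S ok ℒ m ≤ 1 / 1000 * S ok ℒ m := mul_le_mul_of_nonneg_right hε hS.le
    linarith only [h1, hA, hw10]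
  have hnum : (κ * ((477 / 200 : ℚ) ^ 2 / (477 / 200 - 1) ^ 2 - 1) + 1 / 1000) / 4 + κ * (942 / 10000) +
      (1 / 1000 + κ / (477 / 200) ^ 3) < 3 / 4 := by
    rw [hκ]; norm_num
  have hlt : Fc ok ℒ m (z 0) + Bc ok ℒ T m 10 z + ((10 * F.card + 20 * M) *
      (κ * S ok ℒ m / (477 / 200) ^ (s - 10)) + κ * S ok ℒ m / (477 / 200) ^ 3) < N ok ℒ m := by
    have h1 := mul_lt_mul_of_pos_right hnum hS
    have h2 : κ * S ok ℒ m / (477 / 200) ^ 3 = κ / (477 / 200) ^ 3 * S ok ℒ m := by ring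
    rw [h2]
    linarith only [h1, hF, hB2, hX2, hSN]
  obtain ⟨c, hc, hEc, hsq⟩ := close_exists (T := T) (Λ := 10) (z := z)
    (E := EY m s M F [w5, w4, w3, w2, w1] z) hE.loc hX hlt
  refine ⟨c, hc, w6, m6, w7, m7, w8, m8, w9, m9, w10, m10, hTen, ?_, ?_⟩
  · rw [← hz]
    intro p hp1 hp2
    refine ⟨?_, ?_, ?_, fun a _ => win_ne_nil⟩
    · intro t a ht htT ha
      have htT' : t < T := htT
      rcases Nat.lt_or_ge a m with h | h
      · exact hsq t a ht htT' h (by omega) (by omega)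
      · obtain ⟨i, hi, hne⟩ := zf_sqfree hTen t (a - m) ht (by omega)
        refine ⟨i, hi, ?_⟩
        rw [cat_ge (by omega), cat_ge (by omega), show a + i - m = a - m + i by omega,
          show a + t + i - m = a - m + t + i by omega, hz]
        exact hne
    · intro a ha hF'
      have ha' : a + s = p + 1 := ha
      have := (hEc.1 (p - m) (by omega)).1 _ hF'
      apply this
      unfold R1
      rw [show m + (p - m) + 1 - s = a by omega]
    · intro j a ha hj
      have ha' : a + s = p + 1 := ha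
      have hj' : j + s ≤ a := hj
      obtain ⟨h1, h2⟩ := (hEc.1 (p - m) (by omega)).2 j (by omega)
      have e : m + (p - m) + 1 - s = a := by omega
      constructor
      · intro h
        apply h1
        unfold R2
        rw [e]
        exact ⟨hj', h⟩
      · intro h
        apply h2
        unfold R3
        rw [e]
        exact ⟨hj', h⟩
  · rw [← hz]
    intro a h16 ha hne heq
    rcases Nat.lt_or_ge m (a + 5) with h | h
    · obtain ⟨a1, a2, a3, a4, a5⟩ := win5_eq heq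
      have hcase : a = m + 4 ∨ a = m + 3 ∨ a = m + 2 ∨ a = m + 1 ∨ a = m ∨ a = m - 1 ∨ a = m - 2 ∨
        a = m - 3 ∨ a = m - 4 := by omega
      have g := hTen.five
      rcases hcase with rfl | rfl | rfl | rfl | rfl | rfl | rfl | rfl | rfl
      · rw [cat_ge (by omega), show m + 4 + 4 - m = 8 by omega, z8] at a5
        exact g.h12 a5.symm
      · rw [cat_ge (by omega), show m + 3 + 4 - m = 7 by omega, z7] at a5
        exact g.h13 a5.symm
      · rw [cat_ge (by omega), show m + 2 + 4 - m = 6 by omega, z6] at a5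
        exact g.h14 a5.symm
      · rw [cat_ge (by omega), show m + 1 + 4 - m = 5 by omega, z5] at a5
        exact g.h15 a5.symm
      · rw [cat_ge (by omega), show a + 4 - a = 4 by omega, z4] at a5
        rw [cat_ge (by omega), show a + 3 - a = 3 by omega, z3] at a4
        exact hTen.h7.2.2.1 a5 a4
      · rw [cat_ge (by omega), show m - 1 + 4 - m = 3 by omega, z3] at a5
        rw [cat_ge (by omega), show m - 1 + 3 - m = 2 by omega, z2] at a4
        rw [cat_ge (by omega), show m - 1 + 2 - m = 1 by omega, z1] at a3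
        rw [cat_ge (by omega), show m - 1 + 1 - m = 0 by omega, z0] at a2
        exact hTen.d4 ⟨a5, a4, a3, a2⟩
      · rw [cat_ge (by omega), show m - 2 + 4 - m = 2 by omega, z2] at a5
        rw [cat_ge (by omega), show m - 2 + 3 - m = 1 by omega, z1] at a4
        rw [cat_ge (by omega), show m - 2 + 2 - m = 0 by omega, z0] at a3
        exact hTen.l7 ⟨a5, a4, a3⟩
      · exact hEc.2 (Or.inl heq)
      · exact hEc.2 (Or.inr heq)
    · have h1 := (mem_W.1 hc).2 (a + 4) (by omega)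
      have h2 := hG _ _ h1 h16 a (by omega)
      apply h2
      rw [← heq]
      exact win_congr (fun i _ hi => (cat_lt (by omega)).symm)

end
end Pool.Agent.H401R3.SD.Wd
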