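import Pool.Agent.H401R3.SD.ZWord

set_option autoImplicit false

namespace Pool.Agent.H401R3.SD.Wd
open Finset
open scoped Classical
open Pool.Agent.H409R3.Sub (win)
open Pool.Agent.H378R3.ND hiding inj_bound

noncomputable section

variable {ok : ℕ → (ℕ → ℕ) → Prop} {ℒ : ℕ → Finset ℕ}

lemma det_W (hloc : Local ok) {m j : ℕ} {Q : (ℕ → ℕ) → Prop} (hj : j ≤ m)
    (hQ : ∀ c c', Q c → Q c' → (∀ i < j, c i = c' i) → ∀ i, j ≤ i → i < m → c i = c' i) :
    ∑ c ∈ W ok ℒ m, (if Q c then (1 : ℚ) else 0) ≤ N ok ℒ j := by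
  rw [← sum_filter, N_eq]
  refine inj_bound (m := m) (j := j) (W ok ℒ j) ?_ ?_ ?_ _ _ (fun _ _ => le_rfl) (fun _ _ => zero_le_one)
  · intro c hc i hi
    rw [mem_filter, mem_W] at hc
    exact hc.1.1.2 i hi
  · intro c hc
    rw [mem_filter] at hc
    exact trunc_W hloc hc.1 hj
  · intro c hc c' hc' heq i h1 h2
    rw [mem_filter] at hc hc'
    exact hQ c c' hc.2 hc'.2 heq i h1 h2

lemma cat_lt {m : ℕ} {c z : ℕ → ℕ} {i : ℕ} (h : i < m) : cat m c z i = c i := by simp [cat, h]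

lemma cat_ge {m : ℕ} {c z : ℕ → ℕ} {i : ℕ} (h : m ≤ i) : cat m c z i = z (i - m) := by
  simp [cat, not_lt.mpr h]

def R2 (m s : ℕ) (z : ℕ → ℕ) (i j : ℕ) (c : ℕ → ℕ) : Prop :=
  j + s ≤ m + i + 1 - s ∧ win (cat m c z) s j = win (cat m c z) s (m + i + 1 - s)
def R3 (m s : ℕ) (z : ℕ → ℕ) (i j : ℕ) (c : ℕ → ℕ) : Prop :=
  j + s ≤ m + i + 1 - s ∧ win (cat m c z) s j = (win (cat m c z) s (m + i + 1 - s)).reverse
def R1 (m s : ℕ) (z : ℕ → ℕ) (i : ℕ) (f : List ℕ) (c : ℕ → ℕ) : Prop :=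
  win (cat m c z) s (m + i + 1 - s) = f

lemma R1_bound (hloc : Local ok) {m s : ℕ} {z : ℕ → ℕ} {i : ℕ} {f : List ℕ} (his : i + 2 ≤ s) (_hsm : s ≤ m) :
    ∑ c ∈ W ok ℒ m, (if R1 m s z i f c then (1 : ℚ) else 0) ≤ N ok ℒ (m + i + 1 - s) := by
  refine det_W hloc (by omega) ?_
  intro c c' hc hc' _ k h1 h2
  have := win_eq (hc.trans hc'.symm) (k - (m + i + 1 - s)) (by omega)
  rwa [show m + i + 1 - s + (k - (m + i + 1 - s)) = k by omega, cat_lt h2, cat_lt h2] at this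

lemma R2_bound (hloc : Local ok) {m s : ℕ} {z : ℕ → ℕ} {i j : ℕ} (his : i + 2 ≤ s) (_hsm : s ≤ m) :
    ∑ c ∈ W ok ℒ m, (if R2 m s z i j c then (1 : ℚ) else 0) ≤ N ok ℒ (m + i + 1 - s) := by
  refine det_W hloc (by omega) ?_
  intro c c' hc hc' heq k h1 h2
  have e1 := win_eq hc.2 (k - (m + i + 1 - s)) (by omega)
  have e2 := win_eq hc'.2 (k - (m + i + 1 - s)) (by omega)
  have hj := hc.1
  rw [show m + i + 1 - s + (k - (m + i + 1 - s)) = k by omega, cat_lt h2, cat_lt (by omega)] at e1 e2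
  rw [← e1, ← e2]
  exact heq _ (by omega)

lemma R3_bound (hloc : Local ok) {m s : ℕ} {z : ℕ → ℕ} {i j : ℕ} (his : i + 2 ≤ s) (_hsm : s ≤ m) :
    ∑ c ∈ W ok ℒ m, (if R3 m s z i j c then (1 : ℚ) else 0) ≤ N ok ℒ (m + i + 1 - s) := by
  refine det_W hloc (by omega) ?_
  intro c c' hc hc' heq k h1 h2
  have e1 := win_rev_eq hc.2 (s - 1 - (k - (m + i + 1 - s))) (by omega)
  have e2 := win_rev_eq hc'.2 (s - 1 - (k - (m + i + 1 - s))) (by omega)
  have hj := hc.1
  rw [show m + i + 1 - s + (s - 1 - (s - 1 - (k - (m + i + 1 - s)))) = k by omega, cat_lt h2,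
    cat_lt (by omega)] at e1 e2
  rw [← e1, ← e2]
  exact heq _ (by omega)

def R4 (m : ℕ) (z : ℕ → ℕ) (G : List ℕ) (c : ℕ → ℕ) : Prop :=
  win (cat m c z) 5 (m - 3) = G ∨ win (cat m c z) 5 (m - 4) = G

/-- the extra property in the closing on the right -/
def EY (m s M : ℕ) (F : Finset (List ℕ)) (G : List ℕ) (z : ℕ → ℕ) (c : ℕ → ℕ) : Prop :=
  (∀ i < 10, (∀ f ∈ F, ¬ R1 m s z i f c) ∧ ∀ j < M, ¬ R2 m s z i j c ∧ ¬ R3 m s z i j c) ∧
  ¬ R4 m z G c

lemma EY_bound (hloc : Local ok) {m s M : ℕ} {F : Finset (List ℕ)} {G : List ℕ} {z : ℕ → ℕ} (hs : 11 ≤ s)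
    (hsm : s ≤ m) {ν X4 : ℚ} (hν : ∀ i < 10, N ok ℒ (m + i + 1 - s) ≤ ν)
    (h4 : ∑ c ∈ W ok ℒ m, (if R4 m z G c then (1 : ℚ) else 0) ≤ X4) :
    ∑ c ∈ W ok ℒ m, (if ¬ EY m s M F G z c then (1 : ℚ) else 0) ≤ (10 * F.card + 20 * M) * ν + X4 := by
  have key : ∀ c ∈ W ok ℒ m, (if ¬ EY m s M F G z c then (1 : ℚ) else 0) ≤
      ∑ i ∈ range 10, (∑ f ∈ F, (if R1 m s z i f c then (1 : ℚ) else 0) +
        ∑ j ∈ range M, ((if R2 m s z i j c then (1 : ℚ) else 0) + (if R3 m s z i j c then (1 : ℚ) else 0))) +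
      (if R4 m z G c then (1 : ℚ) else 0) := by
    intro c _
    have nn : ∀ Q : Prop, (0 : ℚ) ≤ (if Q then (1 : ℚ) else 0) := fun Q => by split_ifs <;> norm_num
    have n1 : ∀ i, (0 : ℚ) ≤ ∑ f ∈ F, (if R1 m s z i f c then (1 : ℚ) else 0) :=
      fun i => sum_nonneg fun _ _ => nn _
    have n2 : ∀ i, (0 : ℚ) ≤ ∑ j ∈ range M, ((if R2 m s z i j c then (1 : ℚ) else 0) +
        (if R3 m s z i j c then (1 : ℚ) else 0)) :=
      fun i => sum_nonneg fun _ _ => add_nonneg (nn _) (nn _)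
    have n3 : (0 : ℚ) ≤ ∑ i ∈ range 10, (∑ f ∈ F, (if R1 m s z i f c then (1 : ℚ) else 0) +
        ∑ j ∈ range M, ((if R2 m s z i j c then (1 : ℚ) else 0) + (if R3 m s z i j c then (1 : ℚ) else 0))) :=
      sum_nonneg fun i _ => add_nonneg (n1 i) (n2 i)
    have n4 := nn (R4 m z G c)
    by_cases hE : EY m s M F G z c
    · rw [if_neg (not_not.mpr hE)]; linarith
    · rw [if_pos hE]
      unfold EY at hE
      rw [not_and_or] at hE
      rcases hE with h | h
      · push Not at h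
        obtain ⟨i, hi, h⟩ := h
        have hle : ∑ f ∈ F, (if R1 m s z i f c then (1 : ℚ) else 0) +
            ∑ j ∈ range M, ((if R2 m s z i j c then (1 : ℚ) else 0) + (if R3 m s z i j c then (1 : ℚ) else 0)) ≤
            ∑ i ∈ range 10, (∑ f ∈ F, (if R1 m s z i f c then (1 : ℚ) else 0) +
            ∑ j ∈ range M, ((if R2 m s z i j c then (1 : ℚ) else 0) + (if R3 m s z i j c then (1 : ℚ) else 0))) :=
          single_le_sum (f := fun i => ∑ f ∈ F, (if R1 m s z i f c then (1 : ℚ) else 0) +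
            ∑ j ∈ range M, ((if R2 m s z i j c then (1 : ℚ) else 0) + (if R3 m s z i j c then (1 : ℚ) else 0)))
            (fun i _ => add_nonneg (n1 i) (n2 i)) (mem_range.2 hi)
        by_cases hf : ∀ f ∈ F, ¬ R1 m s z i f c
        · obtain ⟨j, hj, h⟩ := h hf
          have h1 : (if R2 m s z i j c then (1 : ℚ) else 0) + (if R3 m s z i j c then (1 : ℚ) else 0) ≤
              ∑ j ∈ range M, ((if R2 m s z i j c then (1 : ℚ) else 0) + (if R3 m s z i j c then (1 : ℚ) else 0)) :=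
            single_le_sum (f := fun j => (if R2 m s z i j c then (1 : ℚ) else 0) +
              (if R3 m s z i j c then (1 : ℚ) else 0)) (fun j _ => add_nonneg (nn _) (nn _)) (mem_range.2 hj)
          have h2 : (1 : ℚ) ≤ (if R2 m s z i j c then (1 : ℚ) else 0) + (if R3 m s z i j c then (1 : ℚ) else 0) := by
            by_cases h3 : R2 m s z i j c
            · rw [if_pos h3]; linarith [nn (R3 m s z i j c)]
            · rw [if_pos (h h3)]; linarith [nn (R2 m s z i j c)]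
          linarith [n1 i]
        · push Not at hf
          obtain ⟨f, hf, h3⟩ := hf
          have h1 : (if R1 m s z i f c then (1 : ℚ) else 0) ≤ ∑ f ∈ F, (if R1 m s z i f c then (1 : ℚ) else 0) :=
            single_le_sum (f := fun f => (if R1 m s z i f c then (1 : ℚ) else 0)) (fun f _ => nn _) hf
          rw [if_pos h3] at h1
          linarith [n2 i]
      · rw [not_not] at h
        rw [if_pos h]; linarith
  refine (sum_le_sum key).trans ?_
  rw [sum_add_distrib, sum_comm]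
  have h1 : ∑ i ∈ range 10, ∑ c ∈ W ok ℒ m, (∑ f ∈ F, (if R1 m s z i f c then (1 : ℚ) else 0) +
      ∑ j ∈ range M, ((if R2 m s z i j c then (1 : ℚ) else 0) + (if R3 m s z i j c then (1 : ℚ) else 0))) ≤
      ∑ i ∈ range 10, (F.card * ν + M * (ν + ν)) := by
    refine sum_le_sum fun i hi => ?_
    rw [mem_range] at hi
    rw [sum_add_distrib, sum_comm]
    refine add_le_add ?_ ?_
    · refine (sum_le_sum fun f _ => (R1_bound hloc (by omega) hsm).trans (hν i hi)).trans ?_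
      rw [sum_const, nsmul_eq_mul]
    · rw [sum_comm]
      refine (sum_le_sum (g := fun _ => ν + ν) fun j _ => ?_).trans ?_
      · rw [sum_add_distrib]
        exact add_le_add ((R2_bound hloc (by omega) hsm).trans (hν i hi))
          ((R3_bound hloc (by omega) hsm).trans (hν i hi))
      · rw [sum_const, card_range, nsmul_eq_mul]
  rw [sum_const, card_range, nsmul_eq_mul] at h1
  push_cast at h1
  linarith

end
end Pool.Agent.H401R3.SD.Wd
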