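import Pool.Agent.H401R3.SD.Mid
import Pool.Agent.H401R3.SD.Ends

set_option autoImplicit false

namespace Pool.Agent.H401R3.SD.Wd
open Finset

/-- the ten middle letters, read from the right -/
def zf (w1 w2 w3 w4 w5 w6 w7 w8 w9 w10 : ℕ) : ℕ → ℕ := fun i =>
  ([w10, w9, w8, w7, w6, w5, w4, w3, w2, w1] : List ℕ).getD i 0

variable {w1 w2 w3 w4 w5 w6 w7 w8 w9 w10 : ℕ}

lemma zf_sqfree (h : Ten w1 w2 w3 w4 w5 w6 w7 w8 w9 w10) : ∀ t a, 1 ≤ t → a + 2 * t ≤ 10 →
    ∃ i < t, zf w1 w2 w3 w4 w5 w6 w7 w8 w9 w10 (a + i) ≠ zf w1 w2 w3 w4 w5 w6 w7 w8 w9 w10 (a + t + i) := by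
  obtain ⟨⟨g12, g13, g14, g15, g23, g24, g34, g35, g45⟩, h6, h7, h8, h9, r5, r6, d4, l7, s3, s4⟩ := h
  have h36 : w7 = w4 → w6 = w3 → False := fun e1 e2 =>
    h7.2.2.2 (fun e3 => g13 (e3.symm.trans e2)) e1
  intro t a ht ha
  by_contra hc
  push Not at hc
  have ht5 : t ≤ 5 := by omega
  interval_cases t
  · have h0 := hc 0 (by norm_num)
    have : a ≤ 8 := by omega
    clear hc
    interval_cases a
    · exact h9.1 h0.symm
    · exact h9.2 h0
    · exact h8.2.1 h0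
    · exact h7.2.1 h0
    · exact h6.2.1 h0
    · exact g45 h0.symm
    · exact g34 h0.symm
    · exact g23 h0.symm
    · exact g12 h0.symm
  · have h0 := hc 0 (by norm_num)
    have h1 := hc 1 (by norm_num)
    have : a ≤ 6 := by omega
    clear hc
    interval_cases a
    · exact h8.1 h0.symm
    · exact h8.2.2 h1
    · exact h8.2.2 h0
    · exact h6.2.2 h1
    · exact h6.2.2 h0
    · exact g35 h0.symm
    · exact g24 h0.symm
  · have h0 := hc 0 (by norm_num)
    have h1 := hc 1 (by norm_num)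
    have h2 := hc 2 (by norm_num)
    have : a ≤ 4 := by omega
    clear hc
    interval_cases a
    · exact h7.1 h0.symm
    · exact s3 ⟨h2.symm, h1.symm, h0.symm⟩
    · exact h36 h1 h2
    · exact h36 h0 h1
    · exact g14 h2.symm
  · have h0 := hc 0 (by norm_num)
    have h1 := hc 1 (by norm_num)
    have h2 := hc 2 (by norm_num)
    have h3 := hc 3 (by norm_num)
    have : a ≤ 2 := by omega
    clear hc
    interval_cases a
    · exact h6.1 h0.symm
    · exact s4 ⟨h3.symm, h2.symm, h1.symm, h0.symm⟩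
    · exact g15 h3.symm
  · have h0 := hc 0 (by norm_num)
    have h1 := hc 1 (by norm_num)
    have : a ≤ 0 := by omega
    clear hc
    interval_cases a
    exact r5 ⟨h0.symm, h1.symm⟩

lemma zf_ZY (h : Ten w1 w2 w3 w4 w5 w6 w7 w8 w9 w10) :
    ZY (zf w1 w2 w3 w4 w5 w6 w7 w8 w9 w10) := by
  obtain ⟨⟨g12, g13, g14, g15, g23, g24, g34, g35, g45⟩, h6, h7, h8, h9, r5, r6, d4, l7, s3, s4⟩ := h
  refine ⟨?_, ?_, ?_, ?_, ?_⟩
  · intro t h1 h2
    interval_cases t
    · exact h9.1.symm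
    · exact h8.1.symm
    · exact h7.1.symm
    · exact h6.1.symm
  · intro hp
    exact r5 ⟨(hp 0 (by norm_num)).symm, (hp 1 (by norm_num)).symm⟩
  · intro hp
    exact r6 ⟨(hp 0 (by norm_num)).symm, (hp 1 (by norm_num)).symm, (hp 2 (by norm_num)).symm⟩
  · exact g45.symm
  · exact g23.symm

end Pool.Agent.H401R3.SD.Wd
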